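import Mathlib

set_option autoImplicit false

/-! # Signs, characters of elementary abelian 2-groups, and the basic data -/

namespace Pool.Agent.N16.Gor

open Finset

/-- the sign `(-1)^x` -/
noncomputable def sg (x : ZMod 2) : ℝ := if x = 0 then 1 else -1

@[simp] lemma sg_zero : sg 0 = 1 := by simp [sg]

@[simp] lemma sg_one : sg 1 = -1 := by simp [sg]

lemma z2_cases (x : ZMod 2) : x = 0 ∨ x = 1 := by
  revert x; decide

lemma z2_self (x : ZMod 2) : x + x = 0 := by
  revert x; decide

lemma sg_add (x y : ZMod 2) : sg (x + y) = sg x * sg y := by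
  rcases z2_cases x with rfl | rfl <;> rcases z2_cases y with rfl | rfl
  · simp
  · simp
  · simp
  · rw [z2_self]; simp

lemma sg_sq (x : ZMod 2) : sg x * sg x = 1 := by
  rcases z2_cases x with rfl | rfl <;> simp

lemma sg_cases (x : ZMod 2) : sg x = 1 ∨ sg x = -1 := by
  rcases z2_cases x with rfl | rfl <;> simp

lemma sg_ne (x : ZMod 2) : sg x ≠ 0 := by
  rcases sg_cases x with h | h <;> rw [h] <;> norm_num

variable {V : Type} [AddCommGroup V]

/-- the dual group -/
abbrev Du (V : Type) [AddCommGroup V] : Type := V →+ ZMod 2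

lemma du_self (l : Du V) : l + l = 0 := by
  ext x; simp [z2_self]

lemma du_eq {l m : Du V} (h : l + m = 0) : l = m := by
  have := congrArg (· + m) h
  simpa [add_assoc, du_self] using this

lemma du_cancel (l m : Du V) : l + m + m = l := by
  rw [add_assoc, du_self, add_zero]

noncomputable instance [Finite V] : Fintype (Du V) :=
  haveI : Finite (Du V) := Finite.of_injective (fun l : Du V => (l : V → ZMod 2)) DFunLike.coe_injective
  Fintype.ofFinite _

noncomputable instance : DecidableEq (Du V) := Classical.decEq _

/-- orthogonality, sum over the group -/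
lemma sum_sg [Fintype V] (l : Du V) :
    ∑ x : V, sg (l x) = if l = 0 then (Fintype.card V : ℝ) else 0 := by
  split_ifs with h
  · subst h; simp
  · obtain ⟨y, hy⟩ : ∃ y, l y ≠ 0 := by
      by_contra hc
      push Not at hc
      exact h (by ext x; simpa using hc x)
    have hy1 : l y = 1 := (z2_cases _).resolve_left hy
    have e : ∑ x : V, sg (l x) = ∑ x : V, sg (l (x + y)) :=
      (Fintype.sum_equiv (Equiv.addRight y) _ _ (fun x => rfl)).symm
    have e2 : ∑ x : V, sg (l (x + y)) = - ∑ x : V, sg (l x) := by
      rw [← Finset.sum_neg_distrib]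
      refine Finset.sum_congr rfl fun x _ => ?_
      rw [map_add, sg_add, hy1, sg_one]; ring
    linarith

end Pool.Agent.N16.Gor
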