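import Pool.Agent.N16.Gor.Fin

set_option autoImplicit false

/-! # Constant ranks -/

namespace Pool.Agent.N16.Gor

open Finset

namespace Dat

variable {V : Type} [AddCommGroup V] (D : Dat V) [Fintype V]

/-- if all nonzero elements have the same number of symbols, the number is four -/
theorem const_rank {m : ℕ} (hm : ∀ x : V, x ≠ 0 → D.M x = m) {z : V} (hz : z ≠ 0) :
    m = 2 ∧ Fintype.card V = 8 := by
  have hZ := D.Z_pos
  have hN := D.N_pos
  have hmpos : (0 : ℝ) < m := by rw [← hm z hz]; exact D.M_pos z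
  have hM0 : D.M 0 = 1 := D.M_zero
  have hr : ∀ x : V, x ≠ 0 → D.r x = 1 / m := by
    intro x hx; unfold r; rw [hm x hx]
  have hr0 : D.r 0 = 1 := by unfold r; rw [hM0]; norm_num
  -- the total weight
  have hZe : D.Z = 1 + (D.N - 1) / m := by
    unfold Z
    rw [← Finset.add_sum_erase _ _ (mem_univ (0 : V)), hr0,
      Finset.sum_congr rfl fun x hx => hr x (Finset.ne_of_mem_erase hx), Finset.sum_const,
      Finset.card_erase_of_mem (mem_univ _), Finset.card_univ]
    have : 1 ≤ Fintype.card V := Fintype.card_pos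
    rw [nsmul_eq_mul, Nat.cast_sub this]
    unfold N
    push_cast
    ring
  -- the squares of the values
  have hsq : ∀ c : Du V, c ≠ 0 → D.Z * (D.t c * D.t c) = 1 - 1 / m := by
    intro c hc
    have h1 := D.X_eq 0 c
    rw [add_zero, D.e_symm, e_zero] at h1
    have h2 : D.X 0 c = ∑ a : V, D.r a * sg (c a) := by
      unfold X
      refine Finset.sum_congr rfl fun a _ => ?_
      rw [if_pos (D.zero_mem a)]
    have h3 : ∑ a : V, D.r a * sg (c a) = 1 - 1 / m := by
      have h4 : ∑ a : V, sg (c a) = 0 := by rw [sum_sg, if_neg hc]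
      rw [← Finset.add_sum_erase _ _ (mem_univ (0 : V))] at h4 ⊢
      rw [map_zero, sg_zero] at h4 ⊢
      rw [hr0, Finset.sum_congr rfl fun x hx => by rw [hr x (Finset.ne_of_mem_erase hx)],
        ← Finset.mul_sum]
      have : ∑ x ∈ univ.erase (0 : V), sg (c x) = -1 := by linarith
      rw [this]; ring
    rw [← h3, ← h2, h1]; ring
  have hZm : D.Z * m = m + D.N - 1 := by rw [hZe]; field_simp; ring
  -- all values agree
  obtain ⟨l0, hl0, -, -⟩ := D.common hz hz
  set u := D.t l0 with hu
  have hall : ∀ c : Du V, c ≠ 0 → D.t c = u := by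
    intro c hc
    have h1 := hsq c hc
    have h2 := hsq l0 hl0
    have h3 : D.t c * D.t c = u * u := by
      have : D.Z * (D.t c * D.t c) = D.Z * (u * u) := by rw [h1, hu, h2]
      exact mul_left_cancel₀ hZ.ne' this
    have h4 := D.t_pos c
    have h5 := D.t_pos l0
    nlinarith [mul_self_eq_mul_self_iff.1 h3]
  have hsum := D.sum_t z
  rw [← Finset.add_sum_erase _ _ (D.zero_mem z), t_zero,
    Finset.sum_congr rfl fun c hc => hall c (Finset.ne_of_mem_erase hc), Finset.sum_const,
    Finset.card_erase_of_mem (D.zero_mem z), ← M_sq, hm z hz, hr z hz, nsmul_eq_mul] at hsum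
  have hm1 : 1 ≤ m * m := by
    have : 0 < m := by exact_mod_cast hmpos
    exact Nat.mul_pos this this
  rw [Nat.cast_sub hm1] at hsum
  push_cast at hsum
  have hmul : 1 + ((m : ℝ) * m - 1) * u = m := by
    field_simp at hsum
    linarith
  have hm2 : 2 ∣ m := by rw [← hm z hz]; exact D.M_even hz
  have hm3 : (2 : ℝ) ≤ m := by
    have : 0 < m := by exact_mod_cast hmpos
    exact_mod_cast Nat.le_of_dvd this hm2
  have hu1 : (m + 1) * u = 1 := by
    have : ((m : ℝ) - 1) * ((m + 1) * u - 1) = 0 := by linear_combination hmul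
    rcases mul_eq_zero.1 this with h | h
    · linarith
    · linarith
  have hrel : (m : ℝ) + D.N - 1 = (m - 1) * ((m + 1) * (m + 1)) := by
    have h1 := hsq l0 hl0
    have h2 : D.Z * m * (u * u) = m - 1 := by
      have : D.Z * (u * u) * m = (1 - 1 / m) * m := by rw [← h1]
      have h3 : (1 - 1 / (m : ℝ)) * m = m - 1 := by field_simp
      linarith
    rw [hZm] at h2
    have h4 : (m + D.N - 1) * (((m + 1) * u) * ((m + 1) * u)) = (m - 1) * ((m + 1) * (m + 1)) := by
      linear_combination (m + 1 : ℝ) * (m + 1) * h2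
    rw [hu1] at h4
    linarith
  -- the number of elements
  have hNat : Fintype.card V = (m - 1) * (m * (m + 2)) := by
    have h2m : 1 ≤ m := by exact_mod_cast (by linarith : (1 : ℝ) ≤ m)
    have : ((Fintype.card V : ℕ) : ℝ) = (((m - 1) * (m * (m + 2)) : ℕ) : ℝ) := by
      rw [Nat.cast_mul, Nat.cast_sub h2m]
      push_cast
      change D.N = _
      linear_combination hrel
    exact_mod_cast this
  obtain ⟨n, hn⟩ := D.card_pow
  have hdvd : (m - 1) ∣ 2 ^ n := by rw [← hn, hNat]; exact dvd_mul_right _ _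
  obtain ⟨k, -, hk⟩ := (Nat.dvd_prime_pow Nat.prime_two).1 hdvd
  have hm2' : m = 2 := by
    have h2m : 2 ≤ m := by exact_mod_cast hm3
    rcases Nat.eq_zero_or_pos k with h0 | h0
    · rw [h0, pow_zero] at hk; omega
    · exfalso
      have : 2 ∣ m - 1 := by rw [hk]; exact dvd_pow_self 2 (by omega)
      omega
  refine ⟨hm2', ?_⟩
  rw [hNat, hm2']

end Dat

end Pool.Agent.N16.Gor
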