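import Pool.Agent.N16.Gor.Pos

set_option autoImplicit false

/-! # An element with four symbols: constancy on cosets -/

namespace Pool.Agent.N16.Gor

open Finset

lemma maxp {a b c d p q s : ℝ} (hp : 0 < p) (hq : 0 < q) (hs : 0 < s) (h1 : p + q + s = 1)
    (ha : a = p * b + q * c + s * d) (hb : b = p * a + q * d + s * c)
    (hc : c = p * d + q * a + s * b) (hd : d = p * c + q * b + s * a) :
    b = a ∧ c = a ∧ d = a := by
  have e1 : (q + s) * ((a + b) - (c + d)) = 0 := by linear_combination ha + hb + (a + b) * h1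
  have e2 : (p + s) * ((a + c) - (b + d)) = 0 := by linear_combination ha + hc + (a + c) * h1
  have e3 : (p + q) * ((a + d) - (b + c)) = 0 := by linear_combination ha + hd + (a + d) * h1
  have f1 := (mul_eq_zero.1 e1).resolve_left (by positivity)
  have f2 := (mul_eq_zero.1 e2).resolve_left (by positivity)
  have f3 := (mul_eq_zero.1 e3).resolve_left (by positivity)
  refine ⟨by linarith, by linarith, by linarith⟩

namespace Dat

variable {V : Type} [AddCommGroup V] (D : Dat V) [Fintype V]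

/-- `z` has exactly four symbols, and `φ z b1`, `φ z b2` generate them -/
def Hz (z b1 b2 : V) : Prop := (D.R z).card = 4 ∧ D.φ z b1 b2 = 1

variable {D}

namespace Hz

variable {z b1 b2 : V}

lemma swap (h : D.Hz z b1 b2) : D.Hz z b2 b1 := ⟨h.1, by rw [D.symm']; exact h.2⟩

lemma rot (h : D.Hz z b1 b2) : D.Hz z b1 (b1 + b2) := ⟨h.1, by
  rw [map_add, D.alt2, zero_add]; exact h.2⟩

lemma T11 (h : D.Hz z b1 b2) : D.φ z b1 b1 = 0 := D.alt2 _ _
lemma T22 (h : D.Hz z b1 b2) : D.φ z b2 b2 = 0 := D.alt2 _ _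
lemma T12 (h : D.Hz z b1 b2) : D.φ z b1 b2 = 1 := h.2
lemma T21 (h : D.Hz z b1 b2) : D.φ z b2 b1 = 1 := h.swap.2

lemma ne1 (h : D.Hz z b1 b2) : D.φ z b1 ≠ 0 := fun e => by
  have := h.2; rw [e] at this; simp at this

lemma ne2 (h : D.Hz z b1 b2) : D.φ z b2 ≠ 0 := h.swap.ne1

lemma ne12 (h : D.Hz z b1 b2) : D.φ z b1 ≠ D.φ z b2 := fun e => by
  have h1 := h.T11
  rw [e, h.T21] at h1
  exact absurd h1 (by decide)

lemma ne3 (h : D.Hz z b1 b2) : D.φ z b1 + D.φ z b2 ≠ 0 := fun e => h.ne12 (du_eq e)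

lemma R_eq (h : D.Hz z b1 b2) :
    D.R z = {0, D.φ z b1, D.φ z b2, D.φ z b1 + D.φ z b2} := by
  symm
  refine Finset.eq_of_subset_of_card_le ?_ ?_
  · intro l hl
    simp only [Finset.mem_insert, Finset.mem_singleton] at hl
    rcases hl with rfl | rfl | rfl | rfl
    · exact D.zero_mem _
    · exact D.mem_R.2 ⟨_, rfl⟩
    · exact D.mem_R.2 ⟨_, rfl⟩
    · exact D.add_mem (D.mem_R.2 ⟨_, rfl⟩) (D.mem_R.2 ⟨_, rfl⟩)
  · rw [h.1]
    have h3 : D.φ z b1 ≠ D.φ z b1 + D.φ z b2 := fun e => h.ne2 (by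
      have := congrArg (fun l => D.φ z b1 + l) e
      rw [du_self, ← add_assoc, du_self, zero_add] at this
      exact this.symm)
    have h4 : D.φ z b2 ≠ D.φ z b1 + D.φ z b2 := fun e => h.ne1 (by
      have := congrArg (fun l => l + D.φ z b2) e
      rw [du_self, add_assoc, du_self, add_zero] at this
      exact this.symm)
    rw [Finset.card_insert_of_notMem, Finset.card_insert_of_notMem, Finset.card_insert_of_notMem,
      Finset.card_singleton]
    · simpa using h4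
    · simp only [Finset.mem_insert, Finset.mem_singleton, not_or]
      exact ⟨h.ne12, h3⟩
    · simp only [Finset.mem_insert, Finset.mem_singleton, not_or]
      exact ⟨h.ne1.symm, h.ne2.symm, h.ne3.symm⟩

lemma sumR (h : D.Hz z b1 b2) (g : Du V → ℝ) :
    ∑ l ∈ D.R z, g l = g 0 + g (D.φ z b1) + g (D.φ z b2) + g (D.φ z b1 + D.φ z b2) := by
  have h3 : D.φ z b1 ≠ D.φ z b1 + D.φ z b2 := fun e => h.ne2 (by
    have := congrArg (fun l => D.φ z b1 + l) e
    rw [du_self, ← add_assoc, du_self, zero_add] at this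
    exact this.symm)
  have h4 : D.φ z b2 ≠ D.φ z b1 + D.φ z b2 := fun e => h.ne1 (by
    have := congrArg (fun l => l + D.φ z b2) e
    rw [du_self, add_assoc, du_self, add_zero] at this
    exact this.symm)
  rw [h.R_eq, Finset.sum_insert, Finset.sum_insert, Finset.sum_insert, Finset.sum_singleton]
  · ring
  · simpa using h4
  · simp only [Finset.mem_insert, Finset.mem_singleton, not_or]
    exact ⟨h.ne12, h3⟩
  · simp only [Finset.mem_insert, Finset.mem_singleton, not_or]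
    exact ⟨h.ne1.symm, h.ne2.symm, h.ne3.symm⟩

lemma Mz (h : D.Hz z b1 b2) : D.M z = 2 := by
  have h1 := D.M_sq z
  rw [h.1] at h1
  nlinarith

lemma rz (h : D.Hz z b1 b2) : D.r z = 1 / 2 := by
  unfold r; rw [h.Mz]; norm_num

lemma sum_one (h : D.Hz z b1 b2) :
    D.t (D.φ z b1) + D.t (D.φ z b2) + D.t (D.φ z b1 + D.φ z b2) = 1 := by
  have h1 := D.sum_t z
  rw [h.rz, h.sumR, D.t_zero] at h1
  linarith

lemma eT (h : D.Hz z b1 b2) :
    D.eps (D.φ z b1) * D.eps (D.φ z b2) * D.eps (D.φ z b1 + D.φ z b2) = -1 := by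
  rw [D.coc, h.2, sg_one]

/-- transport of the commutator signs along the coset -/
lemma e11 (c : Du V) (l : Du V) : D.e (c + l) l = D.e c l := by
  unfold Dat.e; rw [du_cancel]; ring

lemma e12 (h : D.Hz z b1 b2) (c : Du V) : D.e (c + D.φ z b1) (D.φ z b2) =
    - (D.e c (D.φ z b1) * D.e c (D.φ z b1 + D.φ z b2)) := by
  have h1 := h.eT
  unfold Dat.e
  rw [add_assoc]
  have a1 := D.eps_sq c
  have a2 := D.eps_sq (D.φ z b2)
  set x := D.eps c
  set y1 := D.eps (D.φ z b1)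
  set y2 := D.eps (D.φ z b2)
  set y3 := D.eps (D.φ z b1 + D.φ z b2)
  set u := D.eps (c + D.φ z b1)
  set w := D.eps (c + (D.φ z b1 + D.φ z b2))
  calc u * y2 * w = -(y1 * y2 * y3) * (u * y2 * w) := by rw [h1]; ring
    _ = -((y2 * y2) * (y1 * y3 * u * w)) := by ring
    _ = -((x * x) * (y1 * y3 * u * w)) := by rw [a1, a2]
    _ = _ := by ring

lemma e13 (h : D.Hz z b1 b2) (c : Du V) : D.e (c + D.φ z b1) (D.φ z b1 + D.φ z b2) =
    - (D.e c (D.φ z b1) * D.e c (D.φ z b2)) := by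
  have h1 := h.eT
  unfold Dat.e
  rw [show c + D.φ z b1 + (D.φ z b1 + D.φ z b2) = c + D.φ z b2 + (D.φ z b1 + D.φ z b1) by abel,
    du_self, add_zero]
  have a1 := D.eps_sq c
  have a2 := D.eps_sq (D.φ z b1 + D.φ z b2)
  set x := D.eps c
  set y1 := D.eps (D.φ z b1)
  set y2 := D.eps (D.φ z b2)
  set y3 := D.eps (D.φ z b1 + D.φ z b2)
  set u := D.eps (c + D.φ z b1)
  set w := D.eps (c + D.φ z b2)
  calc u * y3 * w = -(y1 * y2 * y3) * (u * y3 * w) := by rw [h1]; ring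
    _ = -((y3 * y3) * (y1 * y2 * u * w)) := by ring
    _ = -((x * x) * (y1 * y2 * u * w)) := by rw [a1, a2]
    _ = _ := by ring

lemma star' (h : D.Hz z b1 b2) (c : Du V) : 2 * (sg (c z) * D.t c) = D.t c +
    D.e c (D.φ z b1) * D.t (c + D.φ z b1) + D.e c (D.φ z b2) * D.t (c + D.φ z b2) +
    D.e c (D.φ z b1 + D.φ z b2) * D.t (c + (D.φ z b1 + D.φ z b2)) := by
  have h1 := D.star z c
  rw [h.rz, h.sumR] at h1
  have h2 : D.e c 0 = 1 := by rw [D.e_symm, D.e_zero]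
  rw [h2, add_zero] at h1
  linarith

/-- the symbols of `z` and `a` for `a` off two kernels -/
lemma phi_az (h : D.Hz z b1 b2) {a : V} (h1 : D.φ z b1 a = 1) (h2 : D.φ z b2 a = 1) :
    D.φ z a = D.φ z b1 + D.φ z b2 := by
  have hm : D.φ z a ∈ D.R z := D.mem_R.2 ⟨a, rfl⟩
  rw [h.R_eq] at hm
  simp only [Finset.mem_insert, Finset.mem_singleton] at hm
  have h3 : D.φ z a a = 0 := D.alt2 _ _
  rcases hm with e | e | e | e
  · have : D.φ z a b1 = 1 := by rw [D.symm']; exact h1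
    rw [e] at this; simp at this
  · rw [e, h1] at h3; exact absurd h3 (by decide)
  · rw [e, h2] at h3; exact absurd h3 (by decide)
  · exact e

/-- no slot of `c` meets the third class -/
lemma no_slot (h : D.Hz z b1 b2) {c : Du V} (hc : c z = 0)
    (he : D.e c (D.φ z b1 + D.φ z b2) = -1) {a : V} (h1 : D.φ z b1 a = 1)
    (h2 : D.φ z b2 a = 1) : c ∉ D.R a := by
  intro hca
  obtain ⟨w, hw⟩ := D.mem_R.1 hca
  have h3 : D.φ a z = D.φ z b1 + D.φ z b2 := by rw [D.symm]; exact h.phi_az h1 h2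
  have h4 := D.coc (a := a) (w := w) (y := z)
  rw [hw, h3, hc, sg_zero] at h4
  unfold Dat.e at he
  linarith

lemma conv (h : D.Hz z b1 b2) {c : Du V} (hc : c z = 0)
    (he : D.e c (D.φ z b1 + D.φ z b2) = -1) :
    D.t c = D.e c (D.φ z b1) * D.t (D.φ z b1) * D.t (c + D.φ z b1) +
      D.e c (D.φ z b2) * D.t (D.φ z b2) * D.t (c + D.φ z b2) +
      D.t (D.φ z b1 + D.φ z b2) * D.t (c + (D.φ z b1 + D.φ z b2)) := by
  have h0 : ∑ a : V, (if c ∈ D.R a then D.r a * ((1 - sg (D.φ z b1 a)) * (1 - sg (D.φ z b2 a)))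
      else 0) = 0 := by
    refine Finset.sum_eq_zero fun a _ => ?_
    split_ifs with hca
    · rcases z2_cases (D.φ z b1 a) with e1 | e1
      · rw [e1]; simp
      rcases z2_cases (D.φ z b2 a) with e2 | e2
      · rw [e2]; simp
      exact absurd hca (h.no_slot hc he e1 e2)
    · rfl
  have h1 : ∑ a : V, (if c ∈ D.R a then D.r a * ((1 - sg (D.φ z b1 a)) * (1 - sg (D.φ z b2 a)))
      else 0) = D.X c 0 - D.X c (D.φ z b1) - D.X c (D.φ z b2) + D.X c (D.φ z b1 + D.φ z b2) := by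
    unfold X
    rw [← Finset.sum_sub_distrib, ← Finset.sum_sub_distrib, ← Finset.sum_add_distrib]
    refine Finset.sum_congr rfl fun a _ => ?_
    split_ifs
    · rw [AddMonoidHom.add_apply, sg_add]; simp; ring
    · simp
  rw [h1, D.X_eq_t, D.X_eq, D.X_eq, D.X_eq, D.e_symm _ c, D.e_symm _ c, D.e_symm _ c, he,
    add_comm _ c, add_comm _ c, add_comm _ c] at h0
  have hZ := D.Z_pos
  have h2 : D.Z * (D.t c - D.e c (D.φ z b1) * D.t (D.φ z b1) * D.t (c + D.φ z b1) -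
      D.e c (D.φ z b2) * D.t (D.φ z b2) * D.t (c + D.φ z b2) -
      D.t (D.φ z b1 + D.φ z b2) * D.t (c + (D.φ z b1 + D.φ z b2))) = 0 := by
    linarith
  have h3 := (mul_eq_zero.1 h2).resolve_left hZ.ne'
  linarith

lemma ne_of_notMem (h : D.Hz z b1 b2) {c : Du V} (hc : c ∉ D.R z) : c ≠ 0 := fun e =>
  hc (e ▸ D.zero_mem z)

lemma not_ppp (h : D.Hz z b1 b2) {c : Du V} (hcR : c ∉ D.R z) (hc : c z = 0)
    (h1 : D.e c (D.φ z b1) = 1) (h2 : D.e c (D.φ z b2) = 1)
    (h3 : D.e c (D.φ z b1 + D.φ z b2) = 1) : False := by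
  have e := h.star' c
  rw [hc, sg_zero, h1, h2, h3] at e
  have hc0 := h.ne_of_notMem hcR
  have s1 := D.strict hc0 h.ne1
  have s2 := D.strict hc0 h.ne2
  have s3 := D.strict hc0 h.ne3
  have e1 := h.sum_one
  have : D.t c * (D.t (D.φ z b1) + D.t (D.φ z b2) + D.t (D.φ z b1 + D.φ z b2)) = D.t c := by
    rw [e1, mul_one]
  linarith

lemma coset_mem (h : D.Hz z b1 b2) {c l : Du V} (hcR : c ∉ D.R z) (hl : l ∈ D.R z) :
    c + l ∉ D.R z := fun hm => hcR (by
  have := D.add_mem hm hl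
  rwa [du_cancel] at this)

lemma coset_z (h : D.Hz z b1 b2) {c l : Du V} (hl : l ∈ D.R z) : (c + l) z = c z := by
  rw [AddMonoidHom.add_apply, D.R_self hl, add_zero]

lemma m1 (h : D.Hz z b1 b2) : D.φ z b1 ∈ D.R z := D.mem_R.2 ⟨_, rfl⟩
lemma m2 (h : D.Hz z b1 b2) : D.φ z b2 ∈ D.R z := D.mem_R.2 ⟨_, rfl⟩
lemma m3 (h : D.Hz z b1 b2) : D.φ z b1 + D.φ z b2 ∈ D.R z := D.add_mem h.m1 h.m2

lemma not_pmm (h : D.Hz z b1 b2) {c : Du V} (hcR : c ∉ D.R z) (hc : c z = 0)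
    (h1 : D.e c (D.φ z b1) = 1) (h2 : D.e c (D.φ z b2) = -1)
    (h3 : D.e c (D.φ z b1 + D.φ z b2) = -1) : False := by
  refine h.not_ppp (c := c + D.φ z b1) (h.coset_mem hcR h.m1) (by rw [h.coset_z h.m1, hc]) ?_ ?_ ?_
  · rw [e11, h1]
  · rw [h.e12, h1, h3]; norm_num
  · rw [h.e13, h1, h2]; norm_num

lemma not_mmm (h : D.Hz z b1 b2) {c : Du V} (hc : c z = 0)
    (h1 : D.e c (D.φ z b1) = -1) (h2 : D.e c (D.φ z b2) = -1)
    (h3 : D.e c (D.φ z b1 + D.φ z b2) = -1) : False := by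
  have e := h.star' c
  rw [hc, sg_zero, h1, h2, h3] at e
  have a0 := D.t_pos c
  have a1 := D.t_pos (c + D.φ z b1)
  have a2 := D.t_pos (c + D.φ z b2)
  have a3 := D.t_pos (c + (D.φ z b1 + D.φ z b2))
  linarith

lemma ppm (h : D.Hz z b1 b2) {c : Du V} (hc : c z = 0)
    (h1 : D.e c (D.φ z b1) = 1) (h2 : D.e c (D.φ z b2) = 1)
    (h3 : D.e c (D.φ z b1 + D.φ z b2) = -1) :
    D.t (c + D.φ z b1) = D.t c ∧ D.t (c + D.φ z b2) = D.t c ∧
      D.t (c + (D.φ z b1 + D.φ z b2)) = D.t c := by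
  have k0 := h.conv hc h3
  have k1 := h.conv (c := c + D.φ z b1) (by rw [h.coset_z h.m1, hc]) (by
    rw [h.e13, h1, h2]; norm_num)
  have k2 := h.conv (c := c + D.φ z b2) (by rw [h.coset_z h.m2, hc]) (by
    have := h.swap.e13 c
    rw [add_comm (D.φ z b2) (D.φ z b1)] at this
    rw [this, h1, h2]; norm_num)
  have k3 := h.conv (c := c + (D.φ z b1 + D.φ z b2)) (by rw [h.coset_z h.m3, hc]) (by
    rw [e11, h3])
  have f11 : D.e (c + D.φ z b1) (D.φ z b1) = 1 := by rw [e11, h1]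
  have f12 : D.e (c + D.φ z b1) (D.φ z b2) = 1 := by rw [h.e12, h1, h3]; norm_num
  have f22 : D.e (c + D.φ z b2) (D.φ z b2) = 1 := by rw [e11, h2]
  have f21 : D.e (c + D.φ z b2) (D.φ z b1) = 1 := by
    have := h.swap.e12 c
    rw [add_comm (D.φ z b2) (D.φ z b1)] at this
    rw [this, h2, h3]; norm_num
  have f31 : D.e (c + (D.φ z b1 + D.φ z b2)) (D.φ z b1) = 1 := by
    -- `c + T3 = (c + T1) + T2`
    have := h.swap.e12 (c + D.φ z b1)
    rw [add_comm (D.φ z b2) (D.φ z b1), add_assoc] at this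
    rw [this, f12, h.e13, h1, h2]; norm_num
  have f32 : D.e (c + (D.φ z b1 + D.φ z b2)) (D.φ z b2) = 1 := by
    rw [← add_assoc, e11, f12]
  rw [h1, h2] at k0
  rw [f11, f12] at k1
  rw [f21, f22] at k2
  rw [f31, f32] at k3
  rw [show c + D.φ z b1 + D.φ z b1 = c from du_cancel _ _,
    show c + D.φ z b1 + D.φ z b2 = c + (D.φ z b1 + D.φ z b2) from add_assoc _ _ _,
    show c + D.φ z b1 + (D.φ z b1 + D.φ z b2) = c + D.φ z b2 by
      rw [show c + D.φ z b1 + (D.φ z b1 + D.φ z b2) = c + D.φ z b2 + (D.φ z b1 + D.φ z b1) by abel,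
        du_self, add_zero]] at k1
  rw [show c + D.φ z b2 + D.φ z b2 = c from du_cancel _ _,
    show c + D.φ z b2 + D.φ z b1 = c + (D.φ z b1 + D.φ z b2) by abel,
    show c + D.φ z b2 + (D.φ z b1 + D.φ z b2) = c + D.φ z b1 by
      rw [show c + D.φ z b2 + (D.φ z b1 + D.φ z b2) = c + D.φ z b1 + (D.φ z b2 + D.φ z b2) by abel,
        du_self, add_zero]] at k2
  rw [show c + (D.φ z b1 + D.φ z b2) + (D.φ z b1 + D.φ z b2) = c from du_cancel _ _,
    show c + (D.φ z b1 + D.φ z b2) + D.φ z b1 = c + D.φ z b2 by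
      rw [show c + (D.φ z b1 + D.φ z b2) + D.φ z b1 = c + D.φ z b2 + (D.φ z b1 + D.φ z b1) by abel,
        du_self, add_zero],
    show c + (D.φ z b1 + D.φ z b2) + D.φ z b2 = c + D.φ z b1 by
      rw [show c + (D.φ z b1 + D.φ z b2) + D.φ z b2 = c + D.φ z b1 + (D.φ z b2 + D.φ z b2) by abel,
        du_self, add_zero]] at k3
  refine maxp (D.t_pos (D.φ z b1)) (D.t_pos (D.φ z b2)) (D.t_pos (D.φ z b1 + D.φ z b2)) h.sum_one
    ?_ ?_ ?_ ?_
  · linarith
  · linarith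
  · linarith
  · linarith

lemma even_const (h : D.Hz z b1 b2) {c : Du V} (hcR : c ∉ D.R z) (hc : c z = 0) :
    D.t (c + D.φ z b1) = D.t c ∧ D.t (c + D.φ z b2) = D.t c ∧
      D.t (c + (D.φ z b1 + D.φ z b2)) = D.t c := by
  have t12 : D.φ z b1 + D.φ z (b1 + b2) = D.φ z b2 := by
    rw [map_add, ← add_assoc, du_self, zero_add]
  have t21 : D.φ z b2 + D.φ z (b2 + b1) = D.φ z b1 := by
    rw [map_add, ← add_assoc, du_self, zero_add]
  rcases D.e_pm c (D.φ z b1) with h1 | h1 <;> rcases D.e_pm c (D.φ z b2) with h2 | h2 <;>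
    rcases D.e_pm c (D.φ z b1 + D.φ z b2) with h3 | h3
  · exact (h.not_ppp hcR hc h1 h2 h3).elim
  · exact h.ppm hc h1 h2 h3
  · have := h.rot.ppm hc h1 (by rw [map_add]; exact h3) (by rw [t12]; exact h2)
    rw [t12, map_add] at this
    exact ⟨this.1, this.2.2, this.2.1⟩
  · exact (h.not_pmm hcR hc h1 h2 h3).elim
  · have := h.swap.rot.ppm hc h2 (by rw [map_add, add_comm]; exact h3) (by rw [t21]; exact h1)
    rw [t21, map_add, add_comm (D.φ z b2) (D.φ z b1)] at this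
    exact ⟨this.2.2, this.1, this.2.1⟩
  · exact (h.swap.not_pmm hcR hc h2 h1 (by rw [add_comm]; exact h3)).elim
  · exact (h.rot.swap.not_pmm hcR hc (by rw [map_add]; exact h3) h1
      (by rw [add_comm, t12]; exact h2)).elim
  · exact (h.not_mmm hc h1 h2 h3).elim

lemma odd_const (h : D.Hz z b1 b2) {c : Du V} (hc : c z = 1) :
    D.t (c + D.φ z b1) = D.t c ∧ D.t (c + D.φ z b2) = D.t c ∧
      D.t (c + (D.φ z b1 + D.φ z b2)) = D.t c := by
  have key : ∀ c : Du V, c z = 1 → 3 * D.t c ≤ D.t (c + D.φ z b1) + D.t (c + D.φ z b2) +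
      D.t (c + (D.φ z b1 + D.φ z b2)) := by
    intro c hc
    have e := h.star' c
    rw [hc, sg_one] at e
    have a1 := D.t_pos (c + D.φ z b1)
    have a2 := D.t_pos (c + D.φ z b2)
    have a3 := D.t_pos (c + (D.φ z b1 + D.φ z b2))
    rcases D.e_pm c (D.φ z b1) with h1 | h1 <;> rcases D.e_pm c (D.φ z b2) with h2 | h2 <;>
      rcases D.e_pm c (D.φ z b1 + D.φ z b2) with h3 | h3 <;> rw [h1, h2, h3] at e <;> linarith
  have k0 := key c hc
  have k1 := key (c + D.φ z b1) (by rw [h.coset_z h.m1, hc])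
  have k2 := key (c + D.φ z b2) (by rw [h.coset_z h.m2, hc])
  have k3 := key (c + (D.φ z b1 + D.φ z b2)) (by rw [h.coset_z h.m3, hc])
  rw [show c + D.φ z b1 + D.φ z b1 = c from du_cancel _ _,
    show c + D.φ z b1 + D.φ z b2 = c + (D.φ z b1 + D.φ z b2) from add_assoc _ _ _,
    show c + D.φ z b1 + (D.φ z b1 + D.φ z b2) = c + D.φ z b2 by
      rw [show c + D.φ z b1 + (D.φ z b1 + D.φ z b2) = c + D.φ z b2 + (D.φ z b1 + D.φ z b1) by abel,
        du_self, add_zero]] at k1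
  rw [show c + D.φ z b2 + D.φ z b2 = c from du_cancel _ _,
    show c + D.φ z b2 + D.φ z b1 = c + (D.φ z b1 + D.φ z b2) by abel,
    show c + D.φ z b2 + (D.φ z b1 + D.φ z b2) = c + D.φ z b1 by
      rw [show c + D.φ z b2 + (D.φ z b1 + D.φ z b2) = c + D.φ z b1 + (D.φ z b2 + D.φ z b2) by abel,
        du_self, add_zero]] at k2
  rw [show c + (D.φ z b1 + D.φ z b2) + (D.φ z b1 + D.φ z b2) = c from du_cancel _ _,
    show c + (D.φ z b1 + D.φ z b2) + D.φ z b1 = c + D.φ z b2 by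
      rw [show c + (D.φ z b1 + D.φ z b2) + D.φ z b1 = c + D.φ z b2 + (D.φ z b1 + D.φ z b1) by abel,
        du_self, add_zero],
    show c + (D.φ z b1 + D.φ z b2) + D.φ z b2 = c + D.φ z b1 by
      rw [show c + (D.φ z b1 + D.φ z b2) + D.φ z b2 = c + D.φ z b1 + (D.φ z b2 + D.φ z b2) by abel,
        du_self, add_zero]] at k3
  refine ⟨by linarith, by linarith, by linarith⟩

lemma const (h : D.Hz z b1 b2) {c l : Du V} (hcR : c ∉ D.R z) (hl : l ∈ D.R z) :
    D.t (c + l) = D.t c := by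
  have key : D.t (c + D.φ z b1) = D.t c ∧ D.t (c + D.φ z b2) = D.t c ∧
      D.t (c + (D.φ z b1 + D.φ z b2)) = D.t c := by
    rcases z2_cases (c z) with hc | hc
    · exact h.even_const hcR hc
    · exact h.odd_const hc
  rw [h.R_eq] at hl
  simp only [Finset.mem_insert, Finset.mem_singleton] at hl
  rcases hl with rfl | rfl | rfl | rfl
  · rw [add_zero]
  · exact key.1
  · exact key.2.1
  · exact key.2.2

end Hz

end Dat

end Pool.Agent.N16.Gor
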