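import Pool.Agent.N16.Gor.Base

set_option autoImplicit false

/-! # Cubic functionals: the sign function and the expansions -/

namespace Pool.Agent.N16.Gor

open Finset

/-- a cubic functional detecting twofold and threefold symbols -/
structure Dat (V : Type) [AddCommGroup V] where
  two : ∀ a : V, a + a = 0
  φ : V →+ V →+ Du V
  F : V → ZMod 2
  der : ∀ a b x, F x + F (x + a) + F (x + b) + F (x + a + b) =
    F 0 + F a + F b + F (a + b) + φ a b x
  beta0 : ∀ a b, φ a b = 0 → F 0 + F a + F b + F (a + b) = 0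
  link : ∀ a b c d, φ a b = φ c d → ∃ x, φ a x = φ a b ∧ φ c x = φ a b
  gor : ∀ a b y, φ a b y = 0 → ∃ d e, φ d e = φ a b ∧ φ d y = 0
  nondeg : ∀ a, (∀ b, φ a b = 0) → a = 0

namespace Dat

variable {V : Type} [AddCommGroup V] (D : Dat V)

lemma z2lin {a b c d e : ZMod 2} (h : a = b + c + d + e) : e = a + b + c + d := by
  subst h; revert b c d e; decide

lemma phi_eq (a b x : V) : D.φ a b x = D.F x + D.F (x + a) + D.F (x + b) + D.F (x + a + b)
    + (D.F 0 + D.F a + D.F b + D.F (a + b)) := by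
  rw [D.der a b x]
  generalize D.F 0 + D.F a + D.F b + D.F (a + b) = u
  generalize D.φ a b x = v
  revert u v; decide

lemma symm (a b : V) : D.φ a b = D.φ b a := by
  ext x
  rw [phi_eq, phi_eq]
  rw [show x + b + a = x + a + b by abel, show b + a = a + b by abel]
  ring

lemma symm' (a b x : V) : D.φ a b x = D.φ a x b := by
  rw [phi_eq, phi_eq]
  rw [show x + a = a + x by abel, show b + a = a + b by abel, show b + x = x + b by abel,
    show a + b + x = a + x + b by abel]
  ring

lemma alt (a : V) : D.φ a a = 0 := by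
  ext x
  rw [phi_eq, add_assoc x a a, D.two, add_zero]
  simp only [AddMonoidHom.zero_apply]
  generalize D.F x = u
  generalize D.F (x + a) = v
  generalize D.F 0 = w
  generalize D.F a = t
  revert u v w t; decide

lemma alt2 (a b : V) : D.φ a b b = 0 := by
  rw [symm, symm', alt]; rfl

lemma alt3 (a b : V) : D.φ a b a = 0 := by
  rw [symm', alt]; rfl

/-- the second difference at `0` -/
def be (a b : V) : ZMod 2 := D.F 0 + D.F a + D.F b + D.F (a + b)

lemma be_symm (a b : V) : D.be a b = D.be b a := by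
  unfold be; rw [add_comm a b]; ring

lemma be_add (a b c : V) : D.be a (b + c) = D.be a b + D.be a c + D.φ a b c := by
  rw [symm', phi_eq]
  unfold be
  rw [show b + a = a + b by abel, show a + (b + c) = a + b + c by abel]
  generalize D.F 0 = x1
  generalize D.F a = x2
  generalize D.F b = x3
  generalize D.F c = x4
  generalize D.F (a + b) = x5
  generalize D.F (a + c) = x6
  generalize D.F (b + c) = x7
  generalize D.F (a + b + c) = x8
  revert x1 x2 x3 x4 x5 x6 x7 x8; decide

lemma be_eq {a b c d : V} (h : D.φ a b = D.φ c d) : D.be a b = D.be c d := by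
  obtain ⟨x, h1, h2⟩ := D.link a b c d h
  have key : ∀ a b x : V, D.φ a x = D.φ a b → D.be a b = D.be a x := by
    intro a b x h1
    have h3 : D.φ a (b + x) = 0 := by rw [map_add, h1, du_self]
    have h4 : D.be a (b + x) = 0 := D.beta0 _ _ h3
    rw [be_add, ← h1, alt2, add_zero] at h4
    generalize D.be a b = u at *
    generalize D.be a x = v at *
    revert h4; clear h1 h3; revert u v; decide
  rw [key a b x h1, key c d x (by rw [h2, h])]
  have h3 : D.φ (a + c) x = 0 := by
    rw [map_add, AddMonoidHom.add_apply, h1, h2, du_self]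
  have h4 : D.be (a + c) x = 0 := D.beta0 _ _ h3
  rw [be_symm, be_add] at h4
  have h5 : D.φ x a c = 0 := by
    rw [D.symm x a, h1, ← h2, alt3]
  rw [h5, add_zero, D.be_symm x a, D.be_symm x c] at h4
  generalize D.be a x = u at *
  generalize D.be c x = v at *
  revert h4; clear h1 h2 h3 h5; revert u v; decide

/-- the sign function -/
noncomputable def S (x : V) : ℝ := sg (D.F x)

lemma S_sq (x : V) : D.S x * D.S x = 1 := sg_sq _

lemma S4 (a h x : V) : D.S x * D.S (x + a) * (D.S (x + h) * D.S (x + a + h)) =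
    sg (D.be a h) * sg (D.φ a h x) := by
  unfold S be
  rw [← sg_add, ← sg_add, ← sg_add, ← sg_add, ← D.der a h x]
  congr 1; ring

variable [Fintype V]

noncomputable instance : DecidableEq V := Classical.decEq _

/-- the order of the group, as a real number -/
noncomputable def N (_ : Dat V) : ℝ := (Fintype.card V : ℝ)

lemma N_pos : 0 < D.N := by
  unfold N
  have : 0 < Fintype.card V := Fintype.card_pos
  exact_mod_cast this

/-- the autocorrelation -/
noncomputable def I (a : V) : ℝ := ∑ x : V, D.S x * D.S (x + a)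

lemma S_mul_I (a x : V) : D.S x * D.S (x + a) * D.I a =
    ∑ h : V, sg (D.be a h) * sg (D.φ a h x) := by
  have e : D.I a = ∑ h : V, D.S (x + h) * D.S (x + a + h) := by
    unfold I
    refine (Fintype.sum_equiv (Equiv.addLeft x) _ _ (fun h => ?_)).symm
    simp only [Equiv.coe_addLeft]
    rw [show x + h + a = x + a + h by abel]
  rw [e, Finset.mul_sum]
  refine Finset.sum_congr rfl fun h _ => ?_
  rw [S4]

/-- the centraliser of `a` -/
noncomputable def Cz (a : V) : Finset V := univ.filter fun h => D.φ a h = 0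

lemma mem_Cz {a h : V} : h ∈ D.Cz a ↔ D.φ a h = 0 := by simp [Cz]

lemma I_sq (a : V) : D.I a * D.I a = D.N * (D.Cz a).card := by
  have e : D.I a * D.I a = ∑ x : V, D.S x * D.S (x + a) * D.I a := by
    rw [← Finset.sum_mul]; rfl
  rw [e]
  simp only [S_mul_I]
  rw [Finset.sum_comm]
  have e2 : ∀ h : V, ∑ x : V, sg (D.be a h) * sg (D.φ a h x) =
      if D.φ a h = 0 then D.N else 0 := by
    intro h
    rw [← Finset.mul_sum, sum_sg]
    split_ifs with h0
    · have : D.be a h = 0 := D.beta0 _ _ h0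
      rw [this]; simp [N]
    · simp
  rw [Finset.sum_congr rfl fun h _ => e2 h, ← Finset.sum_filter, Finset.sum_const, nsmul_eq_mul,
    mul_comm]
  rfl

lemma Cz_pos (a : V) : 0 < (D.Cz a).card :=
  Finset.card_pos.2 ⟨0, by rw [mem_Cz, map_zero]⟩

lemma I_ne (a : V) : D.I a ≠ 0 := by
  intro h
  have := D.I_sq a
  rw [h, mul_zero] at this
  have h1 := D.N_pos
  have h2 : (0 : ℝ) < (D.Cz a).card := by exact_mod_cast D.Cz_pos a
  have := mul_pos h1 h2
  linarith

/-- the image of `φ a` -/
noncomputable def R (a : V) : Finset (Du V) := univ.image fun h => D.φ a h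

lemma mem_R {a : V} {l : Du V} : l ∈ D.R a ↔ ∃ h, D.φ a h = l := by simp [R]

lemma zero_mem (a : V) : (0 : Du V) ∈ D.R a := D.mem_R.2 ⟨0, map_zero _⟩

lemma add_mem {a : V} {l m : Du V} (hl : l ∈ D.R a) (hm : m ∈ D.R a) : l + m ∈ D.R a := by
  obtain ⟨h, rfl⟩ := D.mem_R.1 hl
  obtain ⟨k, rfl⟩ := D.mem_R.1 hm
  exact D.mem_R.2 ⟨h + k, map_add _ _ _⟩

lemma R_self {a : V} {l : Du V} (hl : l ∈ D.R a) : l a = 0 := by
  obtain ⟨h, rfl⟩ := D.mem_R.1 hl
  exact D.alt3 _ _

lemma fib (a : V) (g : Du V → ℝ) :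
    ∑ h : V, g (D.φ a h) = (D.Cz a).card * ∑ l ∈ D.R a, g l := by
  rw [← Finset.sum_fiberwise_of_maps_to (s := univ) (t := D.R a) (g := fun h => D.φ a h)
    (fun h _ => D.mem_R.2 ⟨h, rfl⟩), Finset.mul_sum]
  refine Finset.sum_congr rfl fun l hl => ?_
  obtain ⟨h0, rfl⟩ := D.mem_R.1 hl
  have e1 : ∑ i ∈ univ.filter (fun h => D.φ a h = D.φ a h0), g (D.φ a i) =
      ∑ i ∈ univ.filter (fun h => D.φ a h = D.φ a h0), g (D.φ a h0) :=
    Finset.sum_congr rfl fun i hi => by rw [(Finset.mem_filter.1 hi).2]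
  rw [e1, Finset.sum_const, nsmul_eq_mul]
  congr 2
  refine Finset.card_bij (fun h _ => h + h0) ?_ ?_ ?_
  · intro h hh
    rw [mem_Cz, map_add, (Finset.mem_filter.1 hh).2, du_self]
  · intro h _ k _ e
    exact add_right_cancel e
  · intro k hk
    refine ⟨k + h0, ?_, ?_⟩
    · rw [Finset.mem_filter]
      exact ⟨mem_univ _, by rw [map_add, D.mem_Cz.1 hk, zero_add]⟩
    · rw [add_assoc, D.two, add_zero]

lemma card_mul (a : V) : ((D.Cz a).card : ℝ) * (D.R a).card = D.N := by
  have := D.fib a (fun _ => 1)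
  simp at this
  rw [N, this]

open Classical in
/-- the coherent sign of a symbol -/
noncomputable def eps (l : Du V) : ℝ :=
  if h : ∃ p : V × V, D.φ p.1 p.2 = l then sg (D.be h.choose.1 h.choose.2) else 1

lemma eps_phi (a b : V) : D.eps (D.φ a b) = sg (D.be a b) := by
  have h : ∃ p : V × V, D.φ p.1 p.2 = D.φ a b := ⟨(a, b), rfl⟩
  unfold eps
  rw [dif_pos h, D.be_eq h.choose_spec]

lemma eps_sq (l : Du V) : D.eps l * D.eps l = 1 := by
  unfold eps
  split_ifs
  · exact sg_sq _
  · norm_num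

lemma eps_zero : D.eps 0 = 1 := by
  have := D.eps_phi 0 0
  rw [map_zero] at this
  rw [this]
  unfold be
  rw [add_zero]
  generalize D.F 0 = u
  revert u
  intro u
  rcases z2_cases u with rfl | rfl
  · simp
  · rw [show (1 + 1 + 1 + 1 : ZMod 2) = 0 by decide]; simp

/-- the cocycle relation -/
lemma coc {a w y : V} : D.eps (D.φ a w) * D.eps (D.φ a y) * D.eps (D.φ a w + D.φ a y) =
    sg (D.φ a w y) := by
  rw [← map_add, eps_phi, eps_phi, eps_phi, be_add, sg_add, sg_add]
  have h1 := sg_sq (D.be a w)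
  have h2 := sg_sq (D.be a y)
  calc sg (D.be a w) * sg (D.be a y) * (sg (D.be a w) * sg (D.be a y) * sg (D.φ a w y))
      = (sg (D.be a w) * sg (D.be a w)) * (sg (D.be a y) * sg (D.be a y)) * sg (D.φ a w y) := by
        ring
    _ = _ := by rw [h1, h2]; ring

lemma expand (a x : V) : D.S x * D.S (x + a) =
    D.I a / D.N * ∑ l ∈ D.R a, D.eps l * sg (l x) := by
  have h1 := D.S_mul_I a x
  have h2 : ∑ h : V, sg (D.be a h) * sg (D.φ a h x) =
      ∑ h : V, (fun l : Du V => D.eps l * sg (l x)) (D.φ a h) :=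
    Finset.sum_congr rfl fun h _ => by simp only [eps_phi]
  rw [h2, D.fib a (fun l => D.eps l * sg (l x))] at h1
  have h3 := D.I_sq a
  have h4 := D.I_ne a
  have h5 := D.N_pos
  have h6 : ((D.Cz a).card : ℝ) = D.I a * D.I a / D.N := by
    field_simp; linarith
  rw [h6] at h1
  have h7 : D.S x * D.S (x + a) * D.I a =
      (D.I a / D.N * ∑ l ∈ D.R a, D.eps l * sg (l x)) * D.I a := by
    rw [h1]; ring
  exact mul_right_cancel₀ h4 h7

end Dat

end Pool.Agent.N16.Gor
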