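import Pool.Agent.H315R3.ETC.Defs

set_option autoImplicit false

/-! # Socle functionals of degree three on quaternionic structures -/

namespace Pool.Agent.N16.Gor

open Pool.Agent.H315R3.ETC

/-- the third difference of `F` -/
def Tri {S : QData} (F : S.G → ZMod 2) (a b c : S.G) : ZMod 2 :=
  F 1 + F a + F b + F c + F (a * b) + F (a * c) + F (b * c) + F (a * b * c)

/-- `F(x) = s(⟨x⟩)` for an additive map `s` from the Witt ring to `Z/2` which kills the fourth power
of the fundamental ideal and detects the twofold and threefold Pfister forms -/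
structure Socle (S : QData) (F : S.G → ZMod 2) : Prop where
  /-- `s` is well defined on the Witt ring: if `⟨a,b⟩ = ⟨c,d⟩` then `s⟨xa,xb⟩ = s⟨xc,xd⟩` -/
  witt : ∀ a b c d x : S.G, a * b = c * d → S.q a b = S.q c d →
    F (x * a) + F (x * b) = F (x * c) + F (x * d)
  /-- `s` vanishes on `⟨⟨a,b,c,d⟩⟩` -/
  cubic : ∀ a b c d : S.G, Tri F a b (c * d) = Tri F a b c + Tri F a b d
  /-- `q(a,b)` is determined by the values `s⟨⟨a,b,x⟩⟩` -/
  two : ∀ a b c d : S.G, (∀ x, Tri F a b x = Tri F c d x) → S.q a b = S.q c d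
  /-- if `s⟨⟨a,b,c⟩⟩ = 0` then `q(a,b) = q(d,e)` with `q(d,c) = 0` -/
  three : ∀ a b c : S.G, Tri F a b c = 0 → ∃ d e : S.G, S.q d e = S.q a b ∧ S.q d c = S.zero

end Pool.Agent.N16.Gor
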