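import Pool.Agent.N16.Gor.Trans

set_option autoImplicit false

/-! # Elementary type from a value group of index four -/

namespace Pool.Agent.N16.Gor

open Pool.Agent.H315R3.ETC Pool.Agent.TH673.VG

section
variable {S : QData} {F : S.G → ZMod 2} (hF : Socle S F) (h : IsQuat S)
  (hnd : ∀ a : S.G, (∀ b : S.G, S.q a b = S.zero) → a = 1)

lemma card_cz [Finite S.G] [Fintype (Additive S.G)] (z : S.G) :
    ((dat hF h hnd).Cz (Additive.ofMul z)).card = {b : S.G | S.q z b = S.zero}.ncard := by
  rw [← Set.ncard_coe_finset]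
  refine Set.ncard_congr (fun x _ => x.toMul) ?_ ?_ ?_
  · intro x hx
    have := ((dat hF h hnd).mem_Cz).1 (Finset.mem_coe.1 hx)
    exact (phi_zero_iff hF h _ _).1 this
  · intro x y _ _ e
    exact e
  · intro y hy
    refine ⟨Additive.ofMul y, Finset.mem_coe.2 (((dat hF h hnd).mem_Cz).2 ?_), rfl⟩
    exact (phi_zero_iff hF h _ _).2 hy

lemma card_rel [Finite S.G] [Fintype (Additive S.G)] (z : S.G) :
    {b : S.G | S.q z b = S.zero}.ncard * ((dat hF h hnd).R (Additive.ofMul z)).card =
      Nat.card S.G := by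
  rw [← card_cz hF h hnd]
  have h1 := (dat hF h hnd).card_mul (Additive.ofMul z)
  unfold Dat.N at h1
  have h2 : Nat.card S.G = Fintype.card (Additive S.G) := by
    rw [← Nat.card_eq_fintype_card]
    rfl
  rw [h2]
  exact_mod_cast h1

include hF h hnd in
/-- one value group of index four suffices -/
theorem elem_of_four [Finite S.G] (hz : ∃ z : S.G, z ≠ 1 ∧
    Nat.card S.G ≤ 4 * {b : S.G | S.q z b = S.zero}.ncard) : Elem S := by
  classical
  have _ : Fintype (Additive S.G) := Fintype.ofFinite _
  obtain ⟨z, hz1, hz4⟩ := hz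
  set E := dat hF h hnd with hE
  have hz0 : (Additive.ofMul z) ≠ 0 := fun e => hz1 e
  have hR : (E.R (Additive.ofMul z)).card = 4 := by
    have h1 := card_rel hF h hnd z
    rw [← hE] at h1
    have h2 := E.M_sq (Additive.ofMul z)
    have h3 := E.M_even hz0
    have h4 : 0 < E.M (Additive.ofMul z) := by exact_mod_cast E.M_pos _
    have h5 : 2 ≤ E.M (Additive.ofMul z) := Nat.le_of_dvd h4 h3
    have h6 : 4 ≤ (E.R (Additive.ofMul z)).card := by
      rw [← h2]
      exact Nat.mul_le_mul h5 h5
    have h7 : 0 < Nat.card S.G := Nat.card_pos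
    have h8 : 0 < {b : S.G | S.q z b = S.zero}.ncard := by
      rcases Nat.eq_zero_or_pos {b : S.G | S.q z b = S.zero}.ncard with e | e
      · rw [e] at hz4; omega
      · exact e
    rw [← h1, mul_comm 4] at hz4
    have := Nat.le_of_mul_le_mul_left hz4 h8
    omega
  obtain ⟨f, hf0, hf⟩ := E.main hR
  obtain ⟨y0, hy0⟩ := Dat.exists_one hf0
  let W : Subgroup S.G :=
    { carrier := {x | f (Additive.ofMul x) = 0}
      one_mem' := map_zero f
      mul_mem' := by
        intro a b ha hb
        show f (Additive.ofMul a + Additive.ofMul b) = 0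
        rw [map_add, show f (Additive.ofMul a) = 0 from ha, show f (Additive.ofMul b) = 0 from hb,
          add_zero]
      inv_mem' := by
        intro a ha
        show f (- Additive.ofMul a) = 0
        rw [map_neg, show f (Additive.ofMul a) = 0 from ha, neg_zero] }
  have hW : W.index = 2 := by
    rw [Subgroup.index_eq_two_iff]
    refine ⟨y0.toMul, fun b => ?_⟩
    have e1 : f (Additive.ofMul (b * y0.toMul)) = f (Additive.ofMul b) + 1 := by
      rw [← hy0]
      exact map_add f (Additive.ofMul b) y0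
    show Xor (f (Additive.ofMul (b * y0.toMul)) = 0) (f (Additive.ofMul b) = 0)
    rw [e1]
    rcases z2_cases (f (Additive.ofMul b)) with e | e <;> rw [e] <;> decide
  refine Pool.Agent.R19.QS.elem_of_sub h W (by omega) fun b hbW hbC => ?_
  have hb1 : b ≠ 1 := fun e => hbC (e ▸ Subgroup.one_mem _)
  have hb0 : Additive.ofMul b ≠ 0 := fun e => hb1 e
  obtain ⟨hM, hfR⟩ := hf (Additive.ofMul b) hb0 hbW
  obtain ⟨d, hd⟩ := E.mem_R.1 hfR
  have hle : D h b ≤ W := by
    intro x hx
    show f (Additive.ofMul x) = 0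
    have h1 : E.φ (Additive.ofMul b) (Additive.ofMul x) = 0 := (phi_zero_iff hF h _ _).2 hx
    rw [← hd, E.symm', h1]
    rfl
  rw [inf_eq_left.2 hle]
  have h1 := card_rel hF h hnd b
  rw [← hE, ← E.M_sq, hM] at h1
  have h2 : Nat.card (D h b) = {x : S.G | S.q b x = S.zero}.ncard := rfl
  have h3 := (D h b).card_mul_index
  rw [h2, ← h1] at h3
  have h4 : 0 < {x : S.G | S.q b x = S.zero}.ncard := by
    rw [← h2]; exact Nat.card_pos
  have := Nat.eq_of_mul_eq_mul_left h4 h3
  omega

end

end Pool.Agent.N16.Gor
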