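import Pool.Agent.N16.Gor.Dat

set_option autoImplicit false

/-! # Fourier coefficients of the normalised functional -/

namespace Pool.Agent.N16.Gor

open Finset

namespace Dat

variable {V : Type} [AddCommGroup V] (D : Dat V) [Fintype V]

lemma four (a : V) (l : Du V) :
    ∑ x : V, D.S x * D.S (x + a) * sg (l x) = if l ∈ D.R a then D.I a * D.eps l else 0 := by
  have hN := D.N_pos
  have e : ∀ x : V, D.S x * D.S (x + a) * sg (l x) =
      ∑ m ∈ D.R a, D.I a / D.N * D.eps m * sg ((m + l) x) := by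
    intro x
    rw [D.expand, Finset.mul_sum, Finset.sum_mul]
    refine Finset.sum_congr rfl fun m _ => ?_
    rw [AddMonoidHom.add_apply, sg_add]; ring
  rw [Finset.sum_congr rfl fun x _ => e x, Finset.sum_comm]
  have e2 : ∀ m ∈ D.R a, ∑ x : V, D.I a / D.N * D.eps m * sg ((m + l) x) =
      if m = l then D.I a * D.eps m else 0 := by
    intro m _
    rw [← Finset.mul_sum, sum_sg]
    by_cases h : m = l
    · rw [if_pos h, if_pos (by rw [h, du_self])]
      change D.I a / D.N * D.eps m * D.N = _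
      field_simp
    · rw [if_neg h, if_neg (fun h' => h (du_eq h')), mul_zero]
  rw [Finset.sum_congr rfl e2, Finset.sum_ite_eq']

lemma mult (a b : V) : D.N * D.I (a + b) = D.I a * D.I b * (D.R a ∩ D.R b).card := by
  have hN := D.N_pos
  have e : ∀ x : V, D.S x * D.S (x + (a + b)) =
      ∑ m ∈ D.R b, D.I b / D.N * D.eps m * sg (m a) * (D.S x * D.S (x + a) * sg (m x)) := by
    intro x
    have h1 : D.S x * D.S (x + (a + b)) =
        (D.S x * D.S (x + a)) * (D.S (x + a) * D.S (x + a + b)) := by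
      rw [show x + (a + b) = x + a + b by abel]
      have := D.S_sq (x + a)
      calc D.S x * D.S (x + a + b) = (D.S (x + a) * D.S (x + a)) * (D.S x * D.S (x + a + b)) := by
            rw [this, one_mul]
        _ = _ := by ring
    rw [h1, D.expand b (x + a), Finset.mul_sum, Finset.mul_sum]
    refine Finset.sum_congr rfl fun m _ => ?_
    rw [map_add, sg_add]; ring
  have h2 : D.I (a + b) = ∑ m ∈ D.R b, D.I b / D.N * D.eps m * sg (m a) *
      (if m ∈ D.R a then D.I a * D.eps m else 0) := by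
    unfold I
    rw [Finset.sum_congr rfl fun x _ => e x, Finset.sum_comm]
    refine Finset.sum_congr rfl fun m _ => ?_
    rw [← Finset.mul_sum, four]; rfl
  have h3 : ∀ m ∈ D.R b, D.I b / D.N * D.eps m * sg (m a) *
      (if m ∈ D.R a then D.I a * D.eps m else 0) =
      if m ∈ D.R a then D.I a * D.I b / D.N else 0 := by
    intro m _
    split_ifs with h
    · rw [D.R_self h, sg_zero]
      have := D.eps_sq m
      calc D.I b / D.N * D.eps m * 1 * (D.I a * D.eps m)
          = D.I a * D.I b / D.N * (D.eps m * D.eps m) := by ring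
        _ = _ := by rw [this, mul_one]
    · rw [mul_zero]
  rw [h2, Finset.sum_congr rfl h3, ← Finset.sum_filter, Finset.sum_const, nsmul_eq_mul]
  have h4 : (D.R b).filter (fun m => m ∈ D.R a) = D.R a ∩ D.R b := by
    ext m; simp [and_comm]
  rw [h4]
  field_simp

include D in
lemma card_pow : ∃ n : ℕ, Fintype.card V = 2 ^ n := by
  let _ : Module (ZMod 2) V := AddCommGroup.zmodModule (n := 2) (fun x => by
    rw [two_nsmul]; exact D.two x)
  refine ⟨Module.finrank (ZMod 2) V, ?_⟩
  have := Module.card_eq_pow_finrank (K := ZMod 2) (V := V)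
  rwa [ZMod.card] at this

/-- the integer autocorrelation -/
lemma I_int (a : V) : ∃ k : ℤ, D.I a = k := by
  refine ⟨∑ x : V, (if D.F x + D.F (x + a) = 0 then 1 else -1 : ℤ), ?_⟩
  unfold I S
  push_cast
  refine Finset.sum_congr rfl fun x _ => ?_
  rw [← sg_add]
  unfold sg
  split_ifs <;> simp

lemma exists_M (a : V) : ∃ M : ℕ, |D.I a| * M = D.N ∧ M * M = (D.R a).card ∧
    (a ≠ 0 → 2 ∣ M) ∧ (a = 0 → M = 1) ∧ ∃ k, M = 2 ^ k := by
  obtain ⟨k, hk⟩ := D.I_int a
  obtain ⟨n, hn⟩ := D.card_pow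
  have hN := D.N_pos
  have h1 := D.I_sq a
  have h2 := D.card_mul a
  have h3 : (k.natAbs : ℝ) * k.natAbs * (D.R a).card = D.N * D.N := by
    have : (k.natAbs : ℝ) * k.natAbs = D.I a * D.I a := by
      rw [hk]
      have : ((k.natAbs : ℤ) : ℝ) * ((k.natAbs : ℤ) : ℝ) = (k : ℝ) * k := by
        rw [← Int.cast_mul, Int.natAbs_mul_self', Int.cast_mul]
      simpa using this
    rw [this, h1, ← h2]; ring
  have h4 : k.natAbs ^ 2 * (D.R a).card = (Fintype.card V) ^ 2 := by
    have : ((k.natAbs ^ 2 * (D.R a).card : ℕ) : ℝ) = ((Fintype.card V ^ 2 : ℕ) : ℝ) := by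
      push_cast
      rw [pow_two, pow_two, h3]; rfl
    exact_mod_cast this
  have h5 : k.natAbs ∣ Fintype.card V := by
    rw [← Nat.pow_dvd_pow_iff (n := 2) (by norm_num)]
    exact ⟨_, h4.symm⟩
  obtain ⟨M, hM⟩ := h5
  have hcard : 0 < Fintype.card V := Fintype.card_pos
  have hk0 : 0 < k.natAbs := by
    rcases Nat.eq_zero_or_pos k.natAbs with h | h
    · rw [h, zero_mul] at hM; omega
    · exact h
  have hMM : M * M = (D.R a).card := by
    rw [hM, mul_pow, pow_two, pow_two] at h4
    have := Nat.eq_of_mul_eq_mul_left (Nat.mul_pos hk0 hk0) h4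
    exact this.symm
  have hMd : ∃ j, M = 2 ^ j := by
    have : M ∣ 2 ^ n := by rw [← hn, hM]; exact dvd_mul_left _ _
    obtain ⟨j, _, hj⟩ := (Nat.dvd_prime_pow Nat.prime_two).1 this
    exact ⟨j, hj⟩
  refine ⟨M, ?_, hMM, ?_, ?_, hMd⟩
  · have : |D.I a| = (k.natAbs : ℝ) := by
      rw [hk]
      rw [← Int.cast_abs, Int.abs_eq_natAbs]; simp
    rw [this]
    unfold N
    rw [hM]; push_cast; ring
  · intro ha
    obtain ⟨j, hj⟩ := hMd
    rcases Nat.eq_zero_or_pos j with h | h
    · exfalso
      apply ha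
      apply D.nondeg
      intro b
      rw [h, pow_zero] at hj
      rw [hj] at hMM
      have h6 : (D.R a).card ≤ 1 := by omega
      exact Finset.card_le_one.1 h6 _ (D.mem_R.2 ⟨b, rfl⟩) _ (D.zero_mem a)
    · rw [hj]; exact dvd_pow_self 2 (by omega)
  · intro ha
    have h6 : D.R a = {0} := by
      ext l
      rw [mem_R, Finset.mem_singleton]
      constructor
      · rintro ⟨h, rfl⟩
        rw [ha, map_zero]; rfl
      · rintro rfl
        exact ⟨0, map_zero _⟩
    rw [h6, Finset.card_singleton] at hMM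
    exact Nat.eq_one_of_mul_eq_one_right hMM

/-- the square root of the number of symbols with slot `a` -/
noncomputable def M (a : V) : ℕ := (D.exists_M a).choose

lemma I_M (a : V) : |D.I a| * D.M a = D.N := (D.exists_M a).choose_spec.1
lemma M_sq (a : V) : D.M a * D.M a = (D.R a).card := (D.exists_M a).choose_spec.2.1
lemma M_even {a : V} (ha : a ≠ 0) : 2 ∣ D.M a := (D.exists_M a).choose_spec.2.2.1 ha
lemma M_zero : D.M 0 = 1 := (D.exists_M 0).choose_spec.2.2.2.1 rfl
lemma M_pow (a : V) : ∃ k, D.M a = 2 ^ k := (D.exists_M a).choose_spec.2.2.2.2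

lemma M_pos (a : V) : 0 < (D.M a : ℝ) := by
  obtain ⟨k, hk⟩ := D.M_pow a
  rw [hk]; positivity

/-- the weight of `a` -/
noncomputable def r (a : V) : ℝ := 1 / D.M a

lemma r_pos (a : V) : 0 < D.r a := by
  have := D.M_pos a
  unfold r; positivity

lemma abs_I (a : V) : |D.I a| = D.N * D.r a := by
  have h1 := D.I_M a
  have h2 := D.M_pos a
  unfold r
  field_simp
  linarith

lemma r_add (a b : V) : D.r (a + b) = D.r a * D.r b * (D.R a ∩ D.R b).card := by
  have h := congrArg abs (D.mult a b)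
  have hN := D.N_pos
  rw [abs_mul, abs_mul, abs_mul, abs_I, abs_I, abs_I, abs_of_pos hN, Nat.abs_cast] at h
  have h2 : D.N * D.N ≠ 0 := by positivity
  have h3 : (D.N * D.N) * D.r (a + b) = (D.N * D.N) * (D.r a * D.r b * (D.R a ∩ D.R b).card) := by
    linarith
  exact mul_left_cancel₀ h2 h3

/-- the sign of the autocorrelation -/
noncomputable def eta (a : V) : ℝ := D.I a / |D.I a|

lemma eta_sq (a : V) : D.eta a * D.eta a = 1 := by
  unfold eta
  have h := D.I_ne a
  have h1 : |D.I a| ≠ 0 := abs_ne_zero.2 h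
  rw [div_mul_div_comm, abs_mul_abs_self]
  exact div_self (mul_ne_zero h h)

lemma eta_I (a : V) : D.eta a * D.I a = D.N * D.r a := by
  rw [← abs_I]
  unfold eta
  have h1 : |D.I a| ≠ 0 := abs_ne_zero.2 (D.I_ne a)
  rw [div_mul_eq_mul_div, ← abs_mul_abs_self (D.I a)]
  field_simp

lemma eta_add (a b : V) : D.eta (a + b) = D.eta a * D.eta b := by
  have h := D.mult a b
  have hN := D.N_pos
  have ha : D.I a = D.eta a * (D.N * D.r a) := by
    rw [← eta_I, ← mul_assoc, eta_sq, one_mul]
  have hb : D.I b = D.eta b * (D.N * D.r b) := by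
    rw [← eta_I, ← mul_assoc, eta_sq, one_mul]
  have hab : D.I (a + b) = D.eta (a + b) * (D.N * D.r (a + b)) := by
    rw [← eta_I, ← mul_assoc, eta_sq, one_mul]
  rw [ha, hb, hab] at h
  have h3 := D.r_add a b
  have h4 : D.eta (a + b) * (D.N * D.N * D.r (a + b)) =
      D.eta a * D.eta b * (D.N * D.N * D.r (a + b)) := by
    rw [h3] at h ⊢
    linarith
  have h5 := D.r_pos (a + b)
  exact mul_right_cancel₀ (by positivity) h4

/-- the normalised functional -/
noncomputable def T (x : V) : ℝ := D.eta x * D.S x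

lemma T_sq (x : V) : D.T x * D.T x = 1 := by
  unfold T
  have h1 := D.eta_sq x
  have h2 := D.S_sq x
  calc D.eta x * D.S x * (D.eta x * D.S x) = (D.eta x * D.eta x) * (D.S x * D.S x) := by ring
    _ = 1 := by rw [h1, h2, one_mul]

lemma T_mul (x a : V) : D.T x * D.T (x + a) = D.eta a * (D.S x * D.S (x + a)) := by
  unfold T
  rw [eta_add]
  have h1 := D.eta_sq x
  calc D.eta x * D.S x * (D.eta x * D.eta a * D.S (x + a)) =
      (D.eta x * D.eta x) * (D.eta a * (D.S x * D.S (x + a))) := by ring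
    _ = _ := by rw [h1, one_mul]

lemma T_expand (a x : V) : D.T x * D.T (x + a) =
    D.r a * ∑ l ∈ D.R a, D.eps l * sg (l x) := by
  rw [T_mul, expand, ← mul_assoc, mul_div_assoc']
  rw [eta_I]
  have hN := D.N_pos
  congr 1
  field_simp

lemma T_four (a : V) (l : Du V) :
    ∑ x : V, D.T x * D.T (x + a) * sg (l x) = if l ∈ D.R a then D.N * D.r a * D.eps l else 0 := by
  have e : ∀ x : V, D.T x * D.T (x + a) * sg (l x) =
      D.eta a * (D.S x * D.S (x + a) * sg (l x)) := by
    intro x; rw [T_mul]; ring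
  rw [Finset.sum_congr rfl fun x _ => e x, ← Finset.mul_sum, four]
  split_ifs
  · rw [← mul_assoc, eta_I]
  · rw [mul_zero]

/-- the Walsh transform -/
noncomputable def G (c : Du V) : ℝ := ∑ x : V, D.T x * sg (c x)

/-- weighted sums over the slots of `l` -/
noncomputable def X (l c : Du V) : ℝ := ∑ a : V, if l ∈ D.R a then D.r a * sg (c a) else 0

/-- the total weight -/
noncomputable def Z : ℝ := ∑ a : V, D.r a

lemma Z_pos : 0 < D.Z := Finset.sum_pos (fun a _ => D.r_pos a) ⟨0, mem_univ _⟩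

lemma GG (c c' : Du V) : D.G c * D.G c' = D.N * D.eps (c + c') * D.X (c + c') c' := by
  have e : D.G c * D.G c' = ∑ a : V, sg (c' a) * ∑ x : V, D.T x * D.T (x + a) * sg ((c + c') x) := by
    unfold G
    rw [Finset.sum_mul_sum]
    have e1 : ∀ x : V, ∑ y : V, D.T x * sg (c x) * (D.T y * sg (c' y)) =
        ∑ a : V, sg (c' a) * (D.T x * D.T (x + a) * sg ((c + c') x)) := by
      intro x
      refine (Fintype.sum_equiv (Equiv.addLeft x) _ _ (fun a => ?_)).symm
      simp only [Equiv.coe_addLeft, AddMonoidHom.add_apply, map_add, sg_add]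
      ring
    rw [Finset.sum_congr rfl fun x _ => e1 x, Finset.sum_comm]
    refine Finset.sum_congr rfl fun a _ => ?_
    rw [Finset.mul_sum]
  rw [e]
  unfold X
  rw [Finset.mul_sum]
  refine Finset.sum_congr rfl fun a _ => ?_
  rw [T_four]
  split_ifs
  · ring
  · simp

lemma X_zero_zero : D.X 0 0 = D.Z := by
  unfold X Z
  refine Finset.sum_congr rfl fun a _ => ?_
  rw [if_pos (D.zero_mem a)]; simp

lemma G0_sq : D.G 0 * D.G 0 = D.N * D.Z := by
  have := D.GG 0 0
  rw [add_zero, eps_zero, X_zero_zero, mul_one] at this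
  exact this

lemma G0_ne : D.G 0 ≠ 0 := by
  intro h
  have := D.G0_sq
  rw [h, mul_zero] at this
  have h1 := mul_pos D.N_pos D.Z_pos
  linarith

/-- the probability of being a slot of `l` -/
noncomputable def t (l : Du V) : ℝ := D.X l 0 / D.Z

lemma X_eq_t (l : Du V) : D.X l 0 = D.Z * D.t l := by
  unfold t
  have := D.Z_pos
  field_simp

lemma t_zero : D.t 0 = 1 := by
  unfold t
  rw [X_zero_zero]
  exact div_self D.Z_pos.ne'

lemma t_nonneg (l : Du V) : 0 ≤ D.t l := by
  unfold t X
  refine div_nonneg (Finset.sum_nonneg fun a _ => ?_) D.Z_pos.le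
  split_ifs
  · have := D.r_pos a
    simp only [AddMonoidHom.zero_apply, sg_zero, mul_one]; exact this.le
  · exact le_rfl

lemma G_eq (l : Du V) : D.G l = D.eps l * D.t l * D.G 0 := by
  have h := D.GG l 0
  rw [add_zero, X_eq_t] at h
  have h2 : D.G l * D.G 0 = D.eps l * D.t l * D.G 0 * D.G 0 := by
    rw [h, mul_assoc (D.eps l * D.t l), G0_sq]; ring
  exact mul_right_cancel₀ D.G0_ne h2

/-- the commutator sign of two functionals -/
noncomputable def e (c l : Du V) : ℝ := D.eps c * D.eps l * D.eps (c + l)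

lemma e_symm (c l : Du V) : D.e c l = D.e l c := by
  unfold e; rw [add_comm c l]; ring

lemma eps_pm (l : Du V) : D.eps l = 1 ∨ D.eps l = -1 := by
  have := D.eps_sq l
  exact mul_self_eq_one_iff.1 this

lemma e_pm (c l : Du V) : D.e c l = 1 ∨ D.e c l = -1 := by
  unfold e
  rcases D.eps_pm c with h1 | h1 <;> rcases D.eps_pm l with h2 | h2 <;>
    rcases D.eps_pm (c + l) with h3 | h3 <;> rw [h1, h2, h3] <;> norm_num

lemma e_zero (l : Du V) : D.e 0 l = 1 := by
  unfold e
  rw [eps_zero, zero_add, one_mul, eps_sq]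

lemma X_eq (l c : Du V) : D.X l c = D.Z * (D.e c l * D.t c * D.t (c + l)) := by
  have h := D.GG (c + l) c
  rw [show c + l + c = l by rw [add_comm c l, du_cancel]] at h
  rw [D.G_eq (c + l), D.G_eq c] at h
  have hN := D.N_pos
  have h2 := D.eps_sq l
  have h3 : D.N * D.X l c = D.N * (D.Z * (D.e c l * D.t c * D.t (c + l))) := by
    calc D.N * D.X l c = D.eps l * (D.N * D.eps l * D.X l c) := by
          rw [show D.eps l * (D.N * D.eps l * D.X l c) = (D.eps l * D.eps l) * (D.N * D.X l c) by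
            ring, h2, one_mul]
      _ = D.eps l * (D.eps (c + l) * D.t (c + l) * D.G 0 * (D.eps c * D.t c * D.G 0)) := by rw [h]
      _ = (D.G 0 * D.G 0) * (D.eps l * D.eps (c + l) * D.t (c + l) * (D.eps c * D.t c)) := by ring
      _ = _ := by rw [G0_sq]; unfold e; ring
  exact mul_left_cancel₀ hN.ne' h3

/-- the relation on cosets of `R b` -/
lemma star (b : V) (c : Du V) :
    sg (c b) * D.t c = D.r b * ∑ l ∈ D.R b, D.e c l * D.t (c + l) := by
  have h1 : sg (c b) * D.G c = ∑ x : V, D.T (x + b) * sg (c x) := by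
    unfold G
    rw [Finset.mul_sum]
    refine (Fintype.sum_equiv (Equiv.addRight b) (fun x => D.T (x + b) * sg (c x))
      (fun x => sg (c b) * (D.T x * sg (c x))) (fun x => ?_)).symm
    simp only [Equiv.coe_addRight, map_add, sg_add]
    have := sg_sq (c b)
    calc D.T (x + b) * sg (c x) = (sg (c b) * sg (c b)) * (D.T (x + b) * sg (c x)) := by
          rw [this, one_mul]
      _ = _ := by ring
  have h2 : ∀ x : V, D.T (x + b) * sg (c x) =
      D.r b * ∑ l ∈ D.R b, D.eps l * (D.T x * sg ((c + l) x)) := by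
    intro x
    have h3 : D.T (x + b) = D.T x * (D.T x * D.T (x + b)) := by
      rw [← mul_assoc, T_sq, one_mul]
    rw [h3, T_expand, Finset.mul_sum, Finset.mul_sum, Finset.mul_sum, Finset.sum_mul]
    refine Finset.sum_congr rfl fun l _ => ?_
    rw [AddMonoidHom.add_apply, sg_add]; ring
  have h4 : sg (c b) * D.G c = D.r b * ∑ l ∈ D.R b, D.eps l * D.G (c + l) := by
    rw [h1, Finset.sum_congr rfl fun x _ => h2 x, ← Finset.mul_sum, Finset.sum_comm]
    congr 1
    refine Finset.sum_congr rfl fun l _ => ?_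
    rw [← Finset.mul_sum]; rfl
  have h5 : (D.eps c * D.G 0) * (sg (c b) * D.t c) =
      (D.eps c * D.G 0) * (D.r b * ∑ l ∈ D.R b, D.e c l * D.t (c + l)) := by
    have h6 : (D.eps c * D.G 0) * (sg (c b) * D.t c) = sg (c b) * D.G c := by
      rw [D.G_eq c]; ring
    have h8 : ∑ l ∈ D.R b, D.eps l * D.G (c + l) =
        ∑ l ∈ D.R b, (D.eps c * D.G 0) * (D.e c l * D.t (c + l)) := by
      refine Finset.sum_congr rfl fun l _ => ?_
      rw [D.G_eq (c + l)]
      unfold e
      have := D.eps_sq c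
      calc D.eps l * (D.eps (c + l) * D.t (c + l) * D.G 0) =
          (D.eps c * D.eps c) * (D.eps l * (D.eps (c + l) * D.t (c + l) * D.G 0)) := by
            rw [this, one_mul]
        _ = _ := by ring
    rw [h6, h4, h8, ← Finset.mul_sum]; ring
  have h7 : D.eps c * D.G 0 ≠ 0 := by
    refine mul_ne_zero ?_ D.G0_ne
    rcases D.eps_pm c with h | h <;> rw [h] <;> norm_num
  exact mul_left_cancel₀ h7 h5

lemma sum_t (b : V) : D.r b * ∑ l ∈ D.R b, D.t l = 1 := by
  have := D.star b 0
  simp only [AddMonoidHom.zero_apply, sg_zero, one_mul, t_zero, zero_add, e_zero] at this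
  exact this.symm

end Dat

end Pool.Agent.N16.Gor
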