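import Pool.Agent.N16.Gor.SmallThm

set_option autoImplicit false

/-! # An upper bound for the order of the smallest value group -/

namespace Pool.Agent.N16.Gor

open Finset

namespace Dat

variable {V : Type} [AddCommGroup V] (D : Dat V) [Fintype V]

/-- the order of the intersection of two value groups -/
lemma inter_cz (a b : V) :
    (D.Cz a ∩ D.Cz b).card * (D.M a * D.M b * D.M (a + b)) = Fintype.card V := by
  have h1 : (D.Cz (a + b)).card = (D.R a ∩ D.R b).card * (D.Cz a ∩ D.Cz b).card := by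
    have h4 := Finset.card_eq_sum_card_fiberwise (s := D.Cz (a + b)) (t := D.R a ∩ D.R b)
      (f := fun y => D.φ a y) (fun y hy => by
        have h0 := D.mem_Cz.1 (Finset.mem_coe.1 hy)
        rw [map_add, AddMonoidHom.add_apply] at h0
        have h5 : D.φ a y = D.φ b y := du_eq h0
        exact Finset.mem_coe.2 (Finset.mem_inter.2
          ⟨D.mem_R.2 ⟨y, rfl⟩, D.mem_R.2 ⟨y, h5.symm⟩⟩))
    rw [h4, Finset.sum_const_nat (m := (D.Cz a ∩ D.Cz b).card)]
    intro l hl
    rw [Finset.mem_inter] at hl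
    obtain ⟨w, hw⟩ := D.mem_R.1 hl.1
    obtain ⟨w', hw'⟩ := D.mem_R.1 hl.2
    obtain ⟨y0, hy1, hy2⟩ := D.link a w b w' (hw.trans hw'.symm)
    rw [hw] at hy1 hy2
    refine Finset.card_bij (fun y _ => y + y0) ?_ ?_ ?_
    · intro y hy
      rw [Finset.mem_filter, mem_Cz, map_add, AddMonoidHom.add_apply] at hy
      rw [Finset.mem_inter, mem_Cz, mem_Cz, map_add, map_add, hy1, hy2, hy.2]
      have h5 : D.φ a y = D.φ b y := du_eq hy.1
      rw [← h5, hy.2, du_self]
      exact ⟨rfl, rfl⟩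
    · intro y _ y' _ e
      exact add_right_cancel e
    · intro y hy
      rw [Finset.mem_inter, mem_Cz, mem_Cz] at hy
      refine ⟨y + y0, ?_, by rw [add_assoc, D.two, add_zero]⟩
      rw [Finset.mem_filter, mem_Cz]
      have e : D.φ (a + b) (y + y0) = D.φ a (y + y0) + D.φ b (y + y0) := by
        rw [← AddMonoidHom.add_apply, ← map_add]
      constructor
      · rw [e, map_add, map_add, hy.1, hy.2, hy1, hy2, zero_add, du_self]
      · rw [map_add, hy.1, hy1, zero_add]
  have h2 := D.inter_card a b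
  have h3 := D.card_nat (a + b)
  rw [h1] at h3
  calc (D.Cz a ∩ D.Cz b).card * (D.M a * D.M b * D.M (a + b))
      = (D.Cz a ∩ D.Cz b).card * (((D.R a ∩ D.R b).card * D.M (a + b)) * D.M (a + b)) := by
        rw [h2]
    _ = _ := by rw [← h3]; ring

/-- the solutions of `φ a x = l` -/
noncomputable def Nb (l : Du V) (a : V) : Finset V := univ.filter fun x => D.φ a x = l

lemma mem_Nb {l : Du V} {a x : V} : x ∈ D.Nb l a ↔ D.φ a x = l := by simp [Nb]

lemma Nb_card {l : Du V} {a : V} (h : l ∈ D.R a) : (D.Nb l a).card = (D.Cz a).card := by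
  obtain ⟨b, rfl⟩ := D.mem_R.1 h
  refine Finset.card_bij (fun y _ => y + b) ?_ ?_ ?_
  · intro y hy
    rw [mem_Cz, map_add, D.mem_Nb.1 hy, du_self]
  · intro y _ y' _ e
    exact add_right_cancel e
  · intro y hy
    refine ⟨y + b, ?_, by rw [add_assoc, D.two, add_zero]⟩
    rw [mem_Nb, map_add, D.mem_Cz.1 hy, zero_add]

lemma r_M (a : V) : D.r a * D.M a = 1 := by
  have := D.M_pos a
  unfold r
  field_simp

lemma cz_real (a : V) : ((D.Cz a).card : ℝ) = D.N * (D.r a * D.r a) := by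
  have h1 : ((D.Cz a).card : ℝ) * (D.M a * D.M a) = D.N := by
    unfold N; exact_mod_cast D.card_nat a
  have h2 := D.r_M a
  calc ((D.Cz a).card : ℝ) = ((D.Cz a).card : ℝ) * ((D.r a * D.M a) * (D.r a * D.M a)) := by
        rw [h2]; ring
    _ = ((D.Cz a).card : ℝ) * (D.M a * D.M a) * (D.r a * D.r a) := by ring
    _ = _ := by rw [h1]

lemma inter_real (a b : V) :
    ((D.Cz a ∩ D.Cz b).card : ℝ) = D.N * (D.r a * D.r b * D.r (a + b)) := by
  have h1 : ((D.Cz a ∩ D.Cz b).card : ℝ) * (D.M a * D.M b * D.M (a + b)) = D.N := by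
    unfold N; exact_mod_cast D.inter_cz a b
  have h2 := D.r_M a
  have h3 := D.r_M b
  have h4 := D.r_M (a + b)
  calc ((D.Cz a ∩ D.Cz b).card : ℝ) = ((D.Cz a ∩ D.Cz b).card : ℝ) *
        ((D.r a * D.M a) * (D.r b * D.M b) * (D.r (a + b) * D.M (a + b))) := by
        rw [h2, h3, h4]; ring
    _ = ((D.Cz a ∩ D.Cz b).card : ℝ) * (D.M a * D.M b * D.M (a + b)) *
        (D.r a * D.r b * D.r (a + b)) := by ring
    _ = _ := by rw [h1]

/-- counting common neighbours -/
lemma common_le {l : Du V} {a a' : V} :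
    ((D.Nb l a).filter fun x => D.φ a' x = l).card ≤ (D.Cz a ∩ D.Cz a').card := by
  rcases Finset.eq_empty_or_nonempty ((D.Nb l a).filter fun x => D.φ a' x = l) with he | ⟨x0, hx0⟩
  · rw [he, Finset.card_empty]; exact Nat.zero_le _
  · rw [Finset.mem_filter, mem_Nb] at hx0
    refine Finset.card_le_card_of_injOn (fun x => x + x0) ?_ ?_
    · intro x hx
      have hx' := Finset.mem_filter.1 (Finset.mem_coe.1 hx)
      rw [mem_Nb] at hx'
      refine Finset.mem_coe.2 (Finset.mem_inter.2 ⟨?_, ?_⟩)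
      · rw [mem_Cz, map_add, hx'.1, hx0.1, du_self]
      · rw [mem_Cz, map_add, hx'.2, hx0.2, du_self]
    · intro x _ y _ e
      exact add_right_cancel e

/-- a lower bound for the weight of the slots of a symbol -/
lemma weight_lower {l : Du V} {a : V} (h : l ∈ D.R a) {u : ℝ}
    (hu : ∀ x, D.φ a x = l → u ≤ ∑ s ∈ D.Cz x, (D.M s : ℝ)) : D.r a * u ≤ D.X l 0 := by
  have hN := D.N_pos
  have hra := D.r_pos a
  have h1 : ((D.Cz a).card : ℝ) * u ≤ ∑ x ∈ D.Nb l a, ∑ a' ∈ D.Nb l x, (D.M (a + a') : ℝ) := by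
    rw [← D.Nb_card h, ← nsmul_eq_mul]
    refine Finset.card_nsmul_le_sum _ _ _ fun x hx => ?_
    have hx' := D.mem_Nb.1 hx
    refine (hu x hx').trans (le_of_eq ?_)
    refine Finset.sum_nbij' (fun s => a + s) (fun a' => a + a') ?_ ?_ ?_ ?_ ?_
    · intro s hs
      rw [mem_Nb, map_add, D.mem_Cz.1 hs, add_zero, D.symm, hx']
    · intro a' ha'
      rw [mem_Cz, map_add, D.mem_Nb.1 ha', D.symm, hx', du_self]
    · intro s _
      exact D.add_self_left a s
    · intro a' _
      exact D.add_self_left a a'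
    · intro s _
      rw [D.add_self_left]
  have h2 : ∑ x ∈ D.Nb l a, ∑ a' ∈ D.Nb l x, (D.M (a + a') : ℝ) ≤
      ∑ a' : V, D.N * D.r a * (if l ∈ D.R a' then D.r a' * sg ((0 : Du V) a') else 0) := by
    have e1 : ∀ x : V, ∑ a' ∈ D.Nb l x, (D.M (a + a') : ℝ) =
        ∑ a' : V, if D.φ a' x = l then (D.M (a + a') : ℝ) else 0 := by
      intro x
      unfold Nb
      rw [Finset.sum_filter]
      refine Finset.sum_congr rfl fun a' _ => ?_
      rw [D.symm x a']
    rw [Finset.sum_congr rfl fun x _ => e1 x, Finset.sum_comm]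
    refine Finset.sum_le_sum fun a' _ => ?_
    rw [← Finset.sum_filter, Finset.sum_const, nsmul_eq_mul]
    split_ifs with ha'
    · have h3 : (((D.Nb l a).filter fun x => D.φ a' x = l).card : ℝ) ≤
          (D.Cz a ∩ D.Cz a').card := by exact_mod_cast D.common_le (l := l) (a := a) (a' := a')
      have h4 := D.inter_real a a'
      have h5 := D.r_M (a + a')
      have h6 := D.M_pos (a + a')
      calc (((D.Nb l a).filter fun x => D.φ a' x = l).card : ℝ) * D.M (a + a')
          ≤ ((D.Cz a ∩ D.Cz a').card : ℝ) * D.M (a + a') :=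
            mul_le_mul_of_nonneg_right h3 h6.le
        _ = D.N * D.r a * (D.r a' * (D.r (a + a') * D.M (a + a'))) := by rw [h4]; ring
        _ = _ := by rw [h5, AddMonoidHom.zero_apply, sg_zero]
    · have h3 : ((D.Nb l a).filter fun x => D.φ a' x = l) = ∅ := by
        rw [Finset.filter_eq_empty_iff]
        intro x _ hx
        exact ha' (D.mem_R.2 ⟨x, hx⟩)
      rw [h3]; simp
  have h3 := h1.trans h2
  rw [← Finset.mul_sum, cz_real] at h3
  have h6 : (∑ a' : V, if l ∈ D.R a' then D.r a' * sg ((0 : Du V) a') else 0) = D.X l 0 := rfl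
  rw [h6] at h3
  have h7 : D.N * D.r a * (D.r a * u) ≤ D.N * D.r a * D.X l 0 := by
    calc D.N * D.r a * (D.r a * u) = D.N * (D.r a * D.r a) * u := by ring
      _ ≤ _ := h3
  exact le_of_mul_le_mul_left h7 (by positivity)

/-- the covering of the functionals vanishing at `x` bounds the sum over the value group -/
lemma sum_cz {x : V} (hx : x ≠ 0) {m : ℕ} (hm : ∀ s, D.M s ≤ m) :
    D.N ≤ 2 * m * ∑ s ∈ D.Cz x, (D.M s : ℝ) := by
  have h1 := D.card_perp hx
  have h2 : ((univ : Finset (Du V)).filter fun c => c x = 0) ⊆ (D.Cz x).biUnion fun s => D.R s := by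
    intro k hk
    rw [Finset.mem_filter] at hk
    rw [Finset.mem_biUnion]
    obtain ⟨d, h3, h4⟩ := D.cover hk.2
    exact ⟨d, D.mem_Cz.2 h3, h4⟩
  have h3 := (Finset.card_le_card h2).trans Finset.card_biUnion_le
  have h4 : (((univ : Finset (Du V)).filter fun c => c x = 0).card : ℝ) ≤
      ∑ s ∈ D.Cz x, (m : ℝ) * D.M s := by
    have h5 : ∑ s ∈ D.Cz x, (D.R s).card ≤ ∑ s ∈ D.Cz x, m * D.M s := by
      refine Finset.sum_le_sum fun s _ => ?_
      rw [← D.M_sq s]
      exact Nat.mul_le_mul_right _ (hm s)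
    exact_mod_cast h3.trans h5
  rw [← Finset.mul_sum] at h4
  linarith

/-- the sum of the weights of the slots -/
lemma sum_weights : ∑ l : Du V, D.X l 0 = ∑ a : V, (D.M a : ℝ) := by
  have h := D.sum_X 0 0
  unfold U at h
  simp only [map_zero, sg_zero, mul_one, if_true, AddMonoidHom.zero_apply] at h
  exact h

/-- the upper bound for the smallest value group -/
theorem upper_real {z : V} (hz : z ≠ 0) (hmax : ∀ x, D.M x ≤ D.M z) :
    (D.Cz z).card < 2 * D.M z := by
  have hMz := D.M_pos z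
  have hN := D.N_pos
  have hv : ((D.Cz z).card : ℝ) * (D.M z * D.M z) = D.N := by
    unfold N; exact_mod_cast D.card_nat z
  set v := (D.Cz z).card with hvdef
  have hv0 : (1 : ℝ) ≤ v := by exact_mod_cast D.Cz_pos z
  have hrmin : ∀ x, 1 / (D.M z : ℝ) ≤ D.r x := by
    intro x
    have h1 : (D.M x : ℝ) ≤ D.M z := by exact_mod_cast hmax x
    unfold r
    exact one_div_le_one_div_of_le (D.M_pos x) h1
  -- the lower bound for all nonzero symbols
  have hX : ∀ l : Du V, l ≠ 0 → (v : ℝ) / 2 ≤ D.X l 0 := by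
    intro l hl
    obtain ⟨a, b, hab⟩ := D.linked l
    have h1 := D.weight_lower (D.mem_R.2 ⟨b, hab⟩) (u := D.N / (2 * D.M z)) (fun x hx => by
      have hx0 : x ≠ 0 := by
        rintro rfl
        rw [map_zero] at hx
        exact hl hx.symm
      have h2 := D.sum_cz hx0 hmax
      rw [div_le_iff₀ (by positivity)]
      linarith)
    refine le_trans ?_ h1
    have h3 : (v : ℝ) / 2 = 1 / D.M z * (D.N / (2 * D.M z)) := by
      rw [← hv]; field_simp
    rw [h3]
    exact mul_le_mul_of_nonneg_right (hrmin a) (by positivity)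
  have hX0 : 1 < D.X 0 0 := by
    rw [X_zero_zero]
    unfold Z
    have h1 : D.r 0 = 1 := by
      unfold r; rw [M_zero]; norm_num
    rw [← Finset.add_sum_erase _ _ (mem_univ (0 : V)), h1]
    have h2 : D.r z ≤ ∑ x ∈ univ.erase (0 : V), D.r x :=
      Finset.single_le_sum (fun a _ => (D.r_pos a).le)
        (Finset.mem_erase.2 ⟨hz, mem_univ z⟩)
    have h3 := D.r_pos z
    linarith
  -- the upper bound for the sum
  have hN1 : 1 < D.N := by
    unfold N
    have : Nontrivial V := ⟨⟨z, 0, hz⟩⟩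
    exact_mod_cast Fintype.one_lt_card
  have hsumM : ∑ a : V, (D.M a : ℝ) ≤ 1 + (D.N - 1) * D.M z := by
    rw [← Finset.add_sum_erase _ _ (mem_univ (0 : V)), M_zero]
    have h2 : ∑ x ∈ univ.erase (0 : V), (D.M x : ℝ) ≤ ∑ x ∈ univ.erase (0 : V), (D.M z : ℝ) :=
      Finset.sum_le_sum fun x _ => by exact_mod_cast hmax x
    rw [Finset.sum_const, Finset.card_erase_of_mem (mem_univ _), Finset.card_univ,
      nsmul_eq_mul] at h2
    have h3 : 1 ≤ Fintype.card V := Fintype.card_pos
    rw [Nat.cast_sub h3] at h2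
    have h4 : ((Fintype.card V : ℝ) - (1 : ℕ)) * (D.M z : ℝ) = (D.N - 1) * D.M z := by
      unfold N; push_cast; ring
    rw [h4] at h2
    push_cast
    linarith
  have hlow : 1 + (D.N - 1) * ((v : ℝ) / 2) < ∑ l : Du V, D.X l 0 := by
    rw [← Finset.add_sum_erase _ _ (mem_univ (0 : Du V))]
    have h2 : ∑ l ∈ univ.erase (0 : Du V), ((v : ℝ) / 2) ≤
        ∑ l ∈ univ.erase (0 : Du V), D.X l 0 :=
      Finset.sum_le_sum fun l hl => hX l (Finset.ne_of_mem_erase hl)
    rw [Finset.sum_const, Finset.card_erase_of_mem (mem_univ _), Finset.card_univ,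
      nsmul_eq_mul] at h2
    have h3 : 1 ≤ Fintype.card (Du V) := Fintype.card_pos
    rw [Nat.cast_sub h3, D.card_dual] at h2
    push_cast at h2
    linarith
  rw [sum_weights] at hlow
  have h5 : (D.N - 1) * ((v : ℝ) / 2) < (D.N - 1) * D.M z := by linarith
  have h6 := lt_of_mul_lt_mul_left h5 (by linarith)
  have : (v : ℝ) < 2 * D.M z := by linarith
  exact_mod_cast this

lemma cz_pow (a : V) : ∃ k, (D.Cz a).card = 2 ^ k := by
  obtain ⟨n, hn⟩ := D.card_pow
  have h1 := D.card_nat a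
  have h2 : (D.Cz a).card ∣ 2 ^ n := by rw [← hn, ← h1]; exact dvd_mul_right _ _
  obtain ⟨k, -, hk⟩ := (Nat.dvd_prime_pow Nat.prime_two).1 h2
  exact ⟨k, hk⟩

/-- the order of the smallest value group is at most the cube root of the order of the group -/
theorem upper {z : V} (hz : z ≠ 0) (hmax : ∀ x, D.M x ≤ D.M z) : (D.Cz z).card ≤ D.M z := by
  by_contra hc
  push Not at hc
  have h1 := pow_lt (D.M_pow z) (D.cz_pow z) hc
  have h2 := D.upper_real hz hmax
  omega

lemma cube {v m n : ℕ} (h : v * (m * m) = n) (hv : v ≤ m) : v ^ 3 ≤ n := by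
  rw [← h]
  calc v ^ 3 = v * (v * v) := by ring
    _ ≤ v * (m * m) := Nat.mul_le_mul_left _ (Nat.mul_le_mul hv hv)

/-- outside the range of small value groups the group is large -/
lemma big {v m n : ℕ} (hvp : ∃ k, v = 2 ^ k) (hmp : ∃ k, m = 2 ^ k) (h : v * (m * m) = n)
    (hv : v ≤ m) (hs : 64 * n < v ^ 4) : 2 ^ 21 ≤ n := by
  have hv0 : 0 < v := by obtain ⟨k, rfl⟩ := hvp; positivity
  have h1 : 64 < v := by
    by_contra hc
    push Not at hc
    have h2 : v ^ 4 ≤ 64 * n := by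
      rw [← h]
      calc v ^ 4 = v * (v * (v * v)) := by ring
        _ ≤ 64 * (v * (m * m)) := Nat.mul_le_mul hc
            (Nat.mul_le_mul_left _ (Nat.mul_le_mul hv hv))
    omega
  have h3 : 128 ≤ v := pow_lt ⟨6, by norm_num⟩ hvp h1
  rw [← h]
  calc 2 ^ 21 = 128 * (128 * 128) := by norm_num
    _ ≤ v * (m * m) := Nat.mul_le_mul h3 (Nat.mul_le_mul (h3.trans hv) (h3.trans hv))

/-- an element of maximal rank -/
lemma exists_max {z : V} (hz : z ≠ 0) : ∃ u : V, u ≠ 0 ∧ ∀ x, D.M x ≤ D.M u := by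
  classical
  obtain ⟨u, hu, hmax⟩ := Finset.exists_max_image ((univ : Finset V).filter fun x => x ≠ 0)
    (fun x => D.M x) ⟨z, Finset.mem_filter.2 ⟨mem_univ _, hz⟩⟩
  refine ⟨u, (Finset.mem_filter.1 hu).2, fun x => ?_⟩
  by_cases hx : x = 0
  · rw [hx, M_zero]
    have := D.M_pos u
    exact_mod_cast this
  · exact hmax x (Finset.mem_filter.2 ⟨mem_univ _, hx⟩)

end Dat

end Pool.Agent.N16.Gor
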