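import Pool.Agent.N16.Gor.Coset

set_option autoImplicit false

/-! # The numerical relations and the conclusion for an element with four symbols -/

namespace Pool.Agent.N16.Gor

open Finset

lemma two_adic {a b x y : ℕ} (h : 2 ^ a * x = 2 ^ b * y) (hx : ¬ 2 ∣ x) (hy : ¬ 2 ∣ y) : a = b := by
  rcases lt_trichotomy a b with h1 | h1 | h1
  · exfalso
    obtain ⟨d, rfl⟩ := Nat.exists_eq_add_of_lt h1
    rw [show 2 ^ (a + d + 1) * y = 2 ^ a * (2 * (2 ^ d * y)) by ring] at h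
    have := Nat.eq_of_mul_eq_mul_left (by positivity) h
    exact hx ⟨_, this⟩
  · exact h1
  · exfalso
    obtain ⟨d, rfl⟩ := Nat.exists_eq_add_of_lt h1
    rw [show 2 ^ (b + d + 1) * x = 2 ^ b * (2 * (2 ^ d * x)) by ring] at h
    have := Nat.eq_of_mul_eq_mul_left (by positivity) h
    exact hy ⟨_, this.symm⟩

lemma nt_sorted {n k1 k2 k3 w1 w2 w3 : ℕ} (o2 : ¬ 2 ∣ w2) (p1 : 0 < w1) (p3 : 0 < w3)
    (h1 : 2 ^ n * (w1 + w2 + w3) = 2 ^ k1 * ((w1 + w2) * (w1 + w3)))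
    (h2 : 2 ^ n * (w1 + w2 + w3) = 2 ^ k2 * ((w2 + w1) * (w2 + w3)))
    (h3 : 2 ^ n * (w1 + w2 + w3) = 2 ^ k3 * ((w3 + w1) * (w3 + w2)))
    (l12 : k1 ≤ k2) (l23 : k2 ≤ k3) (hn : 2 * k2 + 1 ≤ n) (hk : 1 ≤ k1) : k1 = 1 := by
  have p2 : 0 < w2 := Nat.pos_of_ne_zero fun h => o2 (h ▸ dvd_zero _)
  -- `2^k2 (w1 + w2) = 2^k3 (w1 + w3)`
  have e23 : 2 ^ k2 * (w1 + w2) = 2 ^ k3 * (w1 + w3) := by
    have : (w2 + w3) * (2 ^ k2 * (w1 + w2)) = (w2 + w3) * (2 ^ k3 * (w1 + w3)) := by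
      calc (w2 + w3) * (2 ^ k2 * (w1 + w2)) = 2 ^ k2 * ((w2 + w1) * (w2 + w3)) := by ring
        _ = 2 ^ k3 * ((w3 + w1) * (w3 + w2)) := by rw [← h2, h3]
        _ = _ := by ring
    exact Nat.eq_of_mul_eq_mul_left (by omega) this
  have e12 : 2 ^ k1 * (w1 + w3) = 2 ^ k2 * (w2 + w3) := by
    have : (w1 + w2) * (2 ^ k1 * (w1 + w3)) = (w1 + w2) * (2 ^ k2 * (w2 + w3)) := by
      calc (w1 + w2) * (2 ^ k1 * (w1 + w3)) = 2 ^ k1 * ((w1 + w2) * (w1 + w3)) := by ring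
        _ = 2 ^ k2 * ((w2 + w1) * (w2 + w3)) := by rw [← h1, h2]
        _ = _ := by ring
    exact Nat.eq_of_mul_eq_mul_left (by omega) this
  have hle : w2 + w3 ≤ w1 + w3 := by
    by_contra hc
    push Not at hc
    have : 2 ^ k1 * (w1 + w3) < 2 ^ k2 * (w2 + w3) := by
      calc 2 ^ k1 * (w1 + w3) ≤ 2 ^ k2 * (w1 + w3) :=
            Nat.mul_le_mul_right _ (Nat.pow_le_pow_right (by norm_num) l12)
        _ < _ := Nat.mul_lt_mul_of_pos_left hc (by positivity)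
    omega
  have hk23 : k2 = k3 := by
    by_contra hne
    have hlt : k2 + 1 ≤ k3 := by omega
    have : 2 ^ k2 * (2 * (w1 + w3)) ≤ 2 ^ k2 * (w1 + w2) := by
      calc 2 ^ k2 * (2 * (w1 + w3)) = 2 ^ (k2 + 1) * (w1 + w3) := by ring
        _ ≤ 2 ^ k3 * (w1 + w3) := Nat.mul_le_mul_right _ (Nat.pow_le_pow_right (by norm_num) hlt)
        _ = _ := e23.symm
    have := Nat.le_of_mul_le_mul_left this (by positivity)
    omega
  subst hk23
  have hw : w3 = w2 := by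
    have := Nat.eq_of_mul_eq_mul_left (show 0 < 2 ^ k2 by positivity) e23
    omega
  subst hw
  obtain ⟨d, rfl⟩ := Nat.exists_eq_add_of_le l12
  -- `2^k1 (w1 + w) = 2^k2 * 2 w`
  have e1 : w1 + w3 = 2 ^ (d + 1) * w3 := by
    have : 2 ^ k1 * (w1 + w3) = 2 ^ k1 * (2 ^ (d + 1) * w3) := by
      rw [e12]; ring
    exact Nat.eq_of_mul_eq_mul_left (by positivity) this
  have e2 : 2 ^ n * (w1 + w3 + w3) = 2 ^ k1 * ((w1 + w3) * (w1 + w3)) := h1
  rw [e1] at e2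
  have e3 : w3 * (2 ^ n * (2 ^ (d + 1) + 1)) = w3 * (2 ^ (k1 + 2 * d + 2) * w3) := by
    calc w3 * (2 ^ n * (2 ^ (d + 1) + 1)) = 2 ^ n * (2 ^ (d + 1) * w3 + w3) := by ring
      _ = _ := by rw [e2]; ring
  have e4 := Nat.eq_of_mul_eq_mul_left p3 e3
  have e5 := two_adic e4 (by
    intro h
    have : 2 ∣ 2 ^ (d + 1) := dvd_pow_self 2 (by omega)
    omega) o2
  omega

lemma nt {n k1 k2 k3 w1 w2 w3 : ℕ} (o1 : ¬ 2 ∣ w1) (o2 : ¬ 2 ∣ w2) (o3 : ¬ 2 ∣ w3)
    (h1 : 2 ^ n * (w1 + w2 + w3) = 2 ^ k1 * ((w1 + w2) * (w1 + w3)))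
    (h2 : 2 ^ n * (w1 + w2 + w3) = 2 ^ k2 * ((w2 + w1) * (w2 + w3)))
    (h3 : 2 ^ n * (w1 + w2 + w3) = 2 ^ k3 * ((w3 + w1) * (w3 + w2)))
    (n1 : 2 * k1 + 1 ≤ n) (n2 : 2 * k2 + 1 ≤ n) (n3 : 2 * k3 + 1 ≤ n)
    (hk1 : 1 ≤ k1) (hk2 : 1 ≤ k2) (hk3 : 1 ≤ k3) : k1 = 1 ∨ k2 = 1 ∨ k3 = 1 := by
  have p1 : 0 < w1 := Nat.pos_of_ne_zero fun h => o1 (h ▸ dvd_zero _)
  have p2 : 0 < w2 := Nat.pos_of_ne_zero fun h => o2 (h ▸ dvd_zero _)
  have p3 : 0 < w3 := Nat.pos_of_ne_zero fun h => o3 (h ▸ dvd_zero _)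
  rcases le_total k1 k2 with a | a <;> rcases le_total k2 k3 with b | b <;>
    rcases le_total k1 k3 with c | c
  · exact Or.inl (nt_sorted o2 p1 p3 h1 h2 h3 a b n2 hk1)
  · exact Or.inl (nt_sorted o2 p1 p3 h1 h2 h3 a b n2 hk1)
  · -- k1 ≤ k3 ≤ k2
    refine Or.inl (nt_sorted (w1 := w1) (w2 := w3) (w3 := w2) (k2 := k3) (k3 := k2) (n := n)
      o3 p1 p2 ?_ ?_ ?_ c b n3 hk1)
    · rw [show w1 + w3 + w2 = w1 + w2 + w3 by ring, h1]; ring
    · rw [show w1 + w3 + w2 = w1 + w2 + w3 by ring, h3]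
    · rw [show w1 + w3 + w2 = w1 + w2 + w3 by ring, h2]
  · -- k3 ≤ k1 ≤ k2
    refine Or.inr (Or.inr (nt_sorted (w1 := w3) (w2 := w1) (w3 := w2) (k1 := k3) (k2 := k1)
      (k3 := k2) (n := n) o1 p3 p2 ?_ ?_ ?_ c a n1 hk3))
    · rw [show w3 + w1 + w2 = w1 + w2 + w3 by ring, h3]
    · rw [show w3 + w1 + w2 = w1 + w2 + w3 by ring, h1]; ring
    · rw [show w3 + w1 + w2 = w1 + w2 + w3 by ring, h2]; ring
  · -- k2 ≤ k1 ≤ k3
    refine Or.inr (Or.inl (nt_sorted (w1 := w2) (w2 := w1) (w3 := w3) (k1 := k2) (k2 := k1)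
      (k3 := k3) (n := n) o1 p2 p3 ?_ ?_ ?_ a c n1 hk2))
    · rw [show w2 + w1 + w3 = w1 + w2 + w3 by ring, h2]
    · rw [show w2 + w1 + w3 = w1 + w2 + w3 by ring, h1]
    · rw [show w2 + w1 + w3 = w1 + w2 + w3 by ring, h3]; ring
  · -- k2 ≤ k3 ≤ k1
    refine Or.inr (Or.inl (nt_sorted (w1 := w2) (w2 := w3) (w3 := w1) (k1 := k2) (k2 := k3)
      (k3 := k1) (n := n) o3 p2 p1 ?_ ?_ ?_ b c n3 hk2))
    · rw [show w2 + w3 + w1 = w1 + w2 + w3 by ring, h2]; ring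
    · rw [show w2 + w3 + w1 = w1 + w2 + w3 by ring, h3]; ring
    · rw [show w2 + w3 + w1 = w1 + w2 + w3 by ring, h1]
  · -- k3 ≤ k2 ≤ k1 , k1 ≤ k3
    refine Or.inr (Or.inr (nt_sorted (w1 := w3) (w2 := w2) (w3 := w1) (k1 := k3) (k2 := k2)
      (k3 := k1) (n := n) o2 p3 p1 ?_ ?_ ?_ b a n2 hk3))
    · rw [show w3 + w2 + w1 = w1 + w2 + w3 by ring, h3]; ring
    · rw [show w3 + w2 + w1 = w1 + w2 + w3 by ring, h2]; ring
    · rw [show w3 + w2 + w1 = w1 + w2 + w3 by ring, h1]; ring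
  · refine Or.inr (Or.inr (nt_sorted (w1 := w3) (w2 := w2) (w3 := w1) (k1 := k3) (k2 := k2)
      (k3 := k1) (n := n) o2 p3 p1 ?_ ?_ ?_ b a n2 hk3))
    · rw [show w3 + w2 + w1 = w1 + w2 + w3 by ring, h3]; ring
    · rw [show w3 + w2 + w1 = w1 + w2 + w3 by ring, h2]; ring
    · rw [show w3 + w2 + w1 = w1 + w2 + w3 by ring, h1]; ring

namespace Dat

variable {V : Type} [AddCommGroup V] (D : Dat V) [Fintype V]

include D in
lemma sep {x : V} (hx : x ≠ 0) : ∃ c : Du V, c x = 1 := by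
  have : ∃ b, D.φ x b ≠ 0 := by
    by_contra hc
    push Not at hc
    exact hx (D.nondeg x hc)
  obtain ⟨b, hb⟩ := this
  obtain ⟨y, hy⟩ := exists_one hb
  refine ⟨D.φ b y, ?_⟩
  rw [D.symm', D.symm, hy]

include D in
lemma dual_zero {x : V} (hx : x ≠ 0) : ∑ c : Du V, sg (c x) = 0 := by
  obtain ⟨c0, hc0⟩ := D.sep hx
  have e : ∑ c : Du V, sg (c x) = ∑ c : Du V, sg ((c + c0) x) :=
    (Fintype.sum_equiv (Equiv.addRight c0) (fun c : Du V => sg ((c + c0) x)) (fun c => sg (c x))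
      (fun c => rfl)).symm
  have e2 : ∑ c : Du V, sg ((c + c0) x) = - ∑ c : Du V, sg (c x) := by
    rw [← Finset.sum_neg_distrib]
    refine Finset.sum_congr rfl fun c _ => ?_
    rw [AddMonoidHom.add_apply, sg_add, hc0, sg_one]; ring
  linarith

lemma card_dual : (Fintype.card (Du V) : ℝ) = D.N := by
  have h1 : ∑ c : Du V, ∑ x : V, sg (c x) = D.N := by
    simp only [sum_sg]
    rw [Finset.sum_ite_eq' univ (0 : Du V)]
    simp [N]
  have h2 : ∑ c : Du V, ∑ x : V, sg (c x) = (Fintype.card (Du V) : ℝ) := by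
    rw [Finset.sum_comm, Finset.sum_eq_single (0 : V)]
    · simp
    · intro x _ hx
      exact D.dual_zero hx
    · intro h; exact absurd (mem_univ _) h
  rw [← h1, h2]

lemma r_eq (x : V) : D.N * D.r x = D.Z * ∑ c : Du V, D.t c * D.t c * sg (c x) := by
  have h1 : ∀ c : Du V, D.Z * (D.t c * D.t c * sg (c x)) = ∑ a : V, D.r a * sg (c (a + x)) := by
    intro c
    have h2 := D.X_eq 0 c
    rw [add_zero, D.e_symm, e_zero] at h2
    have h3 : D.X 0 c = ∑ a : V, D.r a * sg (c a) := by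
      unfold X
      refine Finset.sum_congr rfl fun a _ => ?_
      rw [if_pos (D.zero_mem a)]
    rw [show D.Z * (D.t c * D.t c * sg (c x)) = D.Z * (1 * D.t c * D.t c) * sg (c x) by ring,
      ← h2, h3, Finset.sum_mul]
    refine Finset.sum_congr rfl fun a _ => ?_
    rw [map_add, sg_add]; ring
  rw [Finset.mul_sum, Finset.sum_congr rfl fun c _ => h1 c, Finset.sum_comm,
    Finset.sum_eq_single x]
  · rw [D.two]
    simp
    left
    exact D.card_dual.symm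
  · intro a _ ha
    rw [← Finset.mul_sum, D.dual_zero, mul_zero]
    intro h
    apply ha
    have := congrArg (· + x) h
    simpa [add_assoc, D.two] using this
  · intro h; exact absurd (mem_univ _) h

lemma u_eq (x : V) : D.U 0 x = D.Z * ∑ c : Du V, D.t c * sg (c x) := by
  rw [← sum_X, Finset.mul_sum]
  refine Finset.sum_congr rfl fun c _ => ?_
  rw [X_eq_t]; ring

lemma card_bound {x : V} (hx : x ≠ 0) : 2 * (D.M x * D.M x) ≤ Fintype.card V := by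
  have h1 := D.card_mul x
  have h2 : ((D.Cz x).card * (D.R x).card : ℕ) = Fintype.card V := by
    unfold N at h1
    exact_mod_cast h1
  have h3 : 2 ≤ (D.Cz x).card := by
    have : 1 < (D.Cz x).card := Finset.one_lt_card.2
      ⟨0, by rw [mem_Cz, map_zero], x, by rw [mem_Cz, alt], hx.symm⟩
    omega
  rw [M_sq, ← h2]
  exact Nat.mul_le_mul_right _ h3

variable {D}

namespace Hz

variable {z b1 b2 : V}

/-- sums of functions which are constant on the cosets of `R z` -/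
lemma off (h : D.Hz z b1 b2) (g : Du V → ℝ) (hg : ∀ c l, c ∉ D.R z → l ∈ D.R z → g (c + l) = g c)
    {x : V} {l : Du V} (hl : l ∈ D.R z) (hx : l x = 1) :
    ∑ c : Du V, g c * sg (c x) = ∑ c ∈ D.R z, g c * sg (c x) := by
  rw [← Finset.sum_filter_add_sum_filter_not univ (fun c => c ∈ D.R z)]
  have h1 : univ.filter (fun c => c ∈ D.R z) = D.R z := by ext c; simp
  have h2 : ∑ c ∈ univ.filter (fun c => ¬ c ∈ D.R z), g c * sg (c x) = 0 := by
    have e1 : ∑ c ∈ univ.filter (fun c => ¬ c ∈ D.R z), g c * sg (c x) =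
        ∑ c ∈ univ.filter (fun c => ¬ c ∈ D.R z), g (c + l) * sg ((c + l) x) := by
      refine Finset.sum_nbij' (fun c => c + l) (fun c => c + l) ?_ ?_ ?_ ?_ ?_
      · intro c hc
        rw [Finset.mem_filter] at hc ⊢
        exact ⟨mem_univ _, h.coset_mem hc.2 hl⟩
      · intro c hc
        rw [Finset.mem_filter] at hc ⊢
        exact ⟨mem_univ _, h.coset_mem hc.2 hl⟩
      · intro c _; exact du_cancel _ _
      · intro c _; exact du_cancel _ _
      · intro c _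
        show g c * sg (c x) = g (c + l + l) * sg ((c + l + l) x)
        rw [du_cancel]
    have e2 : ∑ c ∈ univ.filter (fun c => ¬ c ∈ D.R z), g (c + l) * sg ((c + l) x) =
        - ∑ c ∈ univ.filter (fun c => ¬ c ∈ D.R z), g c * sg (c x) := by
      rw [← Finset.sum_neg_distrib]
      refine Finset.sum_congr rfl fun c hc => ?_
      rw [hg c l (Finset.mem_filter.1 hc).2 hl, AddMonoidHom.add_apply, sg_add, hx, sg_one]; ring
    linarith
  rw [h1, h2, add_zero]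

lemma u_val (h : D.Hz z b1 b2) {x : V} (h1 : D.φ z b1 x = 0) (h2 : D.φ z b2 x = 1) :
    D.U 0 x = 2 * D.Z * D.t (D.φ z b1) := by
  rw [D.u_eq, h.off (fun c => D.t c) (fun c l hc hl => h.const hc hl) h.m2 h2, h.sumR,
    AddMonoidHom.add_apply, h1, h2, D.t_zero]
  have := h.sum_one
  simp
  linear_combination (-D.Z) * this

lemma r_val (h : D.Hz z b1 b2) {x : V} (h1 : D.φ z b1 x = 0) (h2 : D.φ z b2 x = 1) :
    D.N * D.r x = 2 * D.Z * ((D.t (D.φ z b1) + D.t (D.φ z b2)) *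
      (D.t (D.φ z b1) + D.t (D.φ z b1 + D.φ z b2))) := by
  rw [D.r_eq, h.off (fun c => D.t c * D.t c) (fun c l hc hl => by
    show D.t (c + l) * D.t (c + l) = D.t c * D.t c
    rw [h.const hc hl]) h.m2 h2, h.sumR,
    AddMonoidHom.add_apply, h1, h2, D.t_zero]
  have := h.sum_one
  simp
  set p := D.t (D.φ z b1)
  set q := D.t (D.φ z b2)
  set s := D.t (D.φ z b1 + D.φ z b2)
  linear_combination (-D.Z * (1 + p + q + s)) * this

lemma exists_w (h : D.Hz z b1 b2) : ∃ w : ℕ, (w : ℝ) = 2 * D.Z * D.t (D.φ z b1) ∧ ¬ 2 ∣ w := by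
  obtain ⟨k, hk, hk2⟩ := D.U_odd 0 b1
  rw [h.u_val h.T11 h.T21] at hk
  have hpos : 0 < k := by
    have : (0 : ℝ) < k := by
      rw [← hk]
      have := D.Z_pos
      have := D.t_pos (D.φ z b1)
      positivity
    exact_mod_cast this
  refine ⟨k.toNat, ?_, ?_⟩
  · rw [hk]
    have : ((k.toNat : ℤ) : ℝ) = (k : ℝ) := by rw [Int.toNat_of_nonneg hpos.le]
    exact_mod_cast this
  · intro hd
    apply hk2
    have : (2 : ℤ) ∣ (k.toNat : ℤ) := by exact_mod_cast hd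
    rwa [Int.toNat_of_nonneg hpos.le] at this

lemma rel (h : D.Hz z b1 b2) {x : V} (h1 : D.φ z b1 x = 0) (h2 : D.φ z b2 x = 1) {w1 w2 w3 : ℕ}
    (e1 : (w1 : ℝ) = 2 * D.Z * D.t (D.φ z b1)) (e2 : (w2 : ℝ) = 2 * D.Z * D.t (D.φ z b2))
    (e3 : (w3 : ℝ) = 2 * D.Z * D.t (D.φ z b1 + D.φ z b2)) :
    Fintype.card V * (w1 + w2 + w3) = D.M x * ((w1 + w2) * (w1 + w3)) := by
  have hr := h.r_val h1 h2
  have hs := h.sum_one
  have hM := D.M_pos x
  have hZ := D.Z_pos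
  have hsum : (w1 : ℝ) + w2 + w3 = 2 * D.Z := by
    rw [e1, e2, e3]; linear_combination 2 * D.Z * hs
  have hr2 : D.r x = 1 / D.M x := rfl
  rw [hr2] at hr
  have hN : D.N = D.M x * (2 * D.Z * ((D.t (D.φ z b1) + D.t (D.φ z b2)) *
      (D.t (D.φ z b1) + D.t (D.φ z b1 + D.φ z b2)))) := by
    rw [← hr]; field_simp
  have : ((Fintype.card V * (w1 + w2 + w3) : ℕ) : ℝ) = ((D.M x * ((w1 + w2) * (w1 + w3)) : ℕ) : ℝ) := by
    push_cast
    rw [hsum]
    change D.N * (2 * D.Z) = _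
    rw [hN, e1, e2, e3]; ring
  exact_mod_cast this

lemma ex_class (h : D.Hz z b1 b2) :
    (∀ x, D.φ z b1 x = 0 → D.φ z b2 x = 1 → D.M x = 2) ∨
    (∀ x, D.φ z b2 x = 0 → D.φ z b1 x = 1 → D.M x = 2) ∨
    (∀ x, (D.φ z b1 + D.φ z b2) x = 0 → D.φ z b1 x = 1 → D.M x = 2) := by
  obtain ⟨n, hn⟩ := D.card_pow
  obtain ⟨w1, e1, o1⟩ := h.exists_w
  obtain ⟨w2, e2, o2⟩ := h.swap.exists_w
  obtain ⟨w3, e3, o3⟩ := h.rot.swap.exists_w
  have t3 : D.φ z (b1 + b2) = D.φ z b1 + D.φ z b2 := map_add _ _ _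
  rw [t3] at e3
  have r1 : ∀ x, D.φ z b1 x = 0 → D.φ z b2 x = 1 →
      Fintype.card V * (w1 + w2 + w3) = D.M x * ((w1 + w2) * (w1 + w3)) := fun x a b =>
    h.rel a b e1 e2 e3
  have r2 : ∀ x, D.φ z b2 x = 0 → D.φ z b1 x = 1 →
      Fintype.card V * (w1 + w2 + w3) = D.M x * ((w2 + w1) * (w2 + w3)) := fun x a b => by
    have := h.swap.rel a b e2 e1 (by rw [add_comm]; exact e3)
    rw [← this]; ring
  have r3 : ∀ x, (D.φ z b1 + D.φ z b2) x = 0 → D.φ z b1 x = 1 →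
      Fintype.card V * (w1 + w2 + w3) = D.M x * ((w3 + w1) * (w3 + w2)) := fun x a b => by
    have := h.rot.swap.rel (x := x) (by rw [t3]; exact a) b (by rw [t3]; exact e3) e1 (by
      rw [t3, add_comm (D.φ z b1) (D.φ z b2), du_cancel]; exact e2)
    rw [← this]; ring
  have c12 : D.φ z b2 b1 = 1 := h.T21
  have a3 : (D.φ z b1 + D.φ z b2) (b1 + b2) = 0 := by
    rw [AddMonoidHom.add_apply, map_add, map_add, h.T11, h.T12, h.T21, h.T22]; decide
  have a3' : D.φ z b1 (b1 + b2) = 1 := by rw [map_add, h.T11, h.T12]; decide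
  have nb1 : b1 ≠ 0 := fun e => h.ne1 (by rw [e, map_zero])
  have nb2 : b2 ≠ 0 := fun e => h.ne2 (by rw [e, map_zero])
  have nb3 : b1 + b2 ≠ 0 := fun e => h.ne3 (by rw [← map_add, e, map_zero])
  have q1 := r1 b1 h.T11 h.T21
  have q2 := r2 b2 h.T22 h.T12
  have q3 := r3 (b1 + b2) a3 a3'
  obtain ⟨k1, m1⟩ := D.M_pow b1
  obtain ⟨k2, m2⟩ := D.M_pow b2
  obtain ⟨k3, m3⟩ := D.M_pow (b1 + b2)
  have kpos : ∀ {x : V} {k : ℕ}, x ≠ 0 → D.M x = 2 ^ k → 1 ≤ k := by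
    intro x k hx hk
    by_contra hc
    have : k = 0 := by omega
    rw [this, pow_zero] at hk
    have := D.M_even hx
    rw [hk] at this
    omega
  have kle : ∀ {x : V} {k : ℕ}, x ≠ 0 → D.M x = 2 ^ k → 2 * k + 1 ≤ n := by
    intro x k hx hk
    have := D.card_bound hx
    rw [hk, hn] at this
    have h5 : 2 ^ (2 * k + 1) ≤ 2 ^ n := by
      calc 2 ^ (2 * k + 1) = 2 * (2 ^ k * 2 ^ k) := by ring
        _ ≤ _ := this
    exact (Nat.pow_le_pow_iff_right (by norm_num)).1 h5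
  have hposs : 0 < w1 := Nat.pos_of_ne_zero fun e => o1 (e ▸ dvd_zero _)
  have hposs2 : 0 < w2 := Nat.pos_of_ne_zero fun e => o2 (e ▸ dvd_zero _)
  have hposs3 : 0 < w3 := Nat.pos_of_ne_zero fun e => o3 (e ▸ dvd_zero _)
  have q1' := q1
  have q2' := q2
  have q3' := q3
  rw [m1, hn] at q1'
  rw [m2, hn] at q2'
  rw [m3, hn] at q3'
  rcases nt o1 o2 o3 q1' q2' q3' (kle nb1 m1) (kle nb2 m2) (kle nb3 m3) (kpos nb1 m1)
    (kpos nb2 m2) (kpos nb3 m3) with hk | hk | hk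
  · left
    intro x a b
    have := r1 x a b
    rw [q1] at this
    have := Nat.eq_of_mul_eq_mul_right (by positivity) this
    rw [← this, m1, hk]; norm_num
  · right; left
    intro x a b
    have := r2 x a b
    rw [q2] at this
    have := Nat.eq_of_mul_eq_mul_right (by positivity) this
    rw [← this, m2, hk]; norm_num
  · right; right
    intro x a b
    have := r3 x a b
    rw [q3] at this
    have := Nat.eq_of_mul_eq_mul_right (by positivity) this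
    rw [← this, m3, hk]; norm_num

/-- the hyperplane of elements with four symbols -/
lemma fin1 (h : D.Hz z b1 b2) (hM : ∀ x, D.φ z b1 x = 0 → D.φ z b2 x = 1 → D.M x = 2) (a : V)
    (ha : a ≠ 0) (hTa : D.φ z b1 a = 0) : D.M a = 2 ∧ D.φ z b1 ∈ D.R a := by
  have hz0 : z ≠ 0 := fun e => h.ne1 (by rw [e, map_zero]; rfl)
  have nb1 : b1 ≠ 0 := fun e => h.ne1 (by rw [e, map_zero])
  have key : ∀ a, a ≠ 0 → D.φ z b1 a = 0 → D.φ z b2 a = 1 → D.φ z b1 ∈ D.R a := by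
    intro a ha h1 h2
    obtain ⟨l, hl0, hla, hlz⟩ := D.common ha hz0
    have h3 := D.R_self hla
    rw [h.R_eq] at hlz
    simp only [Finset.mem_insert, Finset.mem_singleton] at hlz
    rcases hlz with e | e | e | e
    · exact absurd e hl0
    · rw [← e]; exact hla
    · rw [e, h2] at h3; exact absurd h3 (by decide)
    · rw [e, AddMonoidHom.add_apply, h1, h2] at h3; exact absurd h3 (by decide)
  rcases z2_cases (D.φ z b2 a) with h2 | h2
  · set c := b1 with hc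
    have hc' : D.φ z b1 (b1 + a) = 0 := by rw [map_add, h.T11, hTa, add_zero]
    have hc'' : D.φ z b2 (b1 + a) = 1 := by rw [map_add, h.T21, h2, add_zero]
    have hne' : b1 + a ≠ 0 := fun e => by rw [e, map_zero] at hc''; exact absurd hc'' (by decide)
    have M1 : D.M b1 = 2 := hM b1 h.T11 h.T21
    have M2 : D.M (b1 + a) = 2 := hM _ hc' hc''
    have hadd : b1 + (b1 + a) = a := by rw [← add_assoc, D.two, zero_add]
    have hr := D.r_add b1 (b1 + a)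
    rw [hadd] at hr
    obtain ⟨l, hl0, hl1, hl2⟩ := D.common nb1 hne'
    have hcard : 2 ≤ (D.R b1 ∩ D.R (b1 + a)).card := by
      have : 1 < (D.R b1 ∩ D.R (b1 + a)).card := Finset.one_lt_card.2
        ⟨0, Finset.mem_inter.2 ⟨D.zero_mem _, D.zero_mem _⟩, l, Finset.mem_inter.2 ⟨hl1, hl2⟩,
          hl0.symm⟩
      omega
    have hMa : D.M a = 2 := by
      have e1 : D.r b1 = 1 / 2 := by unfold r; rw [M1]; norm_num
      have e2 : D.r (b1 + a) = 1 / 2 := by unfold r; rw [M2]; norm_num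
      rw [e1, e2] at hr
      have h5 : (2 : ℝ) ≤ ((D.R b1 ∩ D.R (b1 + a)).card : ℝ) := by exact_mod_cast hcard
      have h6 : 1 / 2 ≤ D.r a := by rw [hr]; linarith
      have h7 := D.M_pos a
      have h8 : (D.M a : ℝ) ≤ 2 := by
        have : D.r a = 1 / D.M a := rfl
        rw [this, div_le_div_iff₀ (by norm_num) h7] at h6
        linarith
      have h9 : D.M a ≤ 2 := by exact_mod_cast h8
      have h10 := D.M_even ha
      have h11 : 0 < D.M a := by exact_mod_cast h7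
      omega
    refine ⟨hMa, ?_⟩
    -- `T1` is a common symbol of `b1` and `b1 + a`
    have s1 : D.φ z b1 ∈ D.R b1 := key b1 nb1 h.T11 h.T21
    have s2 : D.φ z b1 ∈ D.R (b1 + a) := key _ hne' hc' hc''
    obtain ⟨p, hp⟩ := D.mem_R.1 s1
    obtain ⟨p', hp'⟩ := D.mem_R.1 s2
    obtain ⟨v, hv1, hv2⟩ := D.link b1 p (b1 + a) p' (by rw [hp, hp'])
    rw [hp] at hv1 hv2
    have hav : D.φ a v = 0 := by
      rw [← hadd, map_add, AddMonoidHom.add_apply, hv1, hv2, du_self]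
    obtain ⟨l2, hl20, hl2a, hl2b⟩ := D.common ha nb1
    obtain ⟨w, hw⟩ := D.mem_R.1 hl2a
    have hl2v : l2 v = 0 := by rw [← hw, D.symm', hav]; rfl
    obtain ⟨y, hy⟩ := exists_one h.ne1
    have hz' : D.Hz b1 v y := ⟨by rw [← D.M_sq, M1], by rw [hv1]; exact hy⟩
    rw [hz'.R_eq] at hl2b
    simp only [Finset.mem_insert, Finset.mem_singleton] at hl2b
    rcases hl2b with e | e | e | e
    · exact absurd e hl20
    · rw [hv1] at e; rw [← e]; exact hl2a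
    · rw [e, hz'.T21] at hl2v; exact absurd hl2v (by decide)
    · rw [e, AddMonoidHom.add_apply, hz'.T11, hz'.T21] at hl2v; exact absurd hl2v (by decide)
  · exact ⟨hM a hTa h2, key a ha hTa h2⟩

end Hz

variable (D)

/-- the conclusion -/
theorem main {z : V} (hz : (D.R z).card = 4) : ∃ f : Du V, f ≠ 0 ∧ ∀ a : V, a ≠ 0 → f a = 0 →
    D.M a = 2 ∧ f ∈ D.R a := by
  have h1 : 1 < (D.R z).card := by omega
  obtain ⟨l, hl, hl0⟩ : ∃ l ∈ D.R z, l ≠ 0 := by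
    obtain ⟨l, hl, m, hm, hlm⟩ := Finset.one_lt_card.1 h1
    by_cases h0 : l = 0
    · exact ⟨m, hm, fun e => hlm (by rw [h0, e])⟩
    · exact ⟨l, hl, h0⟩
  obtain ⟨b1, rfl⟩ := D.mem_R.1 hl
  obtain ⟨b2, hb2⟩ := exists_one hl0
  have h : D.Hz z b1 b2 := ⟨hz, hb2⟩
  rcases h.ex_class with hM | hM | hM
  · exact ⟨_, h.ne1, fun a ha hf => h.fin1 hM a ha hf⟩
  · exact ⟨_, h.ne2, fun a ha hf => h.swap.fin1 hM a ha hf⟩
  · have t3 : D.φ z (b1 + b2) = D.φ z b1 + D.φ z b2 := map_add _ _ _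
    refine ⟨D.φ z (b1 + b2), by rw [t3]; exact h.ne3, fun a ha hf => h.rot.swap.fin1 ?_ a ha hf⟩
    intro x a b
    exact hM x (by rw [← t3]; exact a) b

end Dat

end Pool.Agent.N16.Gor
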