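import Pool.Agent.N16.Gor.Four

set_option autoImplicit false

/-! # Positivity, the strict inequality, and common symbols -/

namespace Pool.Agent.N16.Gor

open Finset

namespace Dat

variable {V : Type} [AddCommGroup V] (D : Dat V) [Fintype V]

lemma exists_one {l : Du V} (h : l ≠ 0) : ∃ y, l y = 1 := by
  by_contra hc
  push Not at hc
  apply h
  ext x
  have := hc x
  rcases z2_cases (l x) with h0 | h0
  · simpa using h0
  · exact absurd h0 this

lemma sum_R (a x : V) :
    ∑ l ∈ D.R a, sg (l x) = if D.φ a x = 0 then ((D.R a).card : ℝ) else 0 := by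
  split_ifs with h
  · have : ∀ l ∈ D.R a, sg (l x) = 1 := by
      intro l hl
      obtain ⟨k, rfl⟩ := D.mem_R.1 hl
      rw [D.symm', h]; simp
    rw [Finset.sum_congr rfl this]; simp
  · obtain ⟨b, hb⟩ := exists_one h
    have hm : D.φ a b ∈ D.R a := D.mem_R.2 ⟨b, rfl⟩
    have hx : D.φ a b x = 1 := by rw [D.symm', hb]
    have e1 : ∑ l ∈ D.R a, sg (l x) = ∑ l ∈ D.R a, sg ((l + D.φ a b) x) := by
      refine Finset.sum_nbij' (fun l => l + D.φ a b) (fun l => l + D.φ a b) ?_ ?_ ?_ ?_ ?_
      · intro l hl; exact D.add_mem hl hm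
      · intro l hl; exact D.add_mem hl hm
      · intro l _; exact du_cancel _ _
      · intro l _; exact du_cancel _ _
      · intro l _
        show sg (l x) = sg ((l + D.φ a b + D.φ a b) x)
        rw [du_cancel]
    have e2 : ∑ l ∈ D.R a, sg ((l + D.φ a b) x) = - ∑ l ∈ D.R a, sg (l x) := by
      rw [← Finset.sum_neg_distrib]
      refine Finset.sum_congr rfl fun l _ => ?_
      rw [AddMonoidHom.add_apply, hx, sg_add, sg_one]; ring
    linarith

lemma r_card (a : V) : D.r a * (D.R a).card = D.M a := by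
  unfold r
  rw [← D.M_sq a]
  have := D.M_pos a
  push_cast
  field_simp

/-- twisted weighted count of the centraliser of `x` -/
noncomputable def U (c : Du V) (x : V) : ℝ :=
  ∑ a : V, if D.φ a x = 0 then (D.M a : ℝ) * sg (c a) else 0

lemma sum_X (c : Du V) (x : V) : ∑ l : Du V, D.X l c * sg (l x) = D.U c x := by
  unfold X U
  simp only [Finset.sum_mul]
  rw [Finset.sum_comm]
  refine Finset.sum_congr rfl fun a _ => ?_
  have e1 : ∀ l : Du V, (if l ∈ D.R a then D.r a * sg (c a) else 0) * sg (l x) =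
      if l ∈ D.R a then D.r a * sg (c a) * sg (l x) else 0 := by
    intro l; split_ifs <;> simp
  rw [Finset.sum_congr rfl fun l _ => e1 l, Finset.sum_ite_mem, Finset.univ_inter,
    ← Finset.mul_sum, sum_R]
  split_ifs
  · rw [← r_card]; ring
  · rw [mul_zero]

lemma U_odd (c : Du V) (x : V) : ∃ k : ℤ, D.U c x = k ∧ ¬ (2 : ℤ) ∣ k := by
  refine ⟨∑ a : V, (if D.φ a x = 0 then (D.M a : ℤ) * (if c a = 0 then 1 else -1) else 0), ?_, ?_⟩
  · unfold U sg
    push_cast
    refine Finset.sum_congr rfl fun a _ => ?_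
    split_ifs <;> simp
  · rw [← Finset.add_sum_erase _ _ (mem_univ (0 : V))]
    have h0 : (if D.φ 0 x = 0 then (D.M 0 : ℤ) * (if c 0 = 0 then 1 else -1) else 0) = 1 := by
      rw [map_zero, AddMonoidHom.zero_apply, if_pos rfl, map_zero, if_pos rfl, M_zero]; norm_num
    rw [h0]
    have h1 : (2 : ℤ) ∣ ∑ a ∈ univ.erase (0 : V),
        (if D.φ a x = 0 then (D.M a : ℤ) * (if c a = 0 then 1 else -1) else 0) := by
      refine Finset.dvd_sum fun a ha => ?_
      have hM : (2 : ℤ) ∣ (D.M a : ℤ) := by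
        exact_mod_cast D.M_even (Finset.ne_of_mem_erase ha)
      split_ifs
      · exact Dvd.dvd.mul_right hM _
      · exact Dvd.dvd.mul_right hM _
      · exact dvd_zero _
    omega

lemma t_pos (c : Du V) : 0 < D.t c := by
  refine lt_of_le_of_ne (D.t_nonneg c) fun h => ?_
  obtain ⟨k, hk, hk2⟩ := D.U_odd c 0
  have : D.U c 0 = 0 := by
    rw [← sum_X]
    refine Finset.sum_eq_zero fun l _ => ?_
    rw [X_eq, ← h]; ring
  rw [this] at hk
  have : k = 0 := by exact_mod_cast hk.symm
  exact hk2 (this ▸ dvd_zero _)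

/-- every functional is a symbol -/
lemma linked (l : Du V) : ∃ a b, D.φ a b = l := by
  by_contra hc
  push Not at hc
  have h := D.t_pos l
  have : D.t l = 0 := by
    unfold t X
    rw [Finset.sum_eq_zero, zero_div]
    intro a _
    rw [if_neg]
    intro hl
    obtain ⟨b, hb⟩ := D.mem_R.1 hl
    exact hc a b hb
  linarith

lemma ker_le {k m : Du V} (h : ∀ y, m y = 0 → k y = 0) (hk : k ≠ 0) : k = m := by
  obtain ⟨y0, hy0⟩ := exists_one hk
  have hm0 : m y0 = 1 := by
    rcases z2_cases (m y0) with h0 | h0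
    · rw [h _ h0] at hy0; exact absurd hy0 (by decide)
    · exact h0
  ext y
  rcases z2_cases (m y) with h0 | h0
  · rw [h0, h _ h0]
  · have h1 : m (y + y0) = 0 := by rw [map_add, h0, hm0]; decide
    have h2 := h _ h1
    rw [map_add, hy0] at h2
    rw [h0]
    rcases z2_cases (k y) with h3 | h3
    · rw [h3] at h2; exact absurd h2 (by decide)
    · exact h3

lemma strict {k s : Du V} (hk : k ≠ 0) (hs : s ≠ 0) : D.t k * D.t s < D.t (k + s) := by
  by_contra hc
  push Not at hc
  set m : Du V := k + s with hm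
  have hkm : k + m = s := by rw [hm, ← add_assoc, du_self, zero_add]
  have hZ := D.Z_pos
  have h1 : D.X m 0 - D.e k m * D.X m k = D.Z * (D.t m - D.t k * D.t s) := by
    rw [X_eq_t, X_eq, hkm]
    have : D.e k m * D.e k m = 1 := by
      rcases D.e_pm k m with h | h <;> rw [h] <;> norm_num
    calc D.Z * D.t m - D.e k m * (D.Z * (D.e k m * D.t k * D.t s)) =
        D.Z * D.t m - (D.e k m * D.e k m) * (D.Z * (D.t k * D.t s)) := by ring
      _ = _ := by rw [this]; ring
  have h2 : D.X m 0 - D.e k m * D.X m k =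
      ∑ a : V, (if m ∈ D.R a then D.r a * (1 - D.e k m * sg (k a)) else 0) := by
    unfold X
    rw [Finset.mul_sum, ← Finset.sum_sub_distrib]
    refine Finset.sum_congr rfl fun a _ => ?_
    split_ifs
    · simp; ring
    · simp
  have h3 : ∀ a : V, 0 ≤ (if m ∈ D.R a then D.r a * (1 - D.e k m * sg (k a)) else 0) := by
    intro a
    split_ifs
    · refine mul_nonneg (D.r_pos a).le ?_
      rcases D.e_pm k m with h | h <;> rcases sg_cases (k a) with h' | h' <;> rw [h, h'] <;> norm_num
    · exact le_rfl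
  have h4 : ∑ a : V, (if m ∈ D.R a then D.r a * (1 - D.e k m * sg (k a)) else 0) ≤ 0 := by
    rw [← h2, h1]
    exact mul_nonpos_of_nonneg_of_nonpos hZ.le (by linarith)
  have h5 : ∀ a : V, m ∈ D.R a → D.e k m = sg (k a) := by
    intro a ha
    have h6 := (Finset.sum_eq_zero_iff_of_nonneg fun a _ => h3 a).1
      (le_antisymm h4 (Finset.sum_nonneg fun a _ => h3 a)) a (mem_univ _)
    rw [if_pos ha] at h6
    have h7 : 1 - D.e k m * sg (k a) = 0 := by
      rcases mul_eq_zero.1 h6 with h | h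
      · exact absurd h (D.r_pos a).ne'
      · exact h
    rcases D.e_pm k m with h | h <;> rcases sg_cases (k a) with h' | h' <;> rw [h, h'] at h7 ⊢ <;>
      norm_num at h7
  obtain ⟨a0, b0, hab⟩ := D.linked m
  have ha0 : m ∈ D.R a0 := D.mem_R.2 ⟨b0, hab⟩
  have hb0 : m ∈ D.R b0 := D.mem_R.2 ⟨a0, by rw [D.symm, hab]⟩
  have hc0 : m ∈ D.R (a0 + b0) := D.mem_R.2 ⟨b0, by
    rw [map_add, AddMonoidHom.add_apply, hab, alt, add_zero]⟩
  have hzero : ∀ a : V, m ∈ D.R a → k a = 0 := by
    rcases D.e_pm k m with h | h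
    · intro a ha
      have := h5 a ha
      rw [h] at this
      rcases z2_cases (k a) with h' | h'
      · exact h'
      · rw [h', sg_one] at this; norm_num at this
    · exfalso
      have one : ∀ a : V, m ∈ D.R a → k a = 1 := by
        intro a ha
        have := h5 a ha
        rw [h] at this
        rcases z2_cases (k a) with h' | h'
        · rw [h', sg_zero] at this; norm_num at this
        · exact h'
      have e1 := one _ hc0
      rw [map_add, one _ ha0, one _ hb0] at e1
      exact absurd e1 (by decide)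
  have hker : ∀ y, m y = 0 → k y = 0 := by
    intro y hy
    obtain ⟨d, w, h8, h9⟩ := D.gor a0 b0 y (by rw [hab]; exact hy)
    have hw : m ∈ D.R w := D.mem_R.2 ⟨d, by rw [D.symm, h8, hab]⟩
    have hwy : m ∈ D.R (w + y) := D.mem_R.2 ⟨d, by
      rw [map_add, AddMonoidHom.add_apply, D.symm w d, h8, hab, D.symm y d, h9, add_zero]⟩
    have e1 := hzero _ hw
    have e2 := hzero _ hwy
    rw [map_add, e1, zero_add] at e2
    exact e2
  have hkm' := ker_le hker hk
  apply hs
  rw [← hkm, ← hkm', du_self]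

lemma nonzero_mem {a : V} (ha : a ≠ 0) : ∃ l, l ≠ 0 ∧ l ∈ D.R a := by
  by_contra hc
  push Not at hc
  apply ha
  apply D.nondeg
  intro b
  by_contra hb
  exact hc _ hb (D.mem_R.2 ⟨b, rfl⟩)

/-- two different nonzero elements have a common nonzero symbol -/
lemma common {a b : V} (ha : a ≠ 0) (hb : b ≠ 0) :
    ∃ l, l ≠ 0 ∧ l ∈ D.R a ∧ l ∈ D.R b := by
  by_contra hc
  push Not at hc
  have hint : D.R a ∩ D.R b = {0} := by
    ext l
    rw [Finset.mem_inter, Finset.mem_singleton]
    constructor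
    · rintro ⟨h1, h2⟩
      by_contra h0
      exact hc l h0 h1 h2
    · rintro rfl
      exact ⟨D.zero_mem _, D.zero_mem _⟩
  have hr : D.r (a + b) = D.r a * D.r b := by
    rw [r_add, hint, Finset.card_singleton]; norm_num
  have hcard : (D.R (a + b)).card = (D.R a).card * (D.R b).card := by
    have h1 := D.r_card (a + b)
    have hab : (D.M (a + b) : ℝ) = D.M a * D.M b := by
      have e1 : D.r (a + b) = 1 / D.M (a + b) := rfl
      have e2 : D.r a = 1 / D.M a := rfl
      have e3 : D.r b = 1 / D.M b := rfl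
      rw [e1, e2, e3] at hr
      have p1 := D.M_pos (a + b)
      have p2 := D.M_pos a
      have p3 := D.M_pos b
      field_simp at hr
      linarith
    have hab' : D.M (a + b) = D.M a * D.M b := by exact_mod_cast hab
    rw [← M_sq, ← M_sq, ← M_sq, hab']; ring
  set P : Finset (Du V × Du V) := D.R a ×ˢ D.R b with hP
  have hinj : Set.InjOn (fun p : Du V × Du V => p.1 + p.2) P := by
    rintro ⟨k, s⟩ h1 ⟨k', s'⟩ h2 h3
    simp only [hP, Finset.coe_product, Set.mem_prod, Finset.mem_coe] at h1 h2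
    simp only at h3
    have h4 : k + k' = s + s' := by
      have := congrArg (fun l => l + (k' + s)) h3
      rw [show k + s + (k' + s) = (k + k') + (s + s) by abel,
        show k' + s' + (k' + s) = (k' + k') + (s + s') by abel, du_self, du_self] at this
      rw [add_zero, zero_add] at this
      exact this
    have h5 : k + k' ∈ D.R a ∩ D.R b := Finset.mem_inter.2
      ⟨D.add_mem h1.1 h2.1, by rw [h4]; exact D.add_mem h1.2 h2.2⟩
    rw [hint, Finset.mem_singleton] at h5
    have h6 : k = k' := du_eq h5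
    have h7 : s = s' := by rw [h5] at h4; exact du_eq h4.symm
    rw [h6, h7]
  have himg : P.image (fun p : Du V × Du V => p.1 + p.2) = D.R (a + b) := by
    symm
    refine Finset.eq_of_subset_of_card_le ?_ ?_
    · intro l hl
      obtain ⟨h, rfl⟩ := D.mem_R.1 hl
      rw [Finset.mem_image]
      refine ⟨(D.φ a h, D.φ b h), ?_, ?_⟩
      · rw [hP, Finset.mem_product]
        exact ⟨D.mem_R.2 ⟨h, rfl⟩, D.mem_R.2 ⟨h, rfl⟩⟩
      · rw [map_add, AddMonoidHom.add_apply]
    · rw [Finset.card_image_of_injOn hinj, hP, Finset.card_product, hcard]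
  have s1 : ∑ l ∈ D.R (a + b), D.t l = ∑ p ∈ P, D.t (p.1 + p.2) := by
    rw [← himg, Finset.sum_image hinj]
  have s2 : (∑ l ∈ D.R a, D.t l) * (∑ l ∈ D.R b, D.t l) = ∑ p ∈ P, D.t p.1 * D.t p.2 := by
    rw [Finset.sum_mul_sum, ← Finset.sum_product']
  have ea := D.sum_t a
  have eb := D.sum_t b
  have eab := D.sum_t (a + b)
  rw [hr, s1] at eab
  have e3 : D.r a * D.r b * ∑ p ∈ P, D.t p.1 * D.t p.2 = 1 := by
    rw [← s2]
    calc D.r a * D.r b * ((∑ l ∈ D.R a, D.t l) * ∑ l ∈ D.R b, D.t l) =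
        (D.r a * ∑ l ∈ D.R a, D.t l) * (D.r b * ∑ l ∈ D.R b, D.t l) := by ring
      _ = 1 := by rw [ea, eb, one_mul]
  have pra := D.r_pos a
  have prb := D.r_pos b
  have e4 : ∑ p ∈ P, D.t (p.1 + p.2) = ∑ p ∈ P, D.t p.1 * D.t p.2 := by
    have : D.r a * D.r b ≠ 0 := by positivity
    exact mul_left_cancel₀ this (by rw [eab, e3])
  obtain ⟨k, hk0, hk⟩ := D.nonzero_mem ha
  obtain ⟨s, hs0, hs⟩ := D.nonzero_mem hb
  have e5 : ∑ p ∈ P, D.t p.1 * D.t p.2 < ∑ p ∈ P, D.t (p.1 + p.2) := by
    refine Finset.sum_lt_sum ?_ ⟨(k, s), ?_, ?_⟩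
    · rintro ⟨x, y⟩ hp
      rw [hP, Finset.mem_product] at hp
      simp only at hp ⊢
      by_cases hx : x = 0
      · rw [hx, t_zero, zero_add, one_mul]
      by_cases hy : y = 0
      · rw [hy, t_zero, add_zero, mul_one]
      exact (D.strict hx hy).le
    · rw [hP, Finset.mem_product]; exact ⟨hk, hs⟩
    · exact D.strict hk0 hs0
  linarith

end Dat

end Pool.Agent.N16.Gor
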