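import Pool.Agent.N16.Gor.Thm

set_option autoImplicit false

/-! # Small value groups -/

namespace Pool.Agent.N16.Gor

open Finset

namespace Dat

variable {V : Type} [AddCommGroup V] (D : Dat V) [Fintype V]

/-- half of the functionals vanish at `z` -/
lemma card_perp {z : V} (hz : z ≠ 0) :
    2 * (((univ : Finset (Du V)).filter fun c => c z = 0).card : ℝ) = D.N := by
  have h1 := D.dual_zero hz
  have h2 := D.card_dual
  have h3 : ∀ c : Du V, (if c z = 0 then (2:ℝ) else 0) = 1 + sg (c z) := by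
    intro c
    rcases z2_cases (c z) with h | h
    · rw [h, if_pos rfl, sg_zero]; norm_num
    · rw [h, if_neg (by decide), sg_one]; norm_num
  have h4 : ∑ c : Du V, (if c z = 0 then (2:ℝ) else 0) = D.N := by
    rw [Finset.sum_congr rfl fun c _ => h3 c, Finset.sum_add_distrib, h1, ← h2]
    simp
  rw [← Finset.sum_filter, Finset.sum_const, nsmul_eq_mul] at h4
  linarith

/-- half of the elements lie in the kernel of a functional -/
lemma card_ker {l : Du V} (hl : l ≠ 0) :
    2 * (((univ : Finset V).filter fun x => l x = 0).card : ℝ) = D.N := by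
  have h1 : ∑ x : V, sg (l x) = 0 := by rw [sum_sg, if_neg hl]
  have h3 : ∀ x : V, (if l x = 0 then (2:ℝ) else 0) = 1 + sg (l x) := by
    intro x
    rcases z2_cases (l x) with h | h
    · rw [h, if_pos rfl, sg_zero]; norm_num
    · rw [h, if_neg (by decide), sg_one]; norm_num
  have h4 : ∑ x : V, (if l x = 0 then (2:ℝ) else 0) = D.N := by
    rw [Finset.sum_congr rfl fun x _ => h3 x, Finset.sum_add_distrib, h1]
    simp [N]
  rw [← Finset.sum_filter, Finset.sum_const, nsmul_eq_mul] at h4
  linarith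

lemma card_nat (a : V) : (D.Cz a).card * (D.M a * D.M a) = Fintype.card V := by
  have h1 := D.card_mul a
  rw [M_sq]
  unfold N at h1
  exact_mod_cast h1

/-- the common symbols of two elements -/
lemma inter_card (a b : V) : (D.R a ∩ D.R b).card * D.M (a + b) = D.M a * D.M b := by
  have h := D.r_add a b
  have e1 : D.r (a + b) = 1 / D.M (a + b) := rfl
  have e2 : D.r a = 1 / D.M a := rfl
  have e3 : D.r b = 1 / D.M b := rfl
  rw [e1, e2, e3] at h
  have p1 := D.M_pos (a + b)
  have p2 := D.M_pos a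
  have p3 := D.M_pos b
  field_simp at h
  have h' : ((D.R a ∩ D.R b).card : ℝ) * D.M (a + b) = D.M a * D.M b := by linarith
  exact_mod_cast h'

/-- the covering of the functionals vanishing at `z` -/
lemma cover {z : V} {k : Du V} (hk : k z = 0) : ∃ d, D.φ z d = 0 ∧ k ∈ D.R d := by
  obtain ⟨a, b, rfl⟩ := D.linked k
  obtain ⟨d, e, h1, h2⟩ := D.gor a b z hk
  exact ⟨d, by rw [D.symm]; exact h2, D.mem_R.2 ⟨e, h1⟩⟩

include D in
omit [Fintype V] in
lemma add_self_left (z x : V) : z + (z + x) = x := by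
  rw [← add_assoc, D.two, zero_add]

/-- the value group without the two trivial elements -/
noncomputable def C2 (z : V) : Finset V := (D.Cz z).filter fun x => x ≠ 0 ∧ x ≠ z

lemma mem_C2 {z x : V} : x ∈ D.C2 z ↔ D.φ z x = 0 ∧ x ≠ 0 ∧ x ≠ z := by
  unfold C2
  rw [Finset.mem_filter, mem_Cz]

lemma C2_card {z : V} (hz : z ≠ 0) : (D.C2 z).card + 2 = (D.Cz z).card := by
  have h1 : D.Cz z = insert 0 (insert z (D.C2 z)) := by
    ext x
    rw [Finset.mem_insert, Finset.mem_insert, mem_C2, mem_Cz]
    constructor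
    · intro h
      by_cases h0 : x = 0
      · exact Or.inl h0
      by_cases h1 : x = z
      · exact Or.inr (Or.inl h1)
      exact Or.inr (Or.inr ⟨h, h0, h1⟩)
    · rintro (h | h | h)
      · rw [h, map_zero]
      · rw [h, alt]
      · exact h.1
  have h2 : z ∉ D.C2 z := fun h => (D.mem_C2.1 h).2.2 rfl
  have h3 : (0 : V) ∉ insert z (D.C2 z) := by
    rw [Finset.mem_insert]
    rintro (h | h)
    · exact hz h.symm
    · exact (D.mem_C2.1 h).2.1 rfl
  rw [h1, Finset.card_insert_of_notMem h3, Finset.card_insert_of_notMem h2]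

lemma C2_add {z x : V} (hx : x ∈ D.C2 z) : z + x ∈ D.C2 z := by
  obtain ⟨h1, h2, h3⟩ := D.mem_C2.1 hx
  refine D.mem_C2.2 ⟨by rw [map_add, alt, h1, add_zero], fun h => h3 ?_, fun h => h2 ?_⟩
  · have := D.add_self_left z x
    rw [h, add_zero] at this
    exact this.symm
  · have := D.add_self_left z x
    rw [h, D.two] at this
    exact this.symm

/-- new symbols of `x` -/
noncomputable def g (z x : V) : ℝ := (D.M x : ℝ) * D.M x - (D.R x ∩ D.R z).card

lemma sdiff_card (z x : V) : ((D.R x \ D.R z).card : ℝ) = D.g z x := by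
  unfold g
  have h1 := Finset.card_sdiff_add_card_inter (D.R x) (D.R z)
  have h2 : ((D.R x \ D.R z).card : ℝ) + (D.R x ∩ D.R z).card = (D.R x).card := by
    exact_mod_cast h1
  have h3 : (D.M x : ℝ) * D.M x = (D.R x).card := by exact_mod_cast D.M_sq x
  rw [h3]; linarith

lemma count {z : V} (hz : z ≠ 0) :
    D.N / 2 ≤ (D.M z : ℝ) * D.M z + ∑ x ∈ D.C2 z, D.g z x := by
  have h1 := D.card_perp hz
  have h2 : ((univ : Finset (Du V)).filter fun c => c z = 0) ⊆
      D.R z ∪ (D.C2 z).biUnion fun x => D.R x \ D.R z := by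
    intro k hk
    rw [Finset.mem_filter] at hk
    rw [Finset.mem_union, Finset.mem_biUnion]
    by_cases hkz : k ∈ D.R z
    · exact Or.inl hkz
    refine Or.inr ?_
    obtain ⟨d, h3, h4⟩ := D.cover hk.2
    refine ⟨d, D.mem_C2.2 ⟨h3, fun h => hkz ?_, fun h => hkz (h ▸ h4)⟩,
      Finset.mem_sdiff.2 ⟨h4, hkz⟩⟩
    obtain ⟨e, he⟩ := D.mem_R.1 h4
    rw [h, map_zero] at he
    rw [← he]
    exact D.zero_mem z
  have h3 := Finset.card_le_card h2
  have h4 := Finset.card_union_le (D.R z) ((D.C2 z).biUnion fun x => D.R x \ D.R z)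
  have h5 := Finset.card_biUnion_le (s := D.C2 z) (t := fun x => D.R x \ D.R z)
  have h6 : (((univ : Finset (Du V)).filter fun c => c z = 0).card : ℝ) ≤
      (D.R z).card + ∑ x ∈ D.C2 z, ((D.R x \ D.R z).card : ℝ) := by
    exact_mod_cast h3.trans (h4.trans (Nat.add_le_add_left h5 _))
  rw [Finset.sum_congr rfl fun x _ => D.sdiff_card z x] at h6
  have h7 : (D.M z : ℝ) * D.M z = (D.R z).card := by exact_mod_cast D.M_sq z
  rw [h7]; linarith

lemma exists_pair {z : V} (hz : z ≠ 0) (hne : (D.C2 z).Nonempty) :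
    ∃ x ∈ D.C2 z, (D.M z : ℝ) * D.M z ≤ D.g z x + D.g z (z + x) := by
  have h1 := D.count hz
  have h2 : ∑ x ∈ D.C2 z, D.g z (z + x) = ∑ x ∈ D.C2 z, D.g z x := by
    refine Finset.sum_nbij' (fun x => z + x) (fun x => z + x) (fun x hx => D.C2_add hx)
      (fun x hx => D.C2_add hx) (fun x _ => D.add_self_left z x)
      (fun x _ => D.add_self_left z x) (fun x _ => rfl)
  refine Finset.exists_le_of_sum_le hne ?_
  rw [Finset.sum_add_distrib, h2, Finset.sum_const, nsmul_eq_mul]
  have h3 : ((D.Cz z).card : ℝ) * (D.M z * D.M z) = D.N := by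
    unfold N; exact_mod_cast D.card_nat z
  have h4 : ((D.C2 z).card : ℝ) + 2 = (D.Cz z).card := by exact_mod_cast D.C2_card hz
  have h5 : ((D.C2 z).card : ℝ) = (D.Cz z).card - 2 := by linarith
  rw [h5]
  linarith

/-- the value group of a maximal `z` maps onto the common symbols of `x` and `z + x` -/
lemma four_le {z x : V} (hz : z ≠ 0) (hx : x ∈ D.C2 z) :
    4 * (D.R x ∩ D.R (z + x)).card ≤ (D.Cz z).card := by
  classical
  obtain ⟨h1, h2, h3⟩ := D.mem_C2.1 hx
  have hxz : D.φ x z = 0 := by rw [D.symm, h1]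
  have key : ∀ l ∈ D.R x ∩ D.R (z + x), 4 ≤ ((D.Cz z).filter fun y => D.φ x y = l).card := by
    intro l hl
    rw [Finset.mem_inter] at hl
    obtain ⟨w, hw⟩ := D.mem_R.1 hl.1
    obtain ⟨w', hw'⟩ := D.mem_R.1 hl.2
    obtain ⟨y, hy1, hy2⟩ := D.link x w (z + x) w' (hw.trans hw'.symm)
    rw [hw] at hy1 hy2
    have hzy : D.φ z y = 0 := by
      rw [map_add, AddMonoidHom.add_apply, hy1] at hy2
      have := congrArg (· + l) hy2
      simpa only [add_assoc, du_self, add_zero] using this
    have hsub : ({y, y + z, y + x, y + (z + x)} : Finset V) ⊆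
        (D.Cz z).filter fun y => D.φ x y = l := by
      intro u hu
      simp only [Finset.mem_insert, Finset.mem_singleton] at hu
      rw [Finset.mem_filter, mem_Cz]
      rcases hu with rfl | rfl | rfl | rfl
      · exact ⟨hzy, hy1⟩
      · exact ⟨by rw [map_add, hzy, alt, add_zero], by rw [map_add, hy1, hxz, add_zero]⟩
      · exact ⟨by rw [map_add, hzy, h1, add_zero], by rw [map_add, hy1, alt, add_zero]⟩
      · exact ⟨by rw [map_add, map_add, hzy, alt, h1, add_zero, add_zero],
          by rw [map_add, map_add, hy1, alt, hxz, add_zero, add_zero]⟩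
    refine le_trans ?_ (Finset.card_le_card hsub)
    have hzx : z + x ≠ 0 := (D.mem_C2.1 (D.C2_add hx)).2.1
    rw [Finset.card_insert_of_notMem, Finset.card_insert_of_notMem,
      Finset.card_insert_of_notMem, Finset.card_singleton]
    · rw [Finset.mem_singleton]
      intro h
      have := add_left_cancel h
      apply hz
      have h4 := congrArg (· + x) this
      simp only [add_assoc, D.two, add_zero] at h4
      exact h4.symm
    · simp only [Finset.mem_insert, Finset.mem_singleton, not_or]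
      refine ⟨fun h => h3 (add_left_cancel h).symm, fun h => h2 ?_⟩
      have h5 := add_left_cancel h
      have h4 := congrArg (z + ·) h5
      simp only [D.add_self_left, D.two] at h4
      exact h4.symm
    · simp only [Finset.mem_insert, Finset.mem_singleton, not_or]
      refine ⟨fun h => hz ?_, fun h => h2 ?_, fun h => hzx ?_⟩
      · exact (add_left_cancel (a := y) (by rw [add_zero]; exact h)).symm
      · exact (add_left_cancel (a := y) (by rw [add_zero]; exact h)).symm
      · exact (add_left_cancel (a := y) (by rw [add_zero]; exact h)).symm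
  have h4 := Finset.card_eq_sum_card_fiberwise (s := (D.Cz z).filter
    fun y => D.φ x y ∈ D.R x ∩ D.R (z + x)) (t := D.R x ∩ D.R (z + x)) (f := fun y => D.φ x y)
    (fun y hy => (Finset.mem_filter.1 hy).2)
  have h5 : 4 * (D.R x ∩ D.R (z + x)).card ≤ ((D.Cz z).filter
      fun y => D.φ x y ∈ D.R x ∩ D.R (z + x)).card := by
    rw [h4, mul_comm, ← smul_eq_mul]
    refine Finset.card_nsmul_le_sum _ _ _ fun l hl => ?_
    refine le_trans (key l hl) (Finset.card_le_card fun y hy => ?_)
    rw [Finset.mem_filter] at hy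
    rw [Finset.mem_filter, Finset.mem_filter]
    exact ⟨⟨hy.1, by rw [hy.2]; exact hl⟩, hy.2⟩
  exact h5.trans (Finset.card_filter_le _ _)

/-- powers of two -/
lemma pow_lt {a b : ℕ} (ha : ∃ k, a = 2 ^ k) (hb : ∃ k, b = 2 ^ k) (h : a < b) : 2 * a ≤ b := by
  obtain ⟨i, rfl⟩ := ha
  obtain ⟨j, rfl⟩ := hb
  have : i < j := (Nat.pow_lt_pow_iff_right (by norm_num)).1 h
  calc 2 * 2 ^ i = 2 ^ (i + 1) := by rw [pow_succ]; ring
    _ ≤ 2 ^ j := Nat.pow_le_pow_right (by norm_num) this

lemma g_eq {z x : V} : D.g z x = (D.M x : ℝ) * D.M x - D.M x * D.M z / D.M (z + x) := by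
  unfold g
  have h1 := D.inter_card x z
  rw [add_comm x z] at h1
  have h2 : ((D.R x ∩ D.R z).card : ℝ) * D.M (z + x) = D.M x * D.M z := by exact_mod_cast h1
  have h3 := D.M_pos (z + x)
  rw [← h2]
  field_simp

/-- a maximal `z` with a small value group is rigid -/
lemma rigid_of_small {z : V} (hz : z ≠ 0) (hmax : ∀ x, D.M x ≤ D.M z)
    (hv : (D.Cz z).card ^ 4 ≤ 64 * Fintype.card V) : D.C2 z = ∅ := by
  by_contra hne
  have hne' : (D.C2 z).Nonempty := Finset.nonempty_iff_ne_empty.2 hne
  obtain ⟨x0, hx0, hx0g⟩ := D.exists_pair hz hne'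
  -- one of the two has maximal rank
  have hz1 := D.M_pos z
  have key : ∃ x ∈ D.C2 z, D.M x = D.M z ∧
      (D.M z : ℝ) * D.M z ≤ D.g z x + D.g z (z + x) := by
    by_cases h1 : D.M x0 = D.M z
    · exact ⟨x0, hx0, h1, hx0g⟩
    by_cases h2 : D.M (z + x0) = D.M z
    · refine ⟨z + x0, D.C2_add hx0, h2, ?_⟩
      rw [D.add_self_left]; linarith
    exfalso
    have h3 := pow_lt (D.M_pow x0) (D.M_pow z) (lt_of_le_of_ne (hmax x0) h1)
    have h4 := pow_lt (D.M_pow (z + x0)) (D.M_pow z) (lt_of_le_of_ne (hmax _) h2)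
    have h3' : 2 * (D.M x0 : ℝ) ≤ D.M z := by exact_mod_cast h3
    have h4' : 2 * (D.M (z + x0) : ℝ) ≤ D.M z := by exact_mod_cast h4
    have h5 := D.M_pos x0
    have h6 := D.M_pos (z + x0)
    have h7 : D.g z x0 ≤ (D.M x0 : ℝ) * D.M x0 := by
      unfold g
      have : (0 : ℝ) ≤ (D.R x0 ∩ D.R z).card := Nat.cast_nonneg _
      linarith
    have h8 : D.g z (z + x0) ≤ (D.M (z + x0) : ℝ) * D.M (z + x0) := by
      unfold g
      have : (0 : ℝ) ≤ (D.R (z + x0) ∩ D.R z).card := Nat.cast_nonneg _
      linarith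
    nlinarith
  obtain ⟨x, hx, hMx, hg⟩ := key
  set b := D.M (z + x) with hb
  have hb1 : (0 : ℝ) < b := D.M_pos (z + x)
  have hbB : (D.R x ∩ D.R (z + x)).card = b := by
    have h1 := D.inter_card x (z + x)
    rw [show x + (z + x) = z by rw [add_comm z x, D.add_self_left], hMx, ← hb,
      mul_comm] at h1
    exact Nat.eq_of_mul_eq_mul_left (by exact_mod_cast hz1) h1
  have h4b := D.four_le hz hx
  rw [hbB] at h4b
  have hg1 : D.g z x = (D.M z : ℝ) * D.M z - D.M z * D.M z / b := by
    rw [g_eq, hMx]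
  have hg2 : D.g z (z + x) = (b : ℝ) * b - b := by
    rw [g_eq, D.add_self_left, hMx, ← hb]
    field_simp
  rw [hg1, hg2] at hg
  have h1 : (D.M z : ℝ) * D.M z / b ≤ b * b - b := by linarith
  rw [div_le_iff₀ hb1] at h1
  have h2 : (D.M z : ℝ) * D.M z < b * b * b := by nlinarith
  have h3 : D.M z * D.M z < b * b * b := by exact_mod_cast h2
  have h5 := D.card_nat z
  set v := (D.Cz z).card with hv'
  have hv0 : 0 < v := D.Cz_pos z
  have h6 : 64 * (D.M z * D.M z) < v * v * v := by
    calc 64 * (D.M z * D.M z) < 64 * (b * b * b) := by omega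
      _ = (4 * b) * (4 * b) * (4 * b) := by ring
      _ ≤ v * v * v := Nat.mul_le_mul (Nat.mul_le_mul h4b h4b) h4b
  have h7 : v * (64 * (D.M z * D.M z)) < v * (v * v * v) := Nat.mul_lt_mul_of_pos_left h6 hv0
  have h8 : v * (64 * (D.M z * D.M z)) = 64 * Fintype.card V := by rw [← h5]; ring
  have h9 : v * (v * v * v) = v ^ 4 := by ring
  omega

/-- a rigid element yields an element with four symbols -/
lemma four_of_rigid {z : V} (hz : z ≠ 0) (h2 : ∀ b, D.φ z b = 0 → b = 0 ∨ b = z) :
    ∃ y, y ≠ 0 ∧ (D.R y).card = 4 := by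
  classical
  obtain ⟨y, hy⟩ : ∃ y, D.φ z y ≠ 0 := by
    by_contra hc
    push Not at hc
    exact hz (D.nondeg z hc)
  set l := D.φ z y with hl
  have hyz : y + z ≠ 0 := fun h => hy (by
    have : D.φ z (y + z) = 0 := by rw [h, map_zero]
    rwa [map_add, alt, add_zero] at this)
  have hy0 : y ≠ 0 := fun h => hy (by rw [hl, h, map_zero])
  have cong : ∀ {u w : V}, D.φ z u = D.φ z w → u = w ∨ u = w + z := by
    intro u w h
    have h3 : D.φ z (u + w) = 0 := by rw [map_add, h, du_self]
    rcases h2 _ h3 with h4 | h4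
    · left
      have := congrArg (· + w) h4
      simpa only [add_assoc, D.two, add_zero, zero_add] using this
    · right
      have := congrArg (· + w) h4
      simpa only [add_assoc, D.two, add_zero, add_comm z w] using this
  -- every `w` killed by `l` comes from one of four pieces
  have key : ∀ w, l w = 0 → (D.φ (y + z) w = 0 ∨ D.φ (y + z) (w + z) = 0) ∨
      (D.φ y w = 0 ∨ D.φ y (w + z) = 0) := by
    intro w hw
    obtain ⟨d, e, h3, h4⟩ := D.gor z y w hw
    obtain ⟨x, h5, h6⟩ := D.link z y d e h3.symm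
    have hdx : D.φ (w + x) (z + d) = D.φ z w := by
      simp only [map_add, AddMonoidHom.add_apply]
      rw [D.symm w z, D.symm x z, D.symm w d, D.symm x d, h4, h5, h6, zero_add,
        add_assoc, du_self, add_zero]
    obtain ⟨v, h7, h8⟩ := D.link z w (w + x) (z + d) hdx.symm
    have h9 : D.φ (w + x + z) v = 0 := by
      rw [map_add, AddMonoidHom.add_apply, h8, h7, du_self]
    have hv : D.φ (x + z) w = 0 ∨ D.φ x (w + z) = 0 := by
      rcases cong h7 with rfl | rfl
      · left
        rw [add_assoc, map_add, AddMonoidHom.add_apply, alt, zero_add] at h9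
        exact h9
      · right
        have h10 : D.φ (w + z) (w + z) + D.φ x (w + z) = 0 := by
          rw [← AddMonoidHom.add_apply, ← map_add, show w + z + x = w + x + z by abel]
          exact h9
        rw [alt, zero_add] at h10
        exact h10
    rcases cong h5 with rfl | rfl
    · rcases hv with h | h
      · exact Or.inl (Or.inl h)
      · exact Or.inr (Or.inr h)
    · rcases hv with h | h
      · rw [add_assoc, D.two, add_zero] at h
        exact Or.inr (Or.inl h)
      · exact Or.inl (Or.inr h)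
  have hsub : ((univ : Finset V).filter fun w => l w = 0) ⊆
      (D.Cz (y + z) ∪ (D.Cz (y + z)).image (· + z)) ∪ (D.Cz y ∪ (D.Cz y).image (· + z)) := by
    intro w hw
    have im : ∀ u : V, D.φ u (w + z) = 0 → w ∈ (D.Cz u).image (· + z) := by
      intro u hu
      rw [Finset.mem_image]
      exact ⟨w + z, D.mem_Cz.2 hu, by rw [add_assoc, D.two, add_zero]⟩
    simp only [Finset.mem_union]
    rcases key w (Finset.mem_filter.1 hw).2 with (h | h) | (h | h)
    · exact Or.inl (Or.inl (D.mem_Cz.2 h))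
    · exact Or.inl (Or.inr (im _ h))
    · exact Or.inr (Or.inl (D.mem_Cz.2 h))
    · exact Or.inr (Or.inr (im _ h))
  have c1 := Finset.card_le_card hsub
  have c2 := Finset.card_union_le (D.Cz (y + z) ∪ (D.Cz (y + z)).image (· + z))
    (D.Cz y ∪ (D.Cz y).image (· + z))
  have c3 := Finset.card_union_le (D.Cz (y + z)) ((D.Cz (y + z)).image (· + z))
  have c4 := Finset.card_union_le (D.Cz y) ((D.Cz y).image (· + z))
  have c5 := Finset.card_image_le (s := D.Cz y) (f := (· + z))
  have c6 := Finset.card_image_le (s := D.Cz (y + z)) (f := (· + z))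
  have c7 : 2 * ((univ : Finset V).filter fun w => l w = 0).card = Fintype.card V := by
    have := D.card_ker hy
    unfold N at this
    exact_mod_cast this
  by_contra hc
  push Not at hc
  have big : ∀ u : V, u ≠ 0 → 16 * (D.Cz u).card ≤ Fintype.card V := by
    intro u hu
    have h3 := hc u hu
    rw [← M_sq] at h3
    have h4 := D.M_even hu
    have h5 : 0 < D.M u := by exact_mod_cast D.M_pos u
    obtain ⟨k, hk⟩ := D.M_pow u
    have h6 : 4 ≤ D.M u := by
      rcases k with _ | _ | k
      · rw [hk] at h4; omega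
      · rw [hk] at h3; omega
      · rw [hk, pow_succ, pow_succ]
        have : 0 < 2 ^ k := by positivity
        omega
    have h7 : 16 ≤ D.M u * D.M u := by
      calc 16 = 4 * 4 := by norm_num
        _ ≤ _ := Nat.mul_le_mul h6 h6
    rw [← D.card_nat u, mul_comm]
    exact Nat.mul_le_mul_left _ h7
  have b1 := big y hy0
  have b2 := big (y + z) hyz
  have : 0 < Fintype.card V := Fintype.card_pos
  omega

/-- a small value group yields an element with four symbols -/
theorem small {z : V} (hz : z ≠ 0) (hv : (D.Cz z).card ^ 4 ≤ 64 * Fintype.card V) :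
    ∃ y, y ≠ 0 ∧ (D.R y).card = 4 := by
  classical
  obtain ⟨u, hu, hmax⟩ := Finset.exists_max_image ((univ : Finset V).filter fun x => x ≠ 0)
    (fun x => D.M x) ⟨z, Finset.mem_filter.2 ⟨mem_univ _, hz⟩⟩
  have hu0 : u ≠ 0 := (Finset.mem_filter.1 hu).2
  have hmax' : ∀ x, D.M x ≤ D.M u := by
    intro x
    by_cases hx : x = 0
    · rw [hx, M_zero]
      have := D.M_pos u
      exact_mod_cast this
    · exact hmax x (Finset.mem_filter.2 ⟨mem_univ _, hx⟩)
  have hcz : (D.Cz u).card ≤ (D.Cz z).card := by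
    have h1 := D.card_nat u
    have h2 := D.card_nat z
    have h3 := hmax' z
    have h4 : D.M z * D.M z ≤ D.M u * D.M u := Nat.mul_le_mul h3 h3
    have h5 : 0 < D.M z * D.M z := by
      have : 0 < D.M z := by exact_mod_cast D.M_pos z
      exact Nat.mul_pos this this
    have h6 : (D.Cz u).card * (D.M z * D.M z) ≤ (D.Cz z).card * (D.M z * D.M z) := by
      rw [h2, ← h1]
      exact Nat.mul_le_mul_left _ h4
    exact Nat.le_of_mul_le_mul_right h6 h5
  have h1 := D.rigid_of_small hu0 hmax' ((Nat.pow_le_pow_left hcz 4).trans hv)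
  refine D.four_of_rigid hu0 fun b hb => ?_
  by_contra hc
  push Not at hc
  have : b ∈ D.C2 u := D.mem_C2.2 ⟨hb, hc.1, hc.2⟩
  rw [h1] at this
  exact absurd this (Finset.notMem_empty _)

end Dat

end Pool.Agent.N16.Gor
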