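import Pool.Agent.N16.Gor.Small

set_option autoImplicit false

/-! # Small value groups: the statements for quaternionic structures -/

namespace Pool.Agent.N16.Gor

open Pool.Agent.H315R3.ETC Pool.Agent.TH673.VG

section
variable {S : QData} {F : S.G → ZMod 2} (hF : Socle S F) (h : IsQuat S)
  (hnd : ∀ a : S.G, (∀ b : S.G, S.q a b = S.zero) → a = 1)

include hF h hnd in
/-- one small value group suffices -/
theorem elem_of_small [Finite S.G] (hz : ∃ z : S.G, z ≠ 1 ∧
    {b : S.G | S.q z b = S.zero}.ncard ^ 4 ≤ 64 * Nat.card S.G) : Elem S := by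
  have _ : Fintype (Additive S.G) := Fintype.ofFinite _
  obtain ⟨z, hz1, hz4⟩ := hz
  have h2 : Nat.card S.G = Fintype.card (Additive S.G) := by
    rw [← Nat.card_eq_fintype_card]
    rfl
  obtain ⟨y, hy0, hy⟩ := (dat hF h hnd).small (z := Additive.ofMul z) (fun e => hz1 e)
    (by rw [card_cz hF h hnd, ← h2]; exact hz4)
  refine elem_of_four hF h hnd ⟨y.toMul, fun e => hy0 e, ?_⟩
  have h3 := card_rel hF h hnd y.toMul
  have h4 : ((dat hF h hnd).R (Additive.ofMul y.toMul)).card = 4 := hy
  rw [h4] at h3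
  rw [← h3, mul_comm]

/-- the trivial structure -/
lemma elem_trivial (hG : Nat.card S.G = 1) : Elem S := by
  have hs : Subsingleton S.G := (Nat.card_eq_one_iff_unique.1 hG).1
  refine Elem.iso L0 S Elem.l0 ⟨?_, ?_, ?_⟩
  · exact { toFun := fun _ => 1, invFun := fun _ => (), left_inv := fun _ => rfl,
            right_inv := fun _ => Subsingleton.elim _ _, map_mul' := fun _ _ => (mul_one _).symm }
  · exact Subsingleton.elim _ _
  · intro a b c d
    refine ⟨fun _ => ?_, fun _ => rfl⟩
    congr 1

include hF h hnd in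
/-- orders at most ten -/
theorem elem_of_ten [Finite S.G] (hG : Nat.card S.G ≤ 1024) : Elem S := by
  have hpos : 0 < Nat.card S.G := Nat.card_pos
  by_cases h1 : Nat.card S.G = 1
  · exact elem_trivial h1
  by_cases h4 : ∃ z : S.G, z ≠ 1 ∧ Nat.card S.G ≤ 4 * {b : S.G | S.q z b = S.zero}.ncard
  · exact elem_of_four hF h hnd h4
  by_cases hs : ∃ z : S.G, z ≠ 1 ∧
      {b : S.G | S.q z b = S.zero}.ncard ^ 4 ≤ 64 * Nat.card S.G
  · exact elem_of_small hF h hnd hs
  push Not at h4 hs
  have key : ∀ a : S.G, a ≠ 1 → {b : S.G | S.q a b = S.zero}.ncard * 16 = Nat.card S.G := by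
    intro a ha
    obtain ⟨k, hk, hk1⟩ := index_square hF h hnd a
    have e1 := h4 a ha
    have e2 := hs a ha
    set c := {b : S.G | S.q a b = S.zero}.ncard with hc
    rcases k with _ | _ | _ | k
    · have := hk1 ha; omega
    · simp only [zero_add, pow_one] at hk; omega
    · norm_num at hk; exact hk
    · exfalso
      have h8 : 8 ≤ 2 ^ (k + 1 + 1 + 1) := by
        rw [pow_succ, pow_succ, pow_succ]
        have : 0 < 2 ^ k := by positivity
        omega
      have h64 : 64 ≤ 2 ^ (k + 1 + 1 + 1) * 2 ^ (k + 1 + 1 + 1) := by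
        calc 64 = 8 * 8 := by norm_num
          _ ≤ _ := Nat.mul_le_mul h8 h8
      have h5 : c * 64 ≤ Nat.card S.G := by
        rw [← hk]
        exact Nat.mul_le_mul_left _ h64
      have h6 : c ≤ 16 := by omega
      have h7 : c * c * c ≤ 16 * 16 * 16 := Nat.mul_le_mul (Nat.mul_le_mul h6 h6) h6
      have h9 : c ^ 4 ≤ 64 * Nat.card S.G := by
        calc c ^ 4 = c * c * c * c := by ring
          _ ≤ 16 * 16 * 16 * c := Nat.mul_le_mul_right _ h7
          _ = 64 * (c * 64) := by ring
          _ ≤ 64 * Nat.card S.G := Nat.mul_le_mul_left _ h5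
      omega
  refine elem_of_equal hF h hnd (fun a b ha hb => ?_) (by omega)
  have e1 := key a ha
  have e2 := key b hb
  omega

end

end Pool.Agent.N16.Gor
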