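import Pool.Agent.N16.Gor.Const

set_option autoImplicit false

/-! # The statements for quaternionic structures -/

namespace Pool.Agent.N16.Gor

open Pool.Agent.H315R3.ETC Pool.Agent.TH673.VG

section
variable {S : QData} {F : S.G → ZMod 2} (hF : Socle S F) (h : IsQuat S)
  (hnd : ∀ a : S.G, (∀ b : S.G, S.q a b = S.zero) → a = 1)

include hF h hnd in
/-- every homomorphism is a symbol -/
theorem hom_symbol [Finite S.G] (f : S.G → ZMod 2) (hf : ∀ x y, f (x * y) = f x + f y) :
    ∃ a b : S.G, ∀ x, f x = Tri F a b x := by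
  have _ : Fintype (Additive S.G) := Fintype.ofFinite _
  obtain ⟨a, b, hab⟩ := (dat hF h hnd).linked
    (AddMonoidHom.mk' (fun x : Additive S.G => f x.toMul) (fun x y => hf x.toMul y.toMul))
  refine ⟨a.toMul, b.toMul, fun x => ?_⟩
  have := DFunLike.congr_fun hab (Additive.ofMul x)
  exact this.symm

include hF h hnd in
/-- the index of a value group is a square -/
theorem index_square [Finite S.G] (a : S.G) :
    ∃ k : ℕ, {b : S.G | S.q a b = S.zero}.ncard * (2 ^ k * 2 ^ k) = Nat.card S.G ∧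
      (a ≠ 1 → 1 ≤ k) := by
  have _ : Fintype (Additive S.G) := Fintype.ofFinite _
  obtain ⟨k, hk⟩ := (dat hF h hnd).M_pow (Additive.ofMul a)
  refine ⟨k, ?_, fun ha => ?_⟩
  · rw [← card_rel hF h hnd a, ← Dat.M_sq, hk]
  · by_contra hc
    have h0 : k = 0 := by omega
    have h1 := (dat hF h hnd).M_even (a := Additive.ofMul a) (fun e => ha e)
    rw [hk, h0] at h1
    omega

include hF h hnd in
/-- two value groups -/
theorem common_symbol [Finite S.G] (a b : S.G) (ha : a ≠ 1) (hb : b ≠ 1) :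
    ∃ x y : S.G, S.q a x = S.q b y ∧ S.q a x ≠ S.zero := by
  have _ : Fintype (Additive S.G) := Fintype.ofFinite _
  obtain ⟨l, hl0, hla, hlb⟩ := (dat hF h hnd).common (a := Additive.ofMul a)
    (b := Additive.ofMul b) (fun e => ha e) (fun e => hb e)
  obtain ⟨x, hx⟩ := (dat hF h hnd).mem_R.1 hla
  obtain ⟨y, hy⟩ := (dat hF h hnd).mem_R.1 hlb
  refine ⟨x.toMul, y.toMul, ?_, ?_⟩
  · exact (phi_eq_iff hF h _ _ _ _).1 (hx.trans hy.symm)
  · intro e
    exact hl0 (hx.symm.trans ((phi_zero_iff hF h _ _).2 e))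

include hF h hnd in
/-- value groups of equal order -/
theorem equal_orders [Finite S.G]
    (heq : ∀ a b : S.G, a ≠ 1 → b ≠ 1 → {x : S.G | S.q a x = S.zero}.ncard =
      {x : S.G | S.q b x = S.zero}.ncard) (hG : 1 < Nat.card S.G) :
    Nat.card S.G = 8 := by
  have _ : Fintype (Additive S.G) := Fintype.ofFinite _
  obtain ⟨z, hz⟩ : ∃ z : S.G, z ≠ 1 := by
    have := (Finite.one_lt_card_iff_nontrivial).1 hG
    exact exists_ne 1
  have key : ∀ a : S.G, a ≠ 1 → (dat hF h hnd).M (Additive.ofMul a) =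
      (dat hF h hnd).M (Additive.ofMul z) := by
    intro a ha
    have h1 := card_rel hF h hnd a
    have h2 := card_rel hF h hnd z
    rw [← Dat.M_sq] at h1 h2
    rw [heq a z ha hz, ← h2] at h1
    have h4 : 0 < {b : S.G | S.q z b = S.zero}.ncard := by
      rcases Nat.eq_zero_or_pos {b : S.G | S.q z b = S.zero}.ncard with e | e
      · rw [e] at h2; omega
      · exact e
    exact Nat.mul_self_inj.1 (Nat.eq_of_mul_eq_mul_left h4 h1)
  have := ((dat hF h hnd).const_rank (m := (dat hF h hnd).M (Additive.ofMul z))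
    (fun x hx => key x.toMul (fun e => hx e)) (z := Additive.ofMul z) (fun e => hz e)).2
  rw [← this, ← Nat.card_eq_fintype_card]
  rfl

include hF h hnd in
/-- the structures with value groups of equal order are of elementary type -/
theorem elem_of_equal [Finite S.G]
    (heq : ∀ a b : S.G, a ≠ 1 → b ≠ 1 → {x : S.G | S.q a x = S.zero}.ncard =
      {x : S.G | S.q b x = S.zero}.ncard) (hG : 1 < Nat.card S.G) : Elem S := by
  have h8 := equal_orders hF h hnd heq hG
  obtain ⟨z, hz⟩ : ∃ z : S.G, z ≠ 1 := by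
    have := (Finite.one_lt_card_iff_nontrivial).1 hG
    exact exists_ne 1
  refine elem_of_four hF h hnd ⟨z, hz, ?_⟩
  obtain ⟨k, hk, hk1⟩ := index_square hF h hnd z
  have h1 := hk1 hz
  rw [h8] at hk
  have h2 : k = 1 := by
    by_contra hc
    have h3 : 2 ≤ k := by omega
    have h4 : 4 ≤ 2 ^ k := by
      calc 4 = 2 ^ 2 := by norm_num
        _ ≤ 2 ^ k := Nat.pow_le_pow_right (by norm_num) h3
    have h5 : 16 ≤ 2 ^ k * 2 ^ k := by
      calc 16 = 4 * 4 := by norm_num
        _ ≤ _ := Nat.mul_le_mul h4 h4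
    have h6 : {b : S.G | S.q z b = S.zero}.ncard ≠ 0 := by
      intro e; rw [e] at hk; omega
    have h7 : 1 ≤ {b : S.G | S.q z b = S.zero}.ncard := by omega
    have := Nat.mul_le_mul h7 h5
    omega
  rw [h2] at hk
  omega

end

end Pool.Agent.N16.Gor
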