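import Pool.Agent.N16.Gor.Numb
import Pool.Agent.N16.Gor.Defs
import Pool.Agent.R19.QS.Sub

set_option autoImplicit false

/-! # From quaternionic structures to trilinear forms -/

namespace Pool.Agent.N16.Gor

open Pool.Agent.H315R3.ETC Pool.Agent.TH673.VG

lemma z2sum {a b c d : ZMod 2} (h : a + b = c + d) : c + a + b + d = 0 := by
  revert a b c d; decide

section
variable {S : QData} {F : S.G → ZMod 2} (hF : Socle S F)

lemma tri_perm1 (a b c : S.G) : Tri F a b c = Tri F b a c := by
  unfold Tri
  rw [mul_comm b a]; ring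

lemma tri_perm2 (a b c : S.G) : Tri F a b c = Tri F a c b := by
  unfold Tri
  rw [mul_comm c b, mul_right_comm a c b]; ring

include hF in
lemma tri_zero_of {a b : S.G} (hab : S.q a b = S.q 1 (a * b)) (x : S.G) : Tri F a b x = 0 := by
  have h1 := z2sum (hF.witt a b 1 (a * b) 1 (by rw [one_mul]) hab)
  have h2 := z2sum (hF.witt a b 1 (a * b) x (by rw [one_mul]) hab)
  simp only [one_mul, mul_one] at h1 h2
  unfold Tri
  rw [mul_comm a x, mul_comm b x, show a * b * x = x * (a * b) by rw [mul_comm]]
  calc F 1 + F a + F b + F x + F (a * b) + F (x * a) + F (x * b) + F (x * (a * b))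
      = (F 1 + F a + F b + F (a * b)) + (F x + F (x * a) + F (x * b) + F (x * (a * b))) := by ring
    _ = 0 := by rw [h1, h2, add_zero]

include hF in
lemma tri_mul2 (a b c d : S.G) : Tri F a (b * c) d = Tri F a b d + Tri F a c d := by
  rw [tri_perm2, hF.cubic, tri_perm2 a d b, tri_perm2 a d c]

include hF in
lemma tri_mul1 (a b c d : S.G) : Tri F (a * b) c d = Tri F a c d + Tri F b c d := by
  rw [tri_perm1, tri_mul2 hF, tri_perm1 c a, tri_perm1 c b]

variable (h : IsQuat S) (hn : S.neg = 1)

include h hF in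
lemma tri_zero {a b : S.G} (hab : S.q a b = S.zero) (x : S.G) : Tri F a b x = 0 := by
  refine tri_zero_of hF ?_ x
  rw [hab, h.qs2, q_one h]

lemma z2_eq_of_add {a b : ZMod 2} (h : a + b = 0) : a = b := by
  revert a b; decide

include h hF in
lemma tri_eq {a b c : S.G} (hab : S.q a b = S.q a c) (x : S.G) : Tri F a b x = Tri F a c x := by
  have h1 := tri_zero hF h ((h.qs3 a b c).1 hab) x
  rw [tri_mul2 hF] at h1
  exact z2_eq_of_add h1

include h hF in
lemma tri_of_q {a b c d : S.G} (e : S.q a b = S.q c d) (x : S.G) :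
    Tri F a b x = Tri F c d x := by
  obtain ⟨y, h1, h2⟩ := h.qs4 _ _ _ _ e
  rw [tri_eq hF h h1 x, tri_eq hF h h2 x, tri_perm1 a, tri_perm1 c]
  refine tri_eq hF h ?_ x
  rw [h.qs2 y a, h.qs2 y c, ← h1, ← h2, e]

include h hF in
lemma q_iff {a b c d : S.G} : (∀ x, Tri F a b x = Tri F c d x) ↔ S.q a b = S.q c d :=
  ⟨hF.two a b c d, fun e x => tri_of_q hF h e x⟩

/-- the trilinear form, as an iterated homomorphism -/
def phi : Additive S.G →+ Additive S.G →+ Du (Additive S.G) :=
  AddMonoidHom.mk' (fun a => AddMonoidHom.mk' (fun b =>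
    AddMonoidHom.mk' (fun c => Tri F a.toMul b.toMul c.toMul)
      (fun c d => hF.cubic _ _ _ _))
      (fun b c => by ext d; exact tri_mul2 hF _ _ _ _))
    (fun a b => by ext c d; exact tri_mul1 hF _ _ _ _)

lemma phi_apply (a b c : Additive S.G) :
    phi hF a b c = Tri F a.toMul b.toMul c.toMul := rfl

include h hF in
lemma phi_eq_iff (a b c d : Additive S.G) :
    phi hF a b = phi hF c d ↔ S.q a.toMul b.toMul = S.q c.toMul d.toMul := by
  rw [← q_iff hF h]
  constructor
  · intro e x
    exact DFunLike.congr_fun e (Additive.ofMul x)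
  · intro e
    exact AddMonoidHom.ext fun x => e (Additive.toMul x)

include h in
lemma phi_zero_iff (a b : Additive S.G) : phi hF a b = 0 ↔ S.q a.toMul b.toMul = S.zero := by
  have h1 : phi hF 0 0 = 0 := by rw [map_zero]
  rw [← h1, phi_eq_iff hF h]
  show S.q a.toMul b.toMul = S.q 1 1 ↔ _
  rw [q_one h]

variable (hnd : ∀ a : S.G, (∀ b : S.G, S.q a b = S.zero) → a = 1)

/-- the cubic data of a socle functional -/
def dat : Dat (Additive S.G) where
  two := fun a => h.exp2 a.toMul
  φ := phi hF
  F := fun x => F x.toMul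
  der := by
    intro a b x
    rw [phi_apply]
    show F x.toMul + F (x.toMul * a.toMul) + F (x.toMul * b.toMul) +
        F (x.toMul * a.toMul * b.toMul) = F 1 + F a.toMul + F b.toMul + F (a.toMul * b.toMul) +
        Tri F a.toMul b.toMul x.toMul
    generalize a.toMul = a
    generalize b.toMul = b
    generalize x.toMul = x
    unfold Tri
    rw [mul_comm a x, mul_comm b x, show a * b * x = x * a * b by rw [mul_comm (a * b) x, mul_assoc]]
    generalize F (x * a * b) = u1
    generalize F (x * a) = u2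
    generalize F (x * b) = u3
    generalize F (a * b) = u4
    generalize F a = u5
    generalize F b = u6
    generalize F x = u7
    generalize F 1 = u8
    revert u1 u2 u3 u4 u5 u6 u7 u8
    decide
  beta0 := by
    intro a b e
    rw [phi_zero_iff hF h] at e
    show F 1 + F a.toMul + F b.toMul + F (a.toMul * b.toMul) = 0
    have h1 := z2sum (hF.witt a.toMul b.toMul 1 (a.toMul * b.toMul) 1 (by rw [one_mul])
      (by rw [e, h.qs2, q_one h]))
    simpa only [one_mul, mul_one] using h1
  link := by
    intro a b c d e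
    rw [phi_eq_iff hF h] at e
    obtain ⟨x, h1, h2⟩ := h.qs4 _ _ _ _ e
    refine ⟨Additive.ofMul x, (phi_eq_iff hF h _ _ _ _).2 ?_, (phi_eq_iff hF h _ _ _ _).2 ?_⟩
    · exact h1.symm
    · rw [e]; exact h2.symm
  gor := by
    intro a b y e
    rw [phi_apply] at e
    obtain ⟨d, e', h1, h2⟩ := hF.three _ _ _ e
    exact ⟨Additive.ofMul d, Additive.ofMul e', (phi_eq_iff hF h _ _ _ _).2 h1,
      (phi_zero_iff hF h _ _).2 h2⟩
  nondeg := by
    intro a ha
    have : a.toMul = 1 := hnd _ fun b => (phi_zero_iff hF h a (Additive.ofMul b)).1 (ha _)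
    exact this

end

end Pool.Agent.N16.Gor
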