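import Pool.Agent.N16.Gor.Large

set_option autoImplicit false

/-! # The range left open: the statements for quaternionic structures -/

namespace Pool.Agent.N16.Gor

open Pool.Agent.H315R3.ETC Pool.Agent.TH673.VG

section
variable {S : QData} {F : S.G → ZMod 2} (hF : Socle S F) (h : IsQuat S)
  (hnd : ∀ a : S.G, (∀ b : S.G, S.q a b = S.zero) → a = 1)

include hF h hnd in
/-- the index of a value group is at least sixteen if it is not four -/
lemma sixteen [Finite S.G] {z : S.G} (hz : z ≠ 1)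
    (h4 : 4 * {b : S.G | S.q z b = S.zero}.ncard < Nat.card S.G) :
    16 * {b : S.G | S.q z b = S.zero}.ncard ≤ Nat.card S.G := by
  obtain ⟨k, hk, hk1⟩ := index_square hF h hnd z
  have h1 := hk1 hz
  have h2 : 2 ≤ k := by
    by_contra hc
    have h3 : k = 1 := by omega
    rw [h3] at hk
    omega
  have h4 : 4 ≤ 2 ^ k := by
    calc 4 = 2 ^ 2 := by norm_num
      _ ≤ 2 ^ k := Nat.pow_le_pow_right (by norm_num) h2
  have h5 : 16 ≤ 2 ^ k * 2 ^ k := by
    calc 16 = 4 * 4 := by norm_num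
      _ ≤ _ := Nat.mul_le_mul h4 h4
  rw [← hk, mul_comm]
  exact Nat.mul_le_mul_left _ h5

include hF h hnd in
/-- the structures which are not of elementary type -/
theorem window [Finite S.G] (hne : ¬ Elem S) :
    2 ^ 21 ≤ Nat.card S.G ∧
    (∀ z : S.G, z ≠ 1 → 64 * Nat.card S.G < {b : S.G | S.q z b = S.zero}.ncard ^ 4 ∧
      16 * {b : S.G | S.q z b = S.zero}.ncard ≤ Nat.card S.G) ∧
    ∃ z : S.G, z ≠ 1 ∧ {b : S.G | S.q z b = S.zero}.ncard ^ 3 ≤ Nat.card S.G := by
  classical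
  have _ : Fintype (Additive S.G) := Fintype.ofFinite _
  have hcard : Nat.card S.G = Fintype.card (Additive S.G) := by
    rw [← Nat.card_eq_fintype_card]
    rfl
  have hG : Nat.card S.G ≠ 1 := fun e => hne (elem_trivial e)
  have hpos : 0 < Nat.card S.G := Nat.card_pos
  obtain ⟨z0, hz0⟩ : ∃ z : S.G, z ≠ 1 := by
    have := (Finite.one_lt_card_iff_nontrivial).1 (show 1 < Nat.card S.G by omega)
    exact exists_ne 1
  have hall : ∀ z : S.G, z ≠ 1 → 64 * Nat.card S.G < {b : S.G | S.q z b = S.zero}.ncard ^ 4 ∧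
      16 * {b : S.G | S.q z b = S.zero}.ncard ≤ Nat.card S.G := by
    intro z hz
    refine ⟨?_, sixteen hF h hnd hz ?_⟩
    · by_contra hc
      push Not at hc
      exact hne (elem_of_small hF h hnd ⟨z, hz, hc⟩)
    · by_contra hc
      push Not at hc
      exact hne (elem_of_four hF h hnd ⟨z, hz, hc⟩)
  obtain ⟨u, hu0, hmax⟩ := (dat hF h hnd).exists_max (z := Additive.ofMul z0) (fun e => hz0 e)
  have hle := (dat hF h hnd).upper hu0 hmax
  have hu1 : u.toMul ≠ 1 := fun e => hu0 e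
  have hcz : ((dat hF h hnd).Cz u).card = {b : S.G | S.q u.toMul b = S.zero}.ncard :=
    card_cz hF h hnd u.toMul
  have hnat := (dat hF h hnd).card_nat u
  rw [hcz] at hle hnat
  rw [← hcard] at hnat
  have hs := (hall u.toMul hu1).1
  refine ⟨?_, hall, u.toMul, hu1, Dat.cube hnat hle⟩
  have hvp := (dat hF h hnd).cz_pow u
  rw [hcz] at hvp
  exact Dat.big hvp ((dat hF h hnd).M_pow u) hnat hle hs

include hF h hnd in
/-- the structures which are not of elementary type, with the orders of the value groups -/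
theorem window_full [Finite S.G] (hne : ¬ Elem S) :
    2 ^ 21 ≤ Nat.card S.G ∧
    (∀ z : S.G, z ≠ 1 → 64 * Nat.card S.G < {b : S.G | S.q z b = S.zero}.ncard ^ 4 ∧
      ∃ k : ℕ, 2 ≤ k ∧ 4 ^ k * {b : S.G | S.q z b = S.zero}.ncard = Nat.card S.G) ∧
    (∃ z : S.G, z ≠ 1 ∧ {b : S.G | S.q z b = S.zero}.ncard ^ 3 ≤ Nat.card S.G) ∧
    ∃ a b : S.G, a ≠ 1 ∧ b ≠ 1 ∧
      {x : S.G | S.q a x = S.zero}.ncard ≠ {x : S.G | S.q b x = S.zero}.ncard := by
  obtain ⟨h1, h2, h3⟩ := window hF h hnd hne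
  refine ⟨h1, fun z hz => ⟨(h2 z hz).1, ?_⟩, h3, ?_⟩
  · obtain ⟨k, hk, -⟩ := index_square hF h hnd z
    have h4 := (h2 z hz).2
    have hpos : 0 < Nat.card S.G := Nat.card_pos
    have hv : 0 < {b : S.G | S.q z b = S.zero}.ncard := by
      rcases Nat.eq_zero_or_pos {b : S.G | S.q z b = S.zero}.ncard with e | e
      · rw [e] at hk; omega
      · exact e
    have e1 : (4 : ℕ) ^ k = 2 ^ k * 2 ^ k := by
      rw [← mul_pow]
      norm_num
    refine ⟨k, ?_, by rw [e1, mul_comm]; exact hk⟩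
    by_contra hc
    have h5 : k = 0 ∨ k = 1 := by omega
    rcases h5 with h5 | h5 <;> rw [h5] at hk <;> omega
  · by_contra hc
    push Not at hc
    exact hne (elem_of_equal hF h hnd (fun a b ha hb => hc a b ha hb) (by
      have : 1 < 2 ^ 21 := by norm_num
      omega))

end

end Pool.Agent.N16.Gor
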